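import Pool.Agent.Helper58.MR.L2

/-! Brun-Titchmarsh in windows of constant ratio. -/

namespace Pool.MR

open Finset Pool.Agent.Helper2.MR

theorem card_Ioc_dvd (a b D : ℕ) (hab : a ≤ b) (hD : 1 ≤ D) :
    |(((Ioc a b).filter (fun n => D ∣ n)).card : ℝ) - ((b : ℝ) - a) / D| ≤ 1 := by
  have hD0 : (0 : ℝ) < D := by exact_mod_cast hD
  have h1 : ((Ioc 0 b).filter (fun n => D ∣ n)).card
      = ((Ioc 0 a).filter (fun n => D ∣ n)).card + ((Ioc a b).filter (fun n => D ∣ n)).card := by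
    rw [← card_union_of_disjoint]
    · congr 1
      ext n
      simp only [mem_union, mem_filter, mem_Ioc]
      constructor
      · rintro ⟨⟨h1, h2⟩, h3⟩
        rcases Nat.lt_or_ge a n with h | h
        · right; exact ⟨⟨h, h2⟩, h3⟩
        · left; exact ⟨⟨h1, h⟩, h3⟩
      · rintro (⟨⟨h1, h2⟩, h3⟩ | ⟨⟨h1, h2⟩, h3⟩)
        · exact ⟨⟨h1, h2.trans hab⟩, h3⟩
        · exact ⟨⟨by omega, h2⟩, h3⟩
    · rw [disjoint_left]
      intro n hn hn2
      rw [mem_filter, mem_Ioc] at hn hn2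
      omega
  rw [Nat.Ioc_filter_dvd_card_eq_div, Nat.Ioc_filter_dvd_card_eq_div] at h1
  have h2 : (((Ioc a b).filter (fun n => D ∣ n)).card : ℝ) = ((b / D : ℕ) : ℝ) - ((a / D : ℕ) : ℝ) := by
    rw [h1]; push_cast; ring
  rw [h2]
  have b1 : ((b / D : ℕ) : ℝ) ≤ (b : ℝ) / D := Nat.cast_div_le
  have a1 : ((a / D : ℕ) : ℝ) ≤ (a : ℝ) / D := Nat.cast_div_le
  have hgen : ∀ m : ℕ, (m : ℝ) / D < ((m / D : ℕ) : ℝ) + 1 := by
    intro m
    rw [div_lt_iff₀ hD0]
    have h3 : m < (m / D + 1) * D := by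
      have h4 := Nat.div_add_mod m D
      have h5 := Nat.mod_lt m (show 0 < D by omega)
      calc m = D * (m / D) + m % D := h4.symm
        _ < D * (m / D) + D := by omega
        _ = (m / D + 1) * D := by ring
    exact_mod_cast h3
  have b2 := hgen b
  have a2 := hgen a
  rw [sub_div, abs_le]
  constructor <;> linarith

theorem sum_thet (lam : ℕ → ℝ) (z : ℝ) (hz : 1 ≤ z) (hlam : ∀ d, |lam d| ≤ z) (a b : ℕ) (hab : a ≤ b) :
    ∑ n ∈ Ioc a b, thet lam ⌊z⌋₊ n
      ≤ ((b : ℝ) - a) * (∑ d1 ∈ Icc 1 ⌊z⌋₊, ∑ d2 ∈ Icc 1 ⌊z⌋₊, lam d1 * lam d2 / (Nat.lcm d1 d2 : ℝ))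
        + z ^ 4 := by
  have hz0 : 0 ≤ z := by linarith
  set N := ⌊z⌋₊ with hN
  have hNz : (N : ℝ) ≤ z := Nat.floor_le hz0
  have h1 : ∑ n ∈ Ioc a b, thet lam N n = ∑ d1 ∈ Icc 1 N, ∑ d2 ∈ Icc 1 N,
      lam d1 * lam d2 * (((Ioc a b).filter (fun n => Nat.lcm d1 d2 ∣ n)).card : ℝ) := by
    have e1 : ∀ n ∈ Ioc a b, thet lam N n = ∑ d1 ∈ Icc 1 N, ∑ d2 ∈ Icc 1 N,
      if Nat.lcm d1 d2 ∣ n then lam d1 * lam d2 else 0 := fun n _ => thet_eq lam N n
    rw [sum_congr rfl e1, sum_comm]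
    apply sum_congr rfl; intro d1 _
    rw [sum_comm]
    apply sum_congr rfl; intro d2 _
    rw [← sum_filter, sum_const, nsmul_eq_mul, mul_comm]
  rw [h1, mul_sum]
  have h2 : ∀ d1 ∈ Icc 1 N, ∑ d2 ∈ Icc 1 N,
      lam d1 * lam d2 * (((Ioc a b).filter (fun n => Nat.lcm d1 d2 ∣ n)).card : ℝ)
      ≤ ((b : ℝ) - a) * (∑ d2 ∈ Icc 1 N, lam d1 * lam d2 / (Nat.lcm d1 d2 : ℝ)) + z * z ^ 2 := by
    intro d1 hd1
    calc _ ≤ ∑ d2 ∈ Icc 1 N, (((b : ℝ) - a) * (lam d1 * lam d2 / (Nat.lcm d1 d2 : ℝ)) + z ^ 2) := by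
          apply sum_le_sum; intro d2 hd2
          rw [mem_Icc] at hd1 hd2
          have h3 := card_Ioc_dvd a b (Nat.lcm d1 d2) hab (Nat.lcm_pos (by omega) (by omega))
          set c : ℝ := (((Ioc a b).filter (fun n => Nat.lcm d1 d2 ∣ n)).card : ℝ) with hc
          have h4 : lam d1 * lam d2 * c - ((b : ℝ) - a) * (lam d1 * lam d2 / (Nat.lcm d1 d2 : ℝ))
              = lam d1 * lam d2 * (c - ((b : ℝ) - a) / (Nat.lcm d1 d2 : ℕ)) := by ring
          have h5 : |lam d1 * lam d2 * (c - ((b : ℝ) - a) / (Nat.lcm d1 d2 : ℕ))| ≤ z ^ 2 := by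
            rw [abs_mul, abs_mul]
            have h6 : |lam d1| * |lam d2| ≤ z * z :=
              mul_le_mul (hlam _) (hlam _) (abs_nonneg _) hz0
            calc |lam d1| * |lam d2| * |c - ((b : ℝ) - a) / (Nat.lcm d1 d2 : ℕ)| ≤ z * z * 1 :=
                  mul_le_mul h6 h3 (abs_nonneg _) (by positivity)
              _ = z ^ 2 := by ring
          have h7 := (abs_le.1 h5).2
          linarith
      _ = ((b : ℝ) - a) * (∑ d2 ∈ Icc 1 N, lam d1 * lam d2 / (Nat.lcm d1 d2 : ℝ)) + N * z ^ 2 := by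
          rw [sum_add_distrib, ← mul_sum, sum_const, nsmul_eq_mul, Nat.card_Icc, Nat.add_sub_cancel]
      _ ≤ _ := by
          have := mul_le_mul_of_nonneg_right hNz (show 0 ≤ z ^ 2 by positivity)
          linarith
  refine (sum_le_sum h2).trans ?_
  rw [sum_add_distrib, sum_const, nsmul_eq_mul, Nat.card_Icc, Nat.add_sub_cancel]
  have := mul_le_mul_of_nonneg_right hNz (show 0 ≤ z * z ^ 2 by positivity)
  have e1 : z * (z * z ^ 2) = z ^ 4 := by ring
  linarith

theorem stBT : StBT := by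
  refine ⟨1000, by norm_num, ?_⟩
  intro V hV
  refine ⟨max 1 (2 * Real.log (8 * V)), ?_⟩
  intro z hz
  have hVpos : 0 < V := by linarith
  have hz1 : 1 ≤ z := (le_max_left _ _).trans hz
  have hz2 : 2 * Real.log (8 * V) ≤ z := (le_max_right _ _).trans hz
  have hzpos : 0 < z := by linarith
  set x := Real.exp z with hx
  have hxpos : 0 < x := Real.exp_pos _
  have hx1 : 1 < x := by rw [hx]; exact Real.one_lt_exp_iff.2 hzpos
  have hlogx : Real.log x = z := Real.log_exp z
  have hhalf : 8 * V ≤ Real.exp (z / 2) := by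
    rw [← Real.log_le_iff_le_exp (by positivity)]; linarith
  set w := x ^ (1 / 16 : ℝ) with hw
  have hw1 : 1 < w := Real.one_lt_rpow hx1 (by norm_num)
  have hlogw : Real.log w = z / 16 := by rw [hw, Real.log_rpow hxpos, hlogx]; ring
  have hw4 : w ^ 4 = Real.exp (z / 4) := by
    rw [hw, ← Real.rpow_natCast, ← Real.rpow_mul hxpos.le, hx, ← Real.exp_mul]
    congr 1; push_cast; ring
  have hwx : w ≤ x := by
    calc w ≤ x ^ (1 : ℝ) := Real.rpow_le_rpow_of_exponent_le hx1.le (by norm_num)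
      _ = x := Real.rpow_one _
  obtain ⟨lam, hl1, hl2, hl3, hq0, hq1⟩ := selberg w hw1
  set Q := ∑ d1 ∈ Icc 1 ⌊w⌋₊, ∑ d2 ∈ Icc 1 ⌊w⌋₊, lam d1 * lam d2 / (Nat.lcm d1 d2 : ℝ) with hQ
  have hQle : Q ≤ 32 / z := by
    refine hq1.trans (le_of_eq ?_)
    rw [hlogw]; field_simp; norm_num
  set a := ⌊Real.exp z⌋₊ with ha
  set b := ⌊Real.exp (z + 1 / V)⌋₊ with hb
  have h1V : 0 < 1 / V := by positivity
  have h1V1 : 1 / V ≤ 1 := by rw [div_le_one hVpos]; exact hV
  have hab : a ≤ b := Nat.floor_le_floor (Real.exp_le_exp.2 (by linarith))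
  have hba : (b : ℝ) - a ≤ 2 * x / V + 1 := by
    have b1 : (b : ℝ) ≤ Real.exp (z + 1 / V) := Nat.floor_le (Real.exp_pos _).le
    have a1 : x < a + 1 := Nat.lt_floor_add_one _
    have e1 : Real.exp (z + 1 / V) ≤ x * (1 + 2 * (1 / V)) := by
      rw [Real.exp_add]
      apply mul_le_mul_of_nonneg_left _ hxpos.le
      have := Real.abs_exp_sub_one_le (x := 1 / V) (by rw [abs_of_pos h1V]; exact h1V1)
      rw [abs_of_pos h1V] at this
      linarith [(abs_le.1 this).2]
    have e2 : x * (1 + 2 * (1 / V)) = x + 2 * x / V := by ring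
    linarith
  have hNw1 : 1 ≤ ⌊w⌋₊ := Nat.le_floor (by push_cast; exact hw1.le)
  -- number of primes
  have hcard : (((Ioc a b).filter Nat.Prime).card : ℝ) ≤ (2 * x / V + 1) * (32 / z) + Real.exp (z / 4) := by
    calc (((Ioc a b).filter Nat.Prime).card : ℝ) = ∑ _p ∈ (Ioc a b).filter Nat.Prime, (1 : ℝ) := by simp
      _ = ∑ p ∈ (Ioc a b).filter Nat.Prime, thet lam ⌊w⌋₊ p := by
          apply sum_congr rfl; intro p hp
          rw [mem_filter, mem_Ioc] at hp
          rw [thet_prime lam hl1 _ p hNw1 hp.2]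
          calc ⌊w⌋₊ ≤ a := Nat.floor_le_floor hwx
            _ < p := hp.1.1
      _ ≤ ∑ n ∈ Ioc a b, thet lam ⌊w⌋₊ n := by
          apply sum_le_sum_of_subset_of_nonneg (filter_subset _ _)
          intro n _ _; unfold thet; positivity
      _ ≤ ((b : ℝ) - a) * Q + w ^ 4 := sum_thet lam w hw1.le hl2 a b hab
      _ ≤ (2 * x / V + 1) * (32 / z) + Real.exp (z / 4) := by
          rw [hw4]
          apply add_le_add _ le_rfl
          exact mul_le_mul hba hQle hq0 (by positivity)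
  have hterm : ∀ p ∈ (Ioc a b).filter Nat.Prime, Real.log p / p ≤ 2 * z / x := by
    intro p hp
    rw [mem_filter, mem_Ioc] at hp
    have hpx : x < p := (Nat.floor_lt hxpos.le).1 hp.1.1
    have hpb : (p : ℝ) ≤ Real.exp (z + 1 / V) := (Nat.le_floor_iff (Real.exp_pos _).le).1 hp.1.2
    have hp0 : (0 : ℝ) < p := by linarith
    have hlp : Real.log p ≤ z + 1 / V := by
      have := Real.log_le_log hp0 hpb
      rwa [Real.log_exp] at this
    have hlp2 : Real.log p ≤ 2 * z := by linarith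
    exact div_le_div₀ (by positivity) hlp2 hxpos hpx.le
  calc ∑ p ∈ (Ioc a b).filter Nat.Prime, Real.log p / p
      ≤ ∑ _p ∈ (Ioc a b).filter Nat.Prime, 2 * z / x := sum_le_sum hterm
    _ = (((Ioc a b).filter Nat.Prime).card : ℝ) * (2 * z / x) := by rw [sum_const, nsmul_eq_mul]
    _ ≤ ((2 * x / V + 1) * (32 / z) + Real.exp (z / 4)) * (2 * z / x) :=
        mul_le_mul_of_nonneg_right hcard (by positivity)
    _ = 128 / V + 64 / x + 2 * (z * Real.exp (z / 4)) / x := by field_simp; ring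
    _ ≤ 1000 / V := by
        have t1 : 64 / x ≤ 64 / V := by
          apply div_le_div_of_nonneg_left (by norm_num) hVpos
          have : x = Real.exp (z / 2) * Real.exp (z / 2) := by
            rw [hx, ← Real.exp_add]; congr 1; ring
          rw [this]; nlinarith
        have t2 : 2 * (z * Real.exp (z / 4)) / x ≤ 1 / V := by
          have e1 : x = Real.exp (z / 4) * (Real.exp (z / 4) * Real.exp (z / 2)) := by
            rw [hx, ← Real.exp_add, ← Real.exp_add]; congr 1; ring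
          have e2 : z ≤ 4 * Real.exp (z / 4) := by
            have := Real.add_one_le_exp (z / 4)
            linarith
          rw [div_le_div_iff₀ hxpos hVpos, one_mul]
          rw [e1]
          have q1 : 0 < Real.exp (z / 4) := Real.exp_pos _
          calc 2 * (z * Real.exp (z / 4)) * V
              = Real.exp (z / 4) * (z * (2 * V)) := by ring
            _ ≤ Real.exp (z / 4) * ((4 * Real.exp (z / 4)) * (2 * V)) := by
                apply mul_le_mul_of_nonneg_left _ q1.le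
                exact mul_le_mul_of_nonneg_right e2 (by positivity)
            _ = Real.exp (z / 4) * (Real.exp (z / 4) * (8 * V)) := by ring
            _ ≤ Real.exp (z / 4) * (Real.exp (z / 4) * Real.exp (z / 2)) := by
                apply mul_le_mul_of_nonneg_left _ q1.le
                exact mul_le_mul_of_nonneg_left hhalf q1.le
        have t3 : 128 / V + 64 / V + 1 / V ≤ 1000 / V := by
          rw [← add_div, ← add_div]
          exact div_le_div_of_nonneg_right (by norm_num) hVpos.le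
        linarith

end Pool.MR
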