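import Pool.Agent.Helper58.MR.VC5
import Pool.Agent.Helper2.MR.St

/-! Sharp sums of `n ^ (-i t)` over residue classes. -/

namespace Pool.MR

open Finset Pool.Agent.Helper2.MR

theorem ch_eq_e (t : ℝ) (n : ℕ) : ch t n = e (-t * Real.log n / (2 * Real.pi)) := by
  unfold ch e
  have : (Real.pi : ℂ) ≠ 0 := by exact_mod_cast Real.pi_ne_zero
  congr 1
  push_cast
  field_simp

/-- block sums -/
theorem sum_block (B : ℝ) (hB : 1 ≤ B) :
    ∃ ρ : ℝ, 0 < ρ ∧ ρ ≤ 1 / 2 ∧ ∃ C : ℝ, 0 < C ∧ ∀ M : ℝ, 1 ≤ M → ∀ y : ℝ, 1 ≤ |y| →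
      |y| ≤ M ^ B → ∀ θ : ℝ, 0 ≤ θ → θ ≤ 1 → ∀ m0 m1 : ℕ, M ≤ m0 → (m1 : ℝ) ≤ 10 * M →
        ‖∑ m ∈ Ico m0 m1, e (y * Real.log (m + θ) / (2 * Real.pi))‖
          ≤ C * (M ^ (1 - ρ) + M / |y|) := by
  obtain ⟨ρ, h1, h2, C, hC, h⟩ := sum_e_log_shift B hB
  refine ⟨min ρ (1 / 2), by positivity, min_le_right _ _, C + 160, by positivity, ?_⟩
  intro M hM y hy1 hy2 θ hθ0 hθ1 m0 m1 hm0 hm1
  have hypos : 0 < |y| := by linarith
  have hMpos : 0 < M := by linarith
  have t1 : 0 ≤ M / |y| := by positivity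
  have t2 : 0 ≤ M ^ (1 - min ρ (1 / 2)) := by positivity
  have t3 : M ^ (1 - ρ) ≤ M ^ (1 - min ρ (1 / 2)) := by
    apply Real.rpow_le_rpow_of_exponent_le hM
    linarith [min_le_left ρ (1 / 2)]
  rcases le_total (M ^ (1 / 4 : ℝ)) |y| with hle | hle
  · refine (h M hM y hle hy2 θ hθ0 hθ1 m0 m1 hm0 hm1).trans ?_
    have := mul_le_mul_of_nonneg_left t3 hC.le
    nlinarith [mul_nonneg hC.le t1]
  · have hyM : |y| ≤ M := by
      refine hle.trans ?_
      calc M ^ (1 / 4 : ℝ) ≤ M ^ (1 : ℝ) := Real.rpow_le_rpow_of_exponent_le hM (by norm_num)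
        _ = M := Real.rpow_one _
    refine (sum_e_log_kl_shift M hM y (by
      intro h0; rw [h0] at hy1; norm_num at hy1) hyM θ hθ0 hθ1 m0 m1 hm0 hm1).trans ?_
    rw [mul_div_assoc]
    nlinarith [mul_nonneg hC.le t1, mul_nonneg hC.le t2]

/-- full sums -/
theorem sum_full (k : ℕ) :
    ∃ ρ : ℝ, 0 < ρ ∧ ρ ≤ 1 / 2 ∧ ∃ C : ℝ, 0 < C ∧ ∀ X : ℝ, 1 ≤ X → ∀ y : ℝ, 1 ≤ |y| →
      |y| ≤ X ^ k → ∀ θ : ℝ, 0 ≤ θ → θ ≤ 1 → ∀ N : ℕ, (N : ℝ) ≤ X + 1 →
        ‖∑ m ∈ Ico 1 N, e (y * Real.log (m + θ) / (2 * Real.pi))‖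
          ≤ C * (X ^ (1 - ρ) + X / |y|) := by
  obtain ⟨ρ, h1, h2, C, hC, h⟩ := sum_block (4 * k + 1) (by
    have : (0 : ℝ) ≤ k := by positivity
    linarith)
  refine ⟨ρ, h1, h2, 101 + 4 * C, by positivity, ?_⟩
  intro X hX y hy1 hy2 θ hθ0 hθ1 N hN
  have hypos : 0 < |y| := by linarith
  have hXpos : 0 < X := by linarith
  have key : ∀ N : ℕ, ‖∑ m ∈ Ico 1 N, e (y * Real.log (m + θ) / (2 * Real.pi))‖
      ≤ 100 + X ^ (1 / 2 : ℝ) + 2 * C * ((N : ℝ) ^ (1 - ρ) + N / |y|) := by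
    intro N
    induction N using Nat.strong_induction_on with
    | _ N ih =>
      have hN0 : (0 : ℝ) ≤ N := by positivity
      have hnn : 0 ≤ 2 * C * ((N : ℝ) ^ (1 - ρ) + N / |y|) := by positivity
      have htriv : ‖∑ m ∈ Ico 1 N, e (y * Real.log (m + θ) / (2 * Real.pi))‖ ≤ N := by
        refine (norm_sum_le _ _).trans ?_
        simp only [norm_e, sum_const, nsmul_eq_mul, mul_one, Nat.card_Ico]
        exact_mod_cast Nat.sub_le _ _
      have hX12 : 0 ≤ X ^ (1 / 2 : ℝ) := by positivity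
      by_cases hc1 : N < 100
      · have : (N : ℝ) ≤ 100 := by exact_mod_cast hc1.le
        linarith
      by_cases hc2 : (N : ℝ) < X ^ (1 / 2 : ℝ)
      · linarith
      push Not at hc1 hc2
      have hN100 : (100 : ℝ) ≤ N := by exact_mod_cast hc1
      set m0 := N / 10 + 1 with hm0
      have hm0N : m0 < N := by omega
      have hm0a : (N : ℝ) / 10 ≤ m0 := by
        rw [hm0, div_le_iff₀ (by norm_num)]
        have : N ≤ (N / 10 + 1) * 10 := by omega
        exact_mod_cast this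
      have hm0b : (m0 : ℝ) ≤ N / 5 := by
        rw [hm0, le_div_iff₀ (by norm_num)]
        have : (N / 10 + 1) * 5 ≤ N := by omega
        exact_mod_cast this
      have hsplit : ∑ m ∈ Ico 1 N, e (y * Real.log (m + θ) / (2 * Real.pi))
          = ∑ m ∈ Ico 1 m0, e (y * Real.log (m + θ) / (2 * Real.pi))
            + ∑ m ∈ Ico m0 N, e (y * Real.log (m + θ) / (2 * Real.pi)) := by
        rw [Finset.sum_Ico_consecutive _ (by omega) (by omega)]
      rw [hsplit]
      refine (norm_add_le _ _).trans ?_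
      have hI := ih m0 hm0N
      have hM1 : (1 : ℝ) ≤ (N : ℝ) / 10 := by linarith
      have hyb : |y| ≤ ((N : ℝ) / 10) ^ ((4 * k + 1 : ℝ)) := by
        have e1 : X ≤ (N : ℝ) ^ (2 : ℕ) := by
          have : X = (X ^ (1 / 2 : ℝ)) ^ (2 : ℕ) := by
            rw [← Real.rpow_natCast, ← Real.rpow_mul hXpos.le]; norm_num
          rw [this]
          exact pow_le_pow_left₀ hX12 hc2 2
        have e2 : (N : ℝ) ≤ ((N : ℝ) / 10) ^ (2 : ℕ) := by nlinarith
        calc |y| ≤ X ^ k := hy2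
          _ ≤ ((N : ℝ) ^ 2) ^ k := pow_le_pow_left₀ hXpos.le e1 k
          _ ≤ ((((N : ℝ) / 10) ^ 2) ^ 2) ^ k := by
              apply pow_le_pow_left₀ (by positivity)
              exact pow_le_pow_left₀ hN0 e2 2
          _ = ((N : ℝ) / 10) ^ (4 * k) := by rw [← pow_mul, ← pow_mul]; congr 1; ring
          _ = ((N : ℝ) / 10) ^ ((4 * k : ℕ) : ℝ) := by rw [Real.rpow_natCast]
          _ ≤ ((N : ℝ) / 10) ^ ((4 * k + 1 : ℝ)) := by
              apply Real.rpow_le_rpow_of_exponent_le hM1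
              push_cast; linarith
      have hB := h ((N : ℝ) / 10) hM1 y hy1 hyb θ hθ0 hθ1 m0 N hm0a (by linarith)
      have g1 : (m0 : ℝ) ^ (1 - ρ) ≤ 1 / 2 * (N : ℝ) ^ (1 - ρ) := by
        calc (m0 : ℝ) ^ (1 - ρ) ≤ ((N : ℝ) / 5) ^ (1 - ρ) :=
              Real.rpow_le_rpow (by positivity) hm0b (by linarith)
          _ = (N : ℝ) ^ (1 - ρ) * (1 / 5 : ℝ) ^ (1 - ρ) := by
              rw [← Real.mul_rpow hN0 (by norm_num)]; congr 1; ring
          _ ≤ (N : ℝ) ^ (1 - ρ) * (1 / 2) := by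
              apply mul_le_mul_of_nonneg_left _ (by positivity)
              have : (1 / 5 : ℝ) ^ (1 - ρ) ≤ (1 / 5 : ℝ) ^ (1 / 2 : ℝ) :=
                Real.rpow_le_rpow_of_exponent_ge (by norm_num) (by norm_num) (by linarith)
              refine this.trans ?_
              rw [← Real.sqrt_eq_rpow, Real.sqrt_le_left (by norm_num)]; norm_num
          _ = 1 / 2 * (N : ℝ) ^ (1 - ρ) := by ring
      have g2 : (m0 : ℝ) / |y| ≤ 1 / 5 * (N / |y|) := by
        rw [div_le_iff₀ hypos]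
        have : 1 / 5 * ((N : ℝ) / |y|) * |y| = N / 5 := by field_simp
        rw [this]; exact hm0b
      have g3 : ((N : ℝ) / 10) ^ (1 - ρ) ≤ (N : ℝ) ^ (1 - ρ) :=
        Real.rpow_le_rpow (by positivity) (by linarith) (by linarith)
      have g4 : (N : ℝ) / 10 / |y| = 1 / 10 * (N / |y|) := by ring
      rw [g4] at hB
      have n1 : 0 ≤ (N : ℝ) ^ (1 - ρ) := by positivity
      have n2 : 0 ≤ (N : ℝ) / |y| := by positivity
      have f1 : 2 * C * ((m0 : ℝ) ^ (1 - ρ) + m0 / |y|)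
          ≤ 2 * C * (1 / 2 * (N : ℝ) ^ (1 - ρ) + 1 / 5 * (N / |y|)) :=
        mul_le_mul_of_nonneg_left (by linarith) (by positivity)
      have f2 : C * (((N : ℝ) / 10) ^ (1 - ρ) + 1 / 10 * (N / |y|))
          ≤ C * ((N : ℝ) ^ (1 - ρ) + 1 / 10 * (N / |y|)) :=
        mul_le_mul_of_nonneg_left (by linarith) hC.le
      have f3 : 0 ≤ C * (N / |y|) := by positivity
      nlinarith
  refine (key N).trans ?_
  have hN2 : (N : ℝ) ≤ 2 * X := by linarith
  have a1 : X ^ (1 / 2 : ℝ) ≤ X ^ (1 - ρ) := Real.rpow_le_rpow_of_exponent_le hX (by linarith)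
  have a2 : 1 ≤ X ^ (1 - ρ) := Real.one_le_rpow hX (by linarith)
  have a3 : (N : ℝ) ^ (1 - ρ) ≤ 2 * X ^ (1 - ρ) := by
    calc (N : ℝ) ^ (1 - ρ) ≤ (2 * X) ^ (1 - ρ) :=
          Real.rpow_le_rpow (by positivity) hN2 (by linarith)
      _ = 2 ^ (1 - ρ) * X ^ (1 - ρ) := Real.mul_rpow (by norm_num) hXpos.le
      _ ≤ 2 * X ^ (1 - ρ) := by
          apply mul_le_mul_of_nonneg_right _ (by positivity)
          calc (2 : ℝ) ^ (1 - ρ) ≤ 2 ^ (1 : ℝ) :=
                Real.rpow_le_rpow_of_exponent_le (by norm_num) (by linarith)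
            _ = 2 := Real.rpow_one _
  have a4 : (N : ℝ) / |y| ≤ 2 * (X / |y|) := by
    rw [← mul_div_assoc]
    exact div_le_div_of_nonneg_right hN2 hypos.le
  have a5 : 0 ≤ X / |y| := by positivity
  have a6 := mul_le_mul_of_nonneg_left a3 (show 0 ≤ 2 * C by positivity)
  have a7 := mul_le_mul_of_nonneg_left a4 (show 0 ≤ 2 * C by positivity)
  nlinarith

theorem stSS : StSS := by
  intro k q hq
  obtain ⟨ρ, h1, h2, C, hC, h⟩ := sum_full k
  refine ⟨C + 1, ρ, by positivity, h1, by linarith, ?_⟩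
  intro r x t hx ht1 ht2
  have hxpos : 0 < x := by linarith
  set n := ⌊x⌋₊ with hn
  set r' := r % q with hr'
  have hr'q : r' < q := Nat.mod_lt _ (by omega)
  have hnx : (n : ℝ) ≤ x := Nat.floor_le hxpos.le
  have ht0 : 0 < |t| := by linarith
  -- split according to `m / q = 0`
  have hsplit := Finset.sum_filter_add_sum_filter_not
    ((Icc 1 n).filter (fun m => m % q = r')) (fun m => m / q = 0) (fun m => ch t m)
  rw [← hsplit]
  refine (norm_add_le _ _).trans ?_
  have hA : ‖∑ m ∈ ((Icc 1 n).filter (fun m => m % q = r')).filter (fun m => m / q = 0), ch t m‖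
      ≤ 1 := by
    refine (norm_sum_le _ _).trans ?_
    have : ∀ m ∈ ((Icc 1 n).filter (fun m => m % q = r')).filter (fun m => m / q = 0),
        ‖ch t m‖ = 1 := by
      intro m _; rw [ch_eq_e, norm_e]
    rw [sum_congr rfl this, sum_const, nsmul_eq_mul, mul_one]
    have hsub : ((Icc 1 n).filter (fun m => m % q = r')).filter (fun m => m / q = 0) ⊆ {r'} := by
      intro m hm
      rw [mem_filter, mem_filter] at hm
      rw [mem_singleton]
      have := Nat.div_add_mod m q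
      rw [hm.2, hm.1.2] at this
      omega
    have := card_le_card hsub
    rw [card_singleton] at this
    exact_mod_cast this
  set J := (n - r') / q + 1 with hJ
  have hB : ‖∑ m ∈ ((Icc 1 n).filter (fun m => m % q = r')).filter (fun m => ¬ (m / q = 0)), ch t m‖
      ≤ C * (x ^ (1 - ρ) + x / |t|) := by
    have hbij : ∑ m ∈ ((Icc 1 n).filter (fun m => m % q = r')).filter (fun m => ¬ (m / q = 0)),
        ch t m = ∑ j ∈ Ico 1 J, ch t (r' + q * j) := by
      symm
      apply Finset.sum_bij (fun j _ => r' + q * j)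
      · intro j hj
        rw [mem_Ico] at hj
        have hj2 : j ≤ (n - r') / q := by omega
        have hj3 : j * q ≤ n - r' := (Nat.le_div_iff_mul_le (by omega)).1 hj2
        have hj4 : 1 ≤ j * q := Nat.mul_pos (by omega) (by omega)
        rw [mem_filter, mem_filter, mem_Icc]
        refine ⟨⟨⟨?_, ?_⟩, ?_⟩, ?_⟩
        · rw [mul_comm]; omega
        · rw [mul_comm]; omega
        · rw [Nat.add_mul_mod_self_left, Nat.mod_eq_of_lt hr'q]
        · rw [Nat.add_mul_div_left _ _ (by omega), Nat.div_eq_of_lt hr'q]; omega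
      · intro i _ j _ hij
        have : q * i = q * j := by omega
        exact Nat.eq_of_mul_eq_mul_left (by omega) this
      · intro m hm
        rw [mem_filter, mem_filter, mem_Icc] at hm
        have hdm := Nat.div_add_mod m q
        rw [hm.1.2] at hdm
        refine ⟨m / q, ?_, by omega⟩
        rw [mem_Ico]
        constructor
        · exact Nat.one_le_iff_ne_zero.2 hm.2
        · rw [hJ]
          have : m / q ≤ (n - r') / q := by
            rw [Nat.le_div_iff_mul_le (by omega), mul_comm]; omega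
          omega
      · intro j _; rfl
    rw [hbij]
    have hterm : ∀ j ∈ Ico 1 J, ch t (r' + q * j)
        = e (-t * Real.log q / (2 * Real.pi))
          * e ((-t) * Real.log ((j : ℝ) + (r' : ℝ) / q) / (2 * Real.pi)) := by
      intro j hj
      rw [mem_Ico] at hj
      rw [ch_eq_e, ← e_add]
      congr 1
      have hqpos : (0 : ℝ) < q := by exact_mod_cast hq
      have hjpos : (0 : ℝ) < j := by exact_mod_cast hj.1
      have hr0 : (0 : ℝ) ≤ (r' : ℝ) / q := by positivity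
      have : ((r' + q * j : ℕ) : ℝ) = q * ((j : ℝ) + (r' : ℝ) / q) := by
        push_cast; field_simp; ring
      rw [this, Real.log_mul hqpos.ne' (by positivity)]
      ring
    rw [sum_congr rfl hterm, ← mul_sum, norm_mul, norm_e, one_mul]
    have hθ0 : (0 : ℝ) ≤ (r' : ℝ) / q := by positivity
    have hθ1 : (r' : ℝ) / q ≤ 1 := by
      rw [div_le_one (by exact_mod_cast hq)]
      exact_mod_cast hr'q.le
    have := h x hx (-t) (by rw [abs_neg]; exact ht1) (by rw [abs_neg]; exact ht2)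
      ((r' : ℝ) / q) hθ0 hθ1 J (by
        have h3 : (n - r') / q ≤ n := le_trans (Nat.div_le_self _ _) (Nat.sub_le _ _)
        have h4 : ((J : ℕ) : ℝ) ≤ n + 1 := by
          rw [hJ]; exact_mod_cast (by omega : (n - r') / q + 1 ≤ n + 1)
        linarith)
    rw [abs_neg] at this
    exact this
  have h3 : 1 ≤ x ^ (1 - ρ) := Real.one_le_rpow hx (by linarith)
  have h4 : 0 ≤ x / |t| := by positivity
  nlinarith

end Pool.MR
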