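import Mathlib

/-! Selberg weights. -/

namespace Pool.MR

open Finset

noncomputable def selG (N : ℕ) : ℝ := ∑ l ∈ Icc 1 N, (ArithmeticFunction.moebius l : ℝ) ^ 2 / (Nat.totient l : ℝ)

noncomputable def selY (N l : ℕ) : ℝ := (ArithmeticFunction.moebius l : ℝ) / ((Nat.totient l : ℝ) * selG N)

noncomputable def selL (N d : ℕ) : ℝ :=
  d * ∑ l ∈ (Icc 1 N).filter (fun l => d ∣ l), (ArithmeticFunction.moebius (l / d) : ℝ) * selY N l

theorem selG_ge_one (N : ℕ) (hN : 1 ≤ N) : 1 ≤ selG N := by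
  unfold selG
  have h1 : (1 : ℕ) ∈ Icc 1 N := by rw [mem_Icc]; omega
  have := Finset.single_le_sum (f := fun l : ℕ => (ArithmeticFunction.moebius l : ℝ) ^ 2 / (Nat.totient l : ℝ))
    (fun l _ => by positivity) h1
  simpa using this

theorem selL_one (N : ℕ) (hN : 1 ≤ N) : selL N 1 = 1 := by
  have hG : 0 < selG N := by linarith [selG_ge_one N hN]
  unfold selL selY
  simp only [one_dvd, filter_true, Nat.div_one, Nat.cast_one, one_mul]
  have : ∀ l ∈ Icc 1 N, (ArithmeticFunction.moebius l : ℝ) *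
      ((ArithmeticFunction.moebius l : ℝ) / ((Nat.totient l : ℝ) * selG N))
      = ((ArithmeticFunction.moebius l : ℝ) ^ 2 / (Nat.totient l : ℝ)) / selG N := by
    intro l _
    rw [div_div, pow_two, mul_div_assoc]
  rw [sum_congr rfl this, ← sum_div]
  exact div_self hG.ne'

theorem abs_moebius_le_one' (l : ℕ) : |(ArithmeticFunction.moebius l : ℝ)| ≤ 1 := by
  have := ArithmeticFunction.abs_moebius_le_one (n := l)
  exact_mod_cast this

theorem selY_le (N l : ℕ) (hN : 1 ≤ N) (hl : 1 ≤ l) : |selY N l| ≤ 1 := by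
  have hG := selG_ge_one N hN
  have ht : (1 : ℝ) ≤ (Nat.totient l : ℝ) := by
    exact_mod_cast Nat.totient_pos.2 hl
  unfold selY
  rw [abs_div, abs_of_pos (by positivity : (0 : ℝ) < (Nat.totient l : ℝ) * selG N)]
  rw [div_le_one (by positivity)]
  have := abs_moebius_le_one' l
  nlinarith

theorem selL_le (N d : ℕ) (hN : 1 ≤ N) : |selL N d| ≤ N := by
  rcases Nat.eq_zero_or_pos d with rfl | hd
  · unfold selL; simp
  unfold selL
  rw [abs_mul, abs_of_nonneg (by positivity : (0 : ℝ) ≤ (d : ℝ))]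
  have h1 : |∑ l ∈ (Icc 1 N).filter (fun l => d ∣ l), (ArithmeticFunction.moebius (l / d) : ℝ) * selY N l|
      ≤ ((Icc 1 N).filter (fun l => d ∣ l)).card := by
    refine (abs_sum_le_sum_abs _ _).trans ?_
    calc _ ≤ ∑ l ∈ (Icc 1 N).filter (fun l => d ∣ l), (1 : ℝ) := by
          apply sum_le_sum; intro l hl
          rw [mem_filter, mem_Icc] at hl
          rw [abs_mul]
          exact mul_le_one₀ (abs_moebius_le_one' _) (abs_nonneg _) (selY_le N l hN hl.1.1)
      _ = _ := by simp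
  have h2 : ((Icc 1 N).filter (fun l => d ∣ l)).card = N / d := by
    have : (Icc 1 N).filter (fun l => d ∣ l) = (Ioc 0 N).filter (fun l => d ∣ l) := by
      congr 1
    rw [this, Nat.Ioc_filter_dvd_card_eq_div]
  rw [h2] at h1
  calc (d : ℝ) * _ ≤ d * ((N / d : ℕ) : ℝ) := mul_le_mul_of_nonneg_left h1 (by positivity)
    _ ≤ N := by exact_mod_cast Nat.mul_div_le N d

theorem selL_zero (N d : ℕ) (hd : N < d) : selL N d = 0 := by
  unfold selL
  have : (Icc 1 N).filter (fun l => d ∣ l) = ∅ := by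
    apply filter_eq_empty_iff.2
    intro l hl hdl
    rw [mem_Icc] at hl
    have := Nat.le_of_dvd (by omega) hdl
    omega
  rw [this]; simp

/-- inner Moebius sum -/
theorem moebius_between (N l m : ℕ) (hl : 1 ≤ l) (hm : m ∈ Icc 1 N) :
    ∑ d ∈ (Icc 1 N).filter (fun d => l ∣ d ∧ d ∣ m), (ArithmeticFunction.moebius (m / d) : ℝ)
      = if m = l then 1 else 0 := by
  rw [mem_Icc] at hm
  by_cases hlm : l ∣ m
  · obtain ⟨k, rfl⟩ := hlm
    have hk : 1 ≤ k := by
      rcases Nat.eq_zero_or_pos k with rfl | h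
      · simp at hm
      · exact h
    have h1 : ∑ d ∈ (Icc 1 N).filter (fun d => l ∣ d ∧ d ∣ l * k),
        (ArithmeticFunction.moebius (l * k / d) : ℝ)
        = ∑ e ∈ k.divisors, (ArithmeticFunction.moebius e : ℝ) := by
      apply Finset.sum_bij' (fun d _ => l * k / d) (fun e _ => l * k / e)
      · intro d hd
        rw [mem_filter, mem_Icc] at hd
        obtain ⟨⟨hd1, hd2⟩, ⟨c, rfl⟩, hd4⟩ := hd
        rw [Nat.mem_divisors]
        refine ⟨?_, by omega⟩
        obtain ⟨u, hu⟩ := hd4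
        have hku : k = c * u := by
          have : l * k = l * (c * u) := by rw [hu]; ring
          exact Nat.eq_of_mul_eq_mul_left (by omega) this
        rw [hu, Nat.mul_div_cancel_left _ (by omega)]
        exact ⟨c, by rw [hku]; ring⟩
      · intro e he
        rw [Nat.mem_divisors] at he
        obtain ⟨⟨u, rfl⟩, _⟩ := he
        have he0 : 0 < e := Nat.pos_of_ne_zero (by rintro rfl; simp at hk)
        have hu0 : 0 < u := Nat.pos_of_ne_zero (by rintro rfl; simp at hk)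
        have hq : l * (e * u) / e = l * u := by
          rw [show l * (e * u) = e * (l * u) by ring, Nat.mul_div_cancel_left _ he0]
        rw [hq, mem_filter, mem_Icc]
        refine ⟨⟨Nat.mul_pos (by omega) hu0, ?_⟩, ⟨u, rfl⟩, ⟨e, by ring⟩⟩
        calc l * u ≤ l * (e * u) := by
              apply Nat.mul_le_mul_left
              exact Nat.le_mul_of_pos_left u he0
          _ ≤ N := hm.2
      · intro d hd
        rw [mem_filter, mem_Icc] at hd
        exact Nat.div_div_self hd.2.2 (by omega)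
      · intro e he
        rw [Nat.mem_divisors] at he
        exact Nat.div_div_self (he.1.mul_left l) (by omega)
      · intro d _; rfl
    rw [h1]
    have h2 : ∑ e ∈ k.divisors, (ArithmeticFunction.moebius e : ℝ) = if k = 1 then 1 else 0 := by
      have h3 : ∑ e ∈ k.divisors, ArithmeticFunction.moebius e = if k = 1 then 1 else 0 := by
        rw [← ArithmeticFunction.coe_mul_zeta_apply, ArithmeticFunction.moebius_mul_coe_zeta,
          ArithmeticFunction.one_apply]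
      have h4 : ((∑ e ∈ k.divisors, ArithmeticFunction.moebius e : ℤ) : ℝ)
          = ((if k = 1 then 1 else 0 : ℤ) : ℝ) := by rw [h3]
      push_cast at h4
      exact h4
    rw [h2]
    have : (l * k = l) ↔ k = 1 := by
      constructor
      · intro h
        exact Nat.eq_of_mul_eq_mul_left (by omega) (by rw [h, mul_one] : l * k = l * 1)
      · rintro rfl; simp
    simp only [this]
  · have : (Icc 1 N).filter (fun d => l ∣ d ∧ d ∣ m) = ∅ := by
      apply filter_eq_empty_iff.2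
      rintro d _ ⟨h1, h2⟩
      exact hlm (h1.trans h2)
    rw [this, sum_empty, if_neg]
    rintro rfl
    exact hlm dvd_rfl

theorem sum_selL (N l : ℕ) (hl : l ∈ Icc 1 N) :
    ∑ d ∈ (Icc 1 N).filter (fun d => l ∣ d), selL N d / d = selY N l := by
  have hl' := mem_Icc.1 hl
  have h1 : ∀ d ∈ (Icc 1 N).filter (fun d => l ∣ d), selL N d / d
      = ∑ m ∈ Icc 1 N, if d ∣ m then (ArithmeticFunction.moebius (m / d) : ℝ) * selY N m else 0 := by
    intro d hd
    rw [mem_filter, mem_Icc] at hd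
    have hd0 : (d : ℝ) ≠ 0 := by exact_mod_cast (by omega : d ≠ 0)
    unfold selL
    rw [mul_div_cancel_left₀ _ hd0, sum_filter]
  rw [sum_congr rfl h1, sum_comm]
  have h2 : ∀ m ∈ Icc 1 N, ∑ d ∈ (Icc 1 N).filter (fun d => l ∣ d),
      (if d ∣ m then (ArithmeticFunction.moebius (m / d) : ℝ) * selY N m else 0)
      = (if m = l then 1 else 0) * selY N m := by
    intro m hm
    rw [← moebius_between N l m hl'.1 hm, sum_mul, ← sum_filter, filter_filter]
  rw [sum_congr rfl h2]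
  simp only [ite_mul, one_mul, zero_mul]
  rw [sum_ite_eq' (Icc 1 N) l, if_pos hl]

/-- the quadratic form -/
noncomputable def selQ (N : ℕ) : ℝ :=
  ∑ d1 ∈ Icc 1 N, ∑ d2 ∈ Icc 1 N, selL N d1 * selL N d2 / (Nat.lcm d1 d2 : ℝ)

theorem selQ_eq (N : ℕ) (hN : 1 ≤ N) : selQ N = 1 / selG N := by
  have hG : 0 < selG N := by linarith [selG_ge_one N hN]
  have h1 : selQ N = ∑ d1 ∈ Icc 1 N, ∑ d2 ∈ Icc 1 N, ∑ l ∈ Icc 1 N,
      (if l ∣ d1 then selL N d1 / d1 else 0) * (if l ∣ d2 then selL N d2 / d2 else 0)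
        * (Nat.totient l : ℝ) := by
    unfold selQ
    apply sum_congr rfl; intro d1 hd1
    apply sum_congr rfl; intro d2 hd2
    rw [mem_Icc] at hd1 hd2
    have hd10 : (d1 : ℝ) ≠ 0 := by exact_mod_cast (by omega : d1 ≠ 0)
    have hd20 : (d2 : ℝ) ≠ 0 := by exact_mod_cast (by omega : d2 ≠ 0)
    have hg0 : 0 < Nat.gcd d1 d2 := Nat.gcd_pos_of_pos_left _ (by omega)
    have hgcd : (Nat.gcd d1 d2 : ℝ) = ∑ l ∈ (Icc 1 N).filter (fun l => l ∣ d1 ∧ l ∣ d2), (Nat.totient l : ℝ) := by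
      have h2 : (Icc 1 N).filter (fun l => l ∣ d1 ∧ l ∣ d2) = (Nat.gcd d1 d2).divisors := by
        ext l
        rw [mem_filter, mem_Icc, Nat.mem_divisors, Nat.dvd_gcd_iff]
        constructor
        · rintro ⟨_, h⟩; exact ⟨h, hg0.ne'⟩
        · rintro ⟨h, _⟩
          refine ⟨⟨Nat.pos_of_dvd_of_pos h.1 (by omega), ?_⟩, h⟩
          exact (Nat.le_of_dvd (by omega) h.1).trans hd1.2
      rw [h2]
      have := Nat.sum_totient (Nat.gcd d1 d2)
      exact_mod_cast this.symm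
    have hlcm : (Nat.lcm d1 d2 : ℝ) = d1 * d2 / Nat.gcd d1 d2 := by
      rw [eq_div_iff (by exact_mod_cast hg0.ne')]
      have := Nat.gcd_mul_lcm d1 d2
      rw [mul_comm] at this
      exact_mod_cast this
    have h3 : ∑ l ∈ Icc 1 N,
      (if l ∣ d1 then selL N d1 / d1 else 0) * (if l ∣ d2 then selL N d2 / d2 else 0)
        * (Nat.totient l : ℝ) = (selL N d1 / d1) * (selL N d2 / d2)
          * ∑ l ∈ (Icc 1 N).filter (fun l => l ∣ d1 ∧ l ∣ d2), (Nat.totient l : ℝ) := by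
      rw [mul_sum, sum_filter]
      apply sum_congr rfl; intro l _
      by_cases a1 : l ∣ d1 <;> by_cases a2 : l ∣ d2 <;> simp [a1, a2]
    rw [h3, ← hgcd, hlcm]
    field_simp
  have h2 : selQ N = ∑ l ∈ Icc 1 N, (Nat.totient l : ℝ) *
      (∑ d ∈ (Icc 1 N).filter (fun d => l ∣ d), selL N d / d) ^ 2 := by
    rw [h1]
    have h3 : ∀ d1 ∈ Icc 1 N, ∑ d2 ∈ Icc 1 N, ∑ l ∈ Icc 1 N,
      (if l ∣ d1 then selL N d1 / d1 else 0) * (if l ∣ d2 then selL N d2 / d2 else 0)
        * (Nat.totient l : ℝ) = ∑ l ∈ Icc 1 N, ∑ d2 ∈ Icc 1 N,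
      (if l ∣ d1 then selL N d1 / d1 else 0) * (if l ∣ d2 then selL N d2 / d2 else 0)
        * (Nat.totient l : ℝ) := fun d1 _ => sum_comm
    rw [sum_congr rfl h3, sum_comm]
    apply sum_congr rfl; intro l _
    rw [pow_two, sum_filter, sum_mul_sum, mul_sum]
    apply sum_congr rfl; intro d1 _
    rw [mul_sum]
    apply sum_congr rfl; intro d2 _
    ring
  rw [h2]
  have h3 : ∀ l ∈ Icc 1 N, (Nat.totient l : ℝ) *
      (∑ d ∈ (Icc 1 N).filter (fun d => l ∣ d), selL N d / d) ^ 2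
      = ((ArithmeticFunction.moebius l : ℝ) ^ 2 / (Nat.totient l : ℝ)) / (selG N) ^ 2 := by
    intro l hl
    rw [sum_selL N l hl]
    rw [mem_Icc] at hl
    have ht : (Nat.totient l : ℝ) ≠ 0 := by exact_mod_cast (Nat.totient_pos.2 (by omega)).ne'
    unfold selY
    field_simp
  rw [sum_congr rfl h3, ← sum_div]
  change selG N / selG N ^ 2 = 1 / selG N
  field_simp

theorem sum_inv_sq_le' (N : ℕ) : ∑ m ∈ Icc 1 (N + 1), (1 : ℝ) / (m : ℝ) ^ 2 ≤ 2 - 1 / (N + 1) := by
  induction N with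
  | zero => norm_num
  | succ N ih =>
    rw [sum_Icc_succ_top (by omega)]
    have h1 : (1 : ℝ) / ((N + 1 + 1 : ℕ) : ℝ) ^ 2 ≤ 1 / (N + 1) - 1 / (((N + 1 : ℕ) : ℝ) + 1) := by
      push_cast
      rw [div_sub_div _ _ (by positivity) (by positivity), div_le_div_iff₀ (by positivity) (by positivity)]
      have : (0 : ℝ) ≤ N := by positivity
      nlinarith
    linarith

theorem sum_inv_sq_le (N : ℕ) : ∑ m ∈ Icc 1 N, (1 : ℝ) / (m : ℝ) ^ 2 ≤ 2 := by
  rcases Nat.eq_zero_or_pos N with rfl | h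
  · simp
  · obtain ⟨k, rfl⟩ : ∃ k, N = k + 1 := ⟨N - 1, by omega⟩
    have := sum_inv_sq_le' k
    have h2 : (0 : ℝ) ≤ 1 / (k + 1) := by positivity
    linarith

theorem selG_ge_log (N : ℕ) (hN : 1 ≤ N) : Real.log (N + 1) ≤ 2 * selG N := by
  have h1 : Real.log (N + 1) ≤ ∑ n ∈ Icc 1 N, (1 : ℝ) / n := by
    have := log_add_one_le_harmonic N
    rw [harmonic_eq_sum_Icc] at this
    push_cast at this
    refine this.trans (le_of_eq ?_)
    apply sum_congr rfl; intro n _; rw [one_div]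
  have h2 : ∑ n ∈ Icc 1 N, (1 : ℝ) / n
      ≤ ∑ a ∈ Icc 1 N, ∑ b ∈ Icc 1 N, ((ArithmeticFunction.moebius a : ℝ) ^ 2 / a) * (1 / (b : ℝ) ^ 2) := by
    rw [← sum_product']
    have h3 : ∀ n ∈ Icc 1 N, ∃ p : ℕ × ℕ, p ∈ (Icc 1 N) ×ˢ (Icc 1 N) ∧ p.2 ^ 2 * p.1 = n ∧
        Squarefree p.1 := by
      intro n hn
      rw [mem_Icc] at hn
      obtain ⟨a, b, ha, hb, hab, hsq⟩ := Nat.sq_mul_squarefree_of_pos hn.1
      refine ⟨(a, b), ?_, hab, hsq⟩
      rw [mem_product, mem_Icc, mem_Icc]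
      have h4 : a ≤ n := by rw [← hab]; exact Nat.le_mul_of_pos_left a (by positivity)
      have h5 : b ≤ n := by
        rw [← hab]
        calc b ≤ b ^ 2 := Nat.le_self_pow (by norm_num) b
          _ ≤ b ^ 2 * a := Nat.le_mul_of_pos_right _ ha
      exact ⟨⟨ha, by simp only; omega⟩, ⟨hb, by simp only; omega⟩⟩
    choose! g hg1 hg2 hg3 using h3
    have hinj : Set.InjOn g (Icc 1 N : Finset ℕ) := by
      intro x hx y hy hxy
      rw [← hg2 x hx, ← hg2 y hy, hxy]
    calc ∑ n ∈ Icc 1 N, (1 : ℝ) / n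
        = ∑ n ∈ Icc 1 N, (fun p : ℕ × ℕ => ((ArithmeticFunction.moebius p.1 : ℝ) ^ 2 / p.1)
            * (1 / (p.2 : ℝ) ^ 2)) (g n) := by
          apply sum_congr rfl; intro n hn
          have e1 := hg2 n hn
          have e2 : (ArithmeticFunction.moebius (g n).1 : ℝ) ^ 2 = 1 := by
            exact_mod_cast ArithmeticFunction.moebius_sq_eq_one_of_squarefree (hg3 n hn)
          simp only
          rw [e2]
          have e3 : (n : ℝ) = ((g n).2 : ℝ) ^ 2 * (g n).1 := by exact_mod_cast e1.symm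
          rw [e3, div_mul_div_comm, mul_one, mul_comm]
      _ = ∑ p ∈ (Icc 1 N).image g, ((ArithmeticFunction.moebius p.1 : ℝ) ^ 2 / p.1)
            * (1 / (p.2 : ℝ) ^ 2) := by
          rw [sum_image hinj]
      _ ≤ _ := by
          apply sum_le_sum_of_subset_of_nonneg
          · intro p hp
            rw [mem_image] at hp
            obtain ⟨n, hn, rfl⟩ := hp
            exact hg1 n hn
          · intro p _ _; positivity
  have h3 : ∑ a ∈ Icc 1 N, ∑ b ∈ Icc 1 N,
      ((ArithmeticFunction.moebius a : ℝ) ^ 2 / a) * (1 / (b : ℝ) ^ 2)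
      ≤ ∑ a ∈ Icc 1 N, ((ArithmeticFunction.moebius a : ℝ) ^ 2 / (Nat.totient a : ℝ)) * 2 := by
    apply sum_le_sum; intro a ha
    rw [mem_Icc] at ha
    rw [← mul_sum]
    apply mul_le_mul
    · have ht : (0 : ℝ) < (Nat.totient a : ℝ) := by exact_mod_cast Nat.totient_pos.2 ha.1
      apply div_le_div_of_nonneg_left (by positivity) ht
      exact_mod_cast Nat.totient_le a
    · exact sum_inv_sq_le N
    · exact sum_nonneg fun _ _ => by positivity
    · positivity
  rw [← sum_mul] at h3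
  have h4 : ∑ a ∈ Icc 1 N, ((ArithmeticFunction.moebius a : ℝ) ^ 2 / (Nat.totient a : ℝ)) = selG N := rfl
  rw [h4] at h3
  linarith

/-- Selberg weights of level `z` -/
theorem selberg (z : ℝ) (hz : 1 < z) : ∃ lam : ℕ → ℝ, lam 1 = 1 ∧ (∀ d, |lam d| ≤ z) ∧
    (∀ d : ℕ, z < d → lam d = 0) ∧
    0 ≤ ∑ d1 ∈ Icc 1 ⌊z⌋₊, ∑ d2 ∈ Icc 1 ⌊z⌋₊, lam d1 * lam d2 / (Nat.lcm d1 d2 : ℝ) ∧
    ∑ d1 ∈ Icc 1 ⌊z⌋₊, ∑ d2 ∈ Icc 1 ⌊z⌋₊, lam d1 * lam d2 / (Nat.lcm d1 d2 : ℝ) ≤ 2 / Real.log z := by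
  set N := ⌊z⌋₊ with hN
  have hz0 : 0 ≤ z := by linarith
  have hN1 : 1 ≤ N := Nat.le_floor (by push_cast; exact hz.le)
  have hNz : (N : ℝ) ≤ z := Nat.floor_le hz0
  have hzN : z < N + 1 := Nat.lt_floor_add_one z
  refine ⟨selL N, selL_one N hN1, fun d => (selL_le N d hN1).trans hNz, ?_, ?_, ?_⟩
  · intro d hd
    apply selL_zero
    have : (N : ℝ) < d := by linarith
    exact_mod_cast this
  · change 0 ≤ selQ N
    rw [selQ_eq N hN1]
    have := selG_ge_one N hN1
    positivity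
  · change selQ N ≤ 2 / Real.log z
    rw [selQ_eq N hN1]
    have h1 := selG_ge_one N hN1
    have h2 := selG_ge_log N hN1
    have h3 : 0 < Real.log z := Real.log_pos hz
    have h4 : Real.log z ≤ Real.log (N + 1) := Real.log_le_log (by linarith) hzN.le
    rw [div_le_div_iff₀ (by linarith) h3]
    linarith

end Pool.MR
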