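import Pool.Agent.Helper58.MR.VC4

/-! Exponential sums, V: lossy but uniform bound for sums of `n ^ (i y)`; partial summation. -/

namespace Pool.MR

open Finset

/-- Kusmin-Landau range: `1 ≤ |y| ≤ M`. -/
theorem sum_e_log_kl_shift (M : ℝ) (hM : 1 ≤ M) (y : ℝ) (hy0 : y ≠ 0) (hy : |y| ≤ M) (θ : ℝ)
    (hθ0 : 0 ≤ θ) (hθ1 : θ ≤ 1) (m0 m1 : ℕ) (hm0 : M ≤ m0) (hm1 : (m1 : ℝ) ≤ 10 * M) :
    ‖∑ m ∈ Ico m0 m1, e (y * Real.log (m + θ) / (2 * Real.pi))‖ ≤ 160 * M / |y| := by
  have hpi := Real.pi_pos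
  have hpi3 := Real.pi_gt_three
  have hpi4 := Real.pi_lt_four
  have hypos : 0 < |y| := abs_pos.2 hy0
  have hMpos : 0 < M := by linarith
  have hred : ‖∑ m ∈ Ico m0 m1, e (y * Real.log (m + θ) / (2 * Real.pi))‖
      = ‖∑ m ∈ Ico m0 m1, e (-(|y| * Real.log (m + θ) / (2 * Real.pi)) + m)‖ := by
    have h1 : ∀ m ∈ Ico m0 m1, e (-(|y| * Real.log (m + θ) / (2 * Real.pi)) + m)
        = e (-(|y| * Real.log (m + θ) / (2 * Real.pi))) := by
      intro m _
      rw [e_add, show ((m : ℕ) : ℝ) = ((m : ℤ) : ℝ) by simp, e_intCast, mul_one]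
    rw [sum_congr rfl h1]
    rcases abs_choice y with h | h
    · rw [h, norm_sum_e_neg]
    · rw [h]; congr 1; apply sum_congr rfl; intro m _; congr 1; ring
  rw [hred]
  have hk := kusmin_landau (fun m => -(|y| * Real.log (m + θ) / (2 * Real.pi)) + m) m0 m1
    (|y| / (80 * M)) (by positivity) (by
      intro n h1 h2
      have hn00 : M ≤ (n : ℝ) := hm0.trans (by exact_mod_cast h1)
      obtain ⟨x, hx⟩ : ∃ x : ℝ, x = (n : ℝ) + θ := ⟨_, rfl⟩
      have hn0 : M ≤ x := by rw [hx]; linarith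
      have hn1 : x + 1 ≤ 11 * M := by
        have : (n : ℝ) + 1 ≤ m1 := by exact_mod_cast h2
        rw [hx]; linarith
      have hnpos : 0 < x := by linarith
      have hl1 : Real.log (x + 1) - Real.log x ≤ 1 / x := by
        rw [← Real.log_div (by positivity) hnpos.ne']
        have := Real.log_le_sub_one_of_pos (show 0 < (x + 1) / x by positivity)
        refine this.trans (le_of_eq ?_)
        field_simp; ring
      have hl2 : 1 / (x + 1) ≤ Real.log (x + 1) - Real.log x := by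
        have := Real.log_le_sub_one_of_pos (show 0 < x / (x + 1) by positivity)
        rw [Real.log_div hnpos.ne' (by positivity)] at this
        have h3 : x / (x + 1) - 1 = -(1 / (x + 1)) := by field_simp; ring
        rw [h3] at this
        linarith
      push_cast
      have hd : -(|y| * Real.log ((n : ℝ) + 1 + θ) / (2 * Real.pi)) + ((n : ℝ) + 1)
          - (-(|y| * Real.log (n + θ) / (2 * Real.pi)) + n)
          = 1 - |y| / (2 * Real.pi) * (Real.log (x + 1) - Real.log x) := by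
        rw [hx, show (n : ℝ) + 1 + θ = n + θ + 1 by ring]; ring
      rw [hd]
      have hc : 0 < |y| / (2 * Real.pi) := by positivity
      constructor
      · have h4 : |y| / (2 * Real.pi) * (Real.log (x + 1) - Real.log x)
            ≤ |y| / (2 * Real.pi) * (1 / M) := by
          apply mul_le_mul_of_nonneg_left _ hc.le
          exact hl1.trans (one_div_le_one_div_of_le hMpos hn0)
        have h5 : |y| / (2 * Real.pi) * (1 / M) ≤ 1 / 2 := by
          rw [div_mul_div_comm, div_le_div_iff₀ (by positivity) (by norm_num)]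
          nlinarith
        have h6 : |y| / (80 * M) ≤ 1 / 2 := by
          rw [div_le_div_iff₀ (by positivity) (by norm_num)]; linarith
        linarith
      · have h4 : |y| / (2 * Real.pi) * (1 / (11 * M))
            ≤ |y| / (2 * Real.pi) * (Real.log (x + 1) - Real.log x) := by
          apply mul_le_mul_of_nonneg_left _ hc.le
          exact le_trans (one_div_le_one_div_of_le (by positivity) hn1) hl2
        have h5 : |y| / (80 * M) ≤ |y| / (2 * Real.pi) * (1 / (11 * M)) := by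
          rw [div_mul_div_comm, mul_one]
          apply div_le_div_of_nonneg_left hypos.le (by positivity)
          have : Real.pi < 3.15 := Real.pi_lt_d2
          nlinarith
        linarith) (by
      intro n h1 h2
      have hn00 : M ≤ (n : ℝ) := hm0.trans (by exact_mod_cast h1)
      push_cast
      rw [show (n : ℝ) + 1 + θ = n + θ + 1 by ring, show (n : ℝ) + 2 + θ = n + θ + 2 by ring]
      obtain ⟨x, hx⟩ : ∃ x : ℝ, x = (n : ℝ) + θ := ⟨_, rfl⟩
      rw [← hx]
      have hnpos : 0 < x := by rw [hx]; linarith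
      have hconc : Real.log x + Real.log (x + 2) ≤ 2 * Real.log (x + 1) := by
        rw [← Real.log_mul hnpos.ne' (by positivity), ← Real.log_rpow (by positivity)]
        apply Real.log_le_log (by positivity)
        rw [show ((2 : ℝ)) = ((2 : ℕ) : ℝ) by norm_num, Real.rpow_natCast]
        push_cast; nlinarith
      have hc : 0 < |y| / (2 * Real.pi) := by positivity
      have := mul_le_mul_of_nonneg_left hconc hc.le
      have e1 : |y| / (2 * Real.pi) * (Real.log x + Real.log (x + 2))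
          = |y| * Real.log x / (2 * Real.pi) + |y| * Real.log (x + 2) / (2 * Real.pi) := by ring
      have e2 : |y| / (2 * Real.pi) * (2 * Real.log (x + 1))
          = 2 * (|y| * Real.log (x + 1) / (2 * Real.pi)) := by ring
      rw [e1, e2] at this
      linarith)
  refine hk.trans (le_of_eq ?_)
  field_simp; norm_num

theorem sum_e_log_kl (M : ℝ) (hM : 1 ≤ M) (y : ℝ) (hy0 : y ≠ 0) (hy : |y| ≤ M) (m0 m1 : ℕ)
    (hm0 : M ≤ m0) (hm1 : (m1 : ℝ) ≤ 10 * M) :
    ‖∑ m ∈ Ico m0 m1, e (y * Real.log m / (2 * Real.pi))‖ ≤ 160 * M / |y| := by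
  have := sum_e_log_kl_shift M hM y hy0 hy 0 le_rfl zero_le_one m0 m1 hm0 hm1
  simpa using this

/-- second difference test for the logarithm: all `|y| ≥ M`. -/
theorem sum_e_log_two : ∃ C : ℝ, 0 < C ∧ ∀ M : ℝ, 1 ≤ M → ∀ y : ℝ, M ≤ |y| → ∀ m0 m1 : ℕ,
    M ≤ m0 → (m1 : ℝ) ≤ 10 * M →
    ‖∑ m ∈ Ico m0 m1, e (y * Real.log m / (2 * Real.pi))‖ ≤ C * Real.sqrt |y| := by
  refine ⟨100000, by norm_num, ?_⟩
  intro M hM y hy m0 m1 hm0 hm1
  have hpi := Real.pi_pos
  have hpi3 := Real.pi_gt_three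
  have hpi4 := Real.pi_lt_four
  have hMpos : 0 < M := by linarith
  have hypos : 0 < |y| := by linarith
  rcases Nat.lt_or_ge m0 m1 with hlt | hge
  swap
  · rw [Ico_eq_empty (by omega)]; simp
  have htriv : ‖∑ m ∈ Ico m0 m1, e (y * Real.log m / (2 * Real.pi))‖ ≤ 10 * M := by
    refine (norm_sum_le _ _).trans ?_
    simp only [norm_e, sum_const, nsmul_eq_mul, mul_one, Nat.card_Ico]
    refine le_trans ?_ hm1
    exact_mod_cast Nat.sub_le _ _
  rcases le_or_gt (M ^ 2) |y| with hbig | hsmall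
  · have : M ≤ Real.sqrt |y| := Real.le_sqrt_of_sq_le hbig
    have h0 : 0 ≤ Real.sqrt |y| := Real.sqrt_nonneg _
    linarith
  have hred : ‖∑ m ∈ Ico m0 m1, e (y * Real.log m / (2 * Real.pi))‖
      = ‖∑ n ∈ range (m1 - m0), e (-(|y| / (2 * Real.pi)) * Real.log ((m0 + n : ℕ) : ℝ))‖ := by
    rw [Finset.sum_Ico_eq_sum_range]
    rcases abs_choice y with hy | hy
    · rw [hy, ← norm_sum_e_neg]
      congr 1; apply sum_congr rfl; intro n _; congr 1; ring
    · rw [hy]
      congr 1; apply sum_congr rfl; intro n _; congr 1; ring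
  rw [hred]
  set a : ℕ → ℝ := fun n => -(|y| / (2 * Real.pi)) * Real.log ((m0 + n : ℕ) : ℝ) with ha
  set lam : ℝ := |y| / (1152 * M ^ 2) with hlam
  have hlpos : 0 < lam := by positivity
  have hsd := second_diff a (m1 - m0) lam 1152 hlpos (by
    intro n hn
    have hx1 : M ≤ ((m0 + n : ℕ) : ℝ) := by
      push_cast; have : (0 : ℝ) ≤ n := by positivity
      linarith
    have hx2 : ((m0 + n : ℕ) : ℝ) ≤ 10 * M := by
      have : ((m0 + n : ℕ) : ℝ) ≤ m1 := by exact_mod_cast (show m0 + n ≤ m1 by omega)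
      linarith
    have hxpos : (0 : ℝ) < ((m0 + n : ℕ) : ℝ) := by linarith
    have hb := fwdDiff_log 1 ((m0 + n : ℕ) : ℝ) hxpos
    simp only [Function.iterate_succ, Function.iterate_zero, Function.comp, id_eq, fwdDiff,
      pow_one, Nat.factorial_one, Nat.cast_one, one_mul] at hb
    norm_num at hb
    have heq : a (n + 2) - a (n + 1) - (a (n + 1) - a n)
        = |y| / (2 * Real.pi) * (-(Real.log (((m0 : ℝ) + n) + 1 + 1) - Real.log (((m0 : ℝ) + n) + 1)
          - (Real.log (((m0 : ℝ) + n) + 1) - Real.log ((m0 : ℝ) + n)))) := by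
      simp only [ha]
      push_cast
      rw [show (m0 : ℝ) + (n + 2) = (m0 : ℝ) + n + 1 + 1 by ring,
        show (m0 : ℝ) + (n + 1) = (m0 : ℝ) + n + 1 by ring]
      ring
    rw [heq]
    push_cast at hx1 hx2 hxpos
    constructor
    · have h1 : lam ≤ |y| / (2 * Real.pi) * (1 / (12 * M) ^ 2) := by
        rw [hlam, div_mul_div_comm, mul_one]
        apply div_le_div_of_nonneg_left hypos.le (by positivity)
        nlinarith [sq_nonneg M, mul_pos hMpos hMpos]
      refine h1.trans ?_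
      apply mul_le_mul_of_nonneg_left _ (by positivity)
      have h2 : 1 / (12 * M) ^ 2 ≤ (((m0 : ℝ) + n + 2) ^ 2)⁻¹ := by
        rw [← one_div]
        apply one_div_le_one_div_of_le (by positivity)
        apply pow_le_pow_left₀ (by positivity)
        linarith
      linarith [hb.1]
    · have h1 : |y| / (2 * Real.pi) * (1 / M ^ 2) ≤ 1152 * lam := by
        rw [hlam, div_mul_div_comm, mul_one]
        rw [show 1152 * (|y| / (1152 * M ^ 2)) = |y| / M ^ 2 by field_simp]
        apply div_le_div_of_nonneg_left hypos.le (by positivity)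
        nlinarith [sq_nonneg M, mul_pos hMpos hMpos]
      refine le_trans ?_ h1
      apply mul_le_mul_of_nonneg_left _ (by positivity)
      have h2 : (((m0 : ℝ) + n) ^ 2)⁻¹ ≤ 1 / M ^ 2 := by
        rw [← one_div]
        apply one_div_le_one_div_of_le (by positivity)
        exact pow_le_pow_left₀ (by positivity) hx1 _
      linarith [hb.2])
  refine hsd.trans ?_
  have hs : Real.sqrt lam = Real.sqrt |y| / (Real.sqrt 1152 * M) := by
    rw [hlam, Real.sqrt_div hypos.le, Real.sqrt_mul (by norm_num), Real.sqrt_sq hMpos.le]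
  set r := Real.sqrt |y| with hr
  have hrpos : 0 < r := Real.sqrt_pos.2 hypos
  have hrr : r * r = |y| := Real.mul_self_sqrt hypos.le
  have hs34 : Real.sqrt 1152 ≤ 34 := by
    rw [Real.sqrt_le_left (by norm_num)]; norm_num
  have hs0 : 0 < Real.sqrt 1152 := by positivity
  have hrM : r ≤ M := by
    rw [hr]; exact Real.sqrt_le_iff.2 ⟨hMpos.le, hsmall.le⟩
  have hlen : ((m1 - m0 : ℕ) : ℝ) ≤ 10 * M := by
    refine le_trans ?_ hm1
    exact_mod_cast Nat.sub_le _ _
  have h1 : 1152 * lam * ((m1 - m0 : ℕ) : ℝ) + 2 ≤ 12 * |y| / M := by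
    have e1 : 1152 * lam = |y| / M ^ 2 := by rw [hlam]; field_simp
    rw [e1]
    have e2 : |y| / M ^ 2 * ((m1 - m0 : ℕ) : ℝ) ≤ |y| / M ^ 2 * (10 * M) :=
      mul_le_mul_of_nonneg_left hlen (by positivity)
    have e3 : |y| / M ^ 2 * (10 * M) = 10 * |y| / M := by field_simp
    have e4 : 2 ≤ 2 * |y| / M := by rw [le_div_iff₀ hMpos]; linarith
    have e5 : 12 * |y| / M = 10 * |y| / M + 2 * |y| / M := by ring
    linarith
  have h2 : 5 / Real.sqrt lam + 1 ≤ 171 * M / r := by
    rw [hs]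
    have e1 : 5 / (r / (Real.sqrt 1152 * M)) = 5 * Real.sqrt 1152 * M / r := by field_simp
    rw [e1]
    have e2 : 5 * Real.sqrt 1152 * M / r ≤ 170 * M / r := by
      apply div_le_div_of_nonneg_right _ hrpos.le
      nlinarith
    have e3 : 1 ≤ M / r := by rw [le_div_iff₀ hrpos]; linarith
    have e4 : 171 * M / r = 170 * M / r + M / r := by ring
    linarith
  calc (1152 * lam * ((m1 - m0 : ℕ) : ℝ) + 2) * (5 / Real.sqrt lam + 1)
      ≤ (12 * |y| / M) * (171 * M / r) := mul_le_mul h1 h2 (by positivity) (by positivity)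
    _ = 2052 * r := by rw [← hrr]; field_simp; norm_num
    _ ≤ 100000 * r := by nlinarith

/-- uniform bound -/
theorem sum_e_log_lossy : ∃ C : ℝ, 0 < C ∧ ∀ M : ℝ, 1 ≤ M → ∀ y : ℝ, y ≠ 0 → ∀ m0 m1 : ℕ,
    M ≤ m0 → (m1 : ℝ) ≤ 10 * M →
    ‖∑ m ∈ Ico m0 m1, e (y * Real.log m / (2 * Real.pi))‖ ≤ C * (M / |y| + Real.sqrt |y|) := by
  obtain ⟨C, hC, h⟩ := sum_e_log_two
  refine ⟨C + 160, by positivity, ?_⟩
  intro M hM y hy m0 m1 hm0 hm1
  have hypos : 0 < |y| := abs_pos.2 hy
  have h1 : 0 ≤ M / |y| := by positivity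
  have h2 := Real.sqrt_nonneg |y|
  rcases le_total |y| M with hle | hle
  · refine (sum_e_log_kl M hM y hy hle m0 m1 hm0 hm1).trans ?_
    rw [mul_div_assoc]
    nlinarith
  · refine (h M hM y hle m0 m1 hm0 hm1).trans ?_
    nlinarith

/-- partial summation with an antitone weight -/
theorem norm_sum_antitone_le (w : ℕ → ℝ) (z : ℕ → ℂ) (D : ℝ) (n : ℕ) (hD0 : 0 ≤ D)
    (hw0 : ∀ i < n, 0 ≤ w i) (hw : ∀ i, i + 1 < n → w (i + 1) ≤ w i)
    (hD : ∀ j ≤ n, ‖∑ i ∈ range j, z i‖ ≤ D) (W : ℝ) (hW0 : 0 ≤ W) (hW : ∀ i < n, w i ≤ W) :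
    ‖∑ i ∈ range n, (w i : ℂ) * z i‖ ≤ W * D := by
  rcases Nat.eq_zero_or_pos n with rfl | hn
  · simp; positivity
  obtain ⟨k, rfl⟩ : ∃ k, n = k + 1 := ⟨n - 1, by omega⟩
  have key : ∀ k : ℕ, ∑ i ∈ range (k + 1), (w i : ℂ) * z i
      = (w k : ℂ) * (∑ i ∈ range (k + 1), z i)
        + ∑ i ∈ range k, ((w i - w (i + 1) : ℝ) : ℂ) * ∑ j ∈ range (i + 1), z j := by
    intro k
    induction k with
    | zero => simp
    | succ k ih =>
      rw [sum_range_succ, ih, sum_range_succ (fun i => ((w i - w (i + 1) : ℝ) : ℂ) * _) k,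
        sum_range_succ z (k + 1)]
      push_cast; ring
  rw [key k]
  have hsum : ∀ m ≤ k, ‖∑ i ∈ range m, ((w i - w (i + 1) : ℝ) : ℂ) * ∑ j ∈ range (i + 1), z j‖
      ≤ (w 0 - w m) * D := by
    intro m hm
    induction m with
    | zero => simp
    | succ m ih =>
      rw [sum_range_succ]
      refine (norm_add_le _ _).trans ?_
      have h1 := ih (by omega)
      rw [norm_mul, Complex.norm_real, Real.norm_of_nonneg (by linarith [hw m (by omega)])]
      have h2 := mul_le_mul_of_nonneg_left (hD (m + 1) (by omega))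
        (show 0 ≤ w m - w (m + 1) by linarith [hw m (by omega)])
      linarith
  refine (norm_add_le _ _).trans ?_
  have h1 := hsum k le_rfl
  rw [norm_mul, Complex.norm_real, Real.norm_of_nonneg (hw0 k (by omega))]
  have h2 := mul_le_mul_of_nonneg_left (hD (k + 1) le_rfl) (hw0 k (by omega))
  have h3 := mul_le_mul_of_nonneg_right (hW 0 (by omega)) hD0
  linarith

theorem norm_sum_antitone_Ico_le (w : ℕ → ℝ) (z : ℕ → ℂ) (D : ℝ) (a b : ℕ) (hab : a ≤ b) (hD0 : 0 ≤ D)
    (hw0 : ∀ i ∈ Ico a b, 0 ≤ w i) (hw : ∀ i, a ≤ i → i + 1 < b → w (i + 1) ≤ w i)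
    (hD : ∀ c d, a ≤ c → d ≤ b → ‖∑ i ∈ Ico c d, z i‖ ≤ D) (W : ℝ) (hW0 : 0 ≤ W)
    (hW : ∀ i ∈ Ico a b, w i ≤ W) :
    ‖∑ i ∈ Ico a b, (w i : ℂ) * z i‖ ≤ W * D := by
  rw [Finset.sum_Ico_eq_sum_range]
  apply norm_sum_antitone_le (fun i => w (a + i)) (fun i => z (a + i)) D (b - a) hD0
  · intro i hi; exact hw0 _ (by rw [mem_Ico]; omega)
  · intro i hi; exact hw (a + i) (by omega) (by omega)
  · intro j hj
    have := hD a (a + j) le_rfl (by omega)
    rw [Finset.sum_Ico_eq_sum_range, show a + j - a = j by omega] at this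
    exact this
  · exact hW0
  · intro i hi; exact hW _ (by rw [mem_Ico]; omega)

theorem norm_sum_monotone_Ico_le (w : ℕ → ℝ) (z : ℕ → ℂ) (D : ℝ) (a b : ℕ) (hab : a ≤ b) (hD0 : 0 ≤ D)
    (hw0 : ∀ i ∈ Ico a b, 0 ≤ w i) (hw : ∀ i, a ≤ i → i + 1 < b → w i ≤ w (i + 1))
    (hD : ∀ c d, a ≤ c → d ≤ b → ‖∑ i ∈ Ico c d, z i‖ ≤ D) (W : ℝ) (hW0 : 0 ≤ W)
    (hW : ∀ i ∈ Ico a b, w i ≤ W) :
    ‖∑ i ∈ Ico a b, (w i : ℂ) * z i‖ ≤ W * D := by
  rw [Finset.sum_Ico_eq_sum_range, ← Finset.sum_range_reflect]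
  apply norm_sum_antitone_le (fun i => w (a + (b - a - 1 - i))) (fun i => z (a + (b - a - 1 - i)))
    D (b - a) hD0
  · intro i hi; exact hw0 _ (by rw [mem_Ico]; omega)
  · intro i hi
    have := hw (a + (b - a - 1 - (i + 1))) (by omega) (by omega)
    rwa [show a + (b - a - 1 - (i + 1)) + 1 = a + (b - a - 1 - i) by omega] at this
  · intro j hj
    have := hD (b - j) b (by omega) le_rfl
    rw [Finset.sum_Ico_eq_sum_range, show b - (b - j) = j by omega,
      ← Finset.sum_range_reflect] at this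
    refine le_trans (le_of_eq ?_) this
    congr 1
    apply sum_congr rfl
    intro i hi
    rw [mem_range] at hi
    congr 1; omega
  · exact hW0
  · intro i hi; exact hW _ (by rw [mem_Ico]; omega)

end Pool.MR
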