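import Pool.Agent.Helper58.MR.L1

/-! The lossless inequality over primes (L2). -/

namespace Pool.MR

open Finset Pool.Agent.Helper2.MR

/-- the kernel over multiples of `D` -/
theorem ker_dvd (R y : ℝ) (hR : 0 < R) (D : ℕ) (hD : 1 ≤ D) :
    ∑ n ∈ (Icc 1 ⌊3 * R⌋₊).filter (fun n => D ∣ n),
      ((tent (Real.log n - Real.log R) : ℝ) : ℂ) * e (y * Real.log n / (2 * Real.pi))
      = e (y * Real.log D / (2 * Real.pi)) * Ker (R / D) y := by
  have hD0 : (0 : ℝ) < D := by exact_mod_cast hD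
  unfold Ker
  rw [mul_sum]
  symm
  apply Finset.sum_bij (fun m _ => D * m)
  · intro m hm
    rw [mem_Icc] at hm
    rw [mem_filter, mem_Icc]
    refine ⟨⟨Nat.mul_pos (by omega) (by omega), ?_⟩, dvd_mul_right _ _⟩
    apply Nat.le_floor
    have h1 : (m : ℝ) ≤ 3 * (R / D) := (Nat.le_floor_iff (by positivity)).1 hm.2
    push_cast
    calc (D : ℝ) * m ≤ D * (3 * (R / D)) := mul_le_mul_of_nonneg_left h1 hD0.le
      _ = 3 * R := by field_simp
  · intro a _ b _ hab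
    exact Nat.eq_of_mul_eq_mul_left (by omega) hab
  · intro n hn
    rw [mem_filter, mem_Icc] at hn
    obtain ⟨⟨h1, h2⟩, ⟨m, rfl⟩⟩ := hn
    refine ⟨m, ?_, rfl⟩
    rw [mem_Icc]
    constructor
    · rcases Nat.eq_zero_or_pos m with rfl | h
      · simp at h1
      · exact h
    · apply Nat.le_floor
      have h3 : ((D * m : ℕ) : ℝ) ≤ 3 * R := (Nat.le_floor_iff (by positivity)).1 h2
      push_cast at h3
      rw [mul_div_assoc', le_div_iff₀ hD0]
      linarith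
  · intro m hm
    rw [mem_Icc] at hm
    have hm0 : (0 : ℝ) < m := by exact_mod_cast hm.1
    push_cast
    rw [Real.log_mul hD0.ne' hm0.ne', Real.log_div hR.ne' hD0.ne']
    have e1 : Real.log m - (Real.log R - Real.log D) = Real.log D + Real.log m - Real.log R := by ring
    have e2 : y * (Real.log D + Real.log m) / (2 * Real.pi)
        = y * Real.log D / (2 * Real.pi) + y * Real.log m / (2 * Real.pi) := by ring
    rw [e1, e2, e_add]
    ring

/-- square of the divisor sum of the weights -/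
noncomputable def thet (lam : ℕ → ℝ) (N n : ℕ) : ℝ :=
  (∑ d ∈ (Icc 1 N).filter (fun d => d ∣ n), lam d) ^ 2

noncomputable def KerT (lam : ℕ → ℝ) (N : ℕ) (R y : ℝ) : ℂ :=
  ∑ n ∈ Icc 1 ⌊3 * R⌋₊, ((tent (Real.log n - Real.log R) * thet lam N n : ℝ) : ℂ)
    * e (y * Real.log n / (2 * Real.pi))

theorem thet_eq (lam : ℕ → ℝ) (N n : ℕ) :
    thet lam N n = ∑ d1 ∈ Icc 1 N, ∑ d2 ∈ Icc 1 N,
      if Nat.lcm d1 d2 ∣ n then lam d1 * lam d2 else 0 := by
  unfold thet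
  rw [pow_two, sum_filter, sum_mul_sum]
  apply sum_congr rfl; intro d1 _
  apply sum_congr rfl; intro d2 _
  by_cases h1 : d1 ∣ n <;> by_cases h2 : d2 ∣ n
  · rw [if_pos h1, if_pos h2, if_pos (Nat.lcm_dvd h1 h2)]
  · rw [if_pos h1, if_neg h2, if_neg (fun h => h2 ((Nat.dvd_lcm_right d1 d2).trans h))]; ring
  · rw [if_neg h1, if_pos h2, if_neg (fun h => h1 ((Nat.dvd_lcm_left d1 d2).trans h))]; ring
  · rw [if_neg h1, if_neg h2, if_neg (fun h => h1 ((Nat.dvd_lcm_left d1 d2).trans h))]; ring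

theorem kerT_eq (lam : ℕ → ℝ) (N : ℕ) (R y : ℝ) (hR : 0 < R) :
    KerT lam N R y = ∑ d1 ∈ Icc 1 N, ∑ d2 ∈ Icc 1 N, ((lam d1 * lam d2 : ℝ) : ℂ) *
      (e (y * Real.log (Nat.lcm d1 d2) / (2 * Real.pi)) * Ker (R / (Nat.lcm d1 d2 : ℕ)) y) := by
  unfold KerT
  have h1 : ∀ n ∈ Icc 1 ⌊3 * R⌋₊, ((tent (Real.log n - Real.log R) * thet lam N n : ℝ) : ℂ)
      * e (y * Real.log n / (2 * Real.pi))
      = ∑ d1 ∈ Icc 1 N, ∑ d2 ∈ Icc 1 N, ((lam d1 * lam d2 : ℝ) : ℂ) *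
        (if Nat.lcm d1 d2 ∣ n then ((tent (Real.log n - Real.log R) : ℝ) : ℂ)
          * e (y * Real.log n / (2 * Real.pi)) else 0) := by
    intro n _
    rw [thet_eq]
    push_cast
    rw [mul_sum, sum_mul]
    apply sum_congr rfl; intro d1 _
    rw [mul_sum, sum_mul]
    apply sum_congr rfl; intro d2 _
    split_ifs
    · push_cast; ring
    · simp
  rw [sum_congr rfl h1, sum_comm]
  apply sum_congr rfl; intro d1 hd1
  rw [sum_comm]
  apply sum_congr rfl; intro d2 hd2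
  rw [mem_Icc] at hd1 hd2
  rw [← mul_sum, ← sum_filter, ker_dvd R y hR _ (Nat.lcm_pos (by omega) (by omega))]

theorem EE_div (y R : ℝ) (hR : 0 < R) (D : ℕ) (hD : 1 ≤ D) :
    e (y * Real.log D / (2 * Real.pi)) * EE (1 + y * Complex.I) (R / D)
      = EE (1 + y * Complex.I) R / D := by
  have hD0 : (0 : ℝ) < D := by exact_mod_cast hD
  rw [EE_eq y (R / D) (by positivity), EE_eq y R hR, Real.log_div hR.ne' hD0.ne']
  have e2 : y * Real.log R / (2 * Real.pi)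
      = y * Real.log D / (2 * Real.pi) + y * (Real.log R - Real.log D) / (2 * Real.pi) := by ring
  rw [e2, e_add]
  push_cast
  ring

theorem kerT_approx (k : ℕ) (ρ C : ℝ) (hρ : ρ ≤ 1 / 2) (hC : 0 < C)
    (h : ∀ R : ℝ, 1 ≤ R → ∀ y : ℝ, |y| ≤ R ^ k →
      ‖Ker R y - EE (1 + y * Complex.I) R * cy y‖ ≤ C * R ^ (1 - ρ))
    (lam : ℕ → ℝ) (z : ℝ) (hz : 1 ≤ z) (hlam : ∀ d, |lam d| ≤ z) (R y : ℝ) (hR : 1 ≤ R)
    (hzR : z ^ 2 ≤ R) (hy : |y| ≤ (R / z ^ 2) ^ k) :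
    ‖KerT lam ⌊z⌋₊ R y - EE (1 + y * Complex.I) R * cy y *
      ((∑ d1 ∈ Icc 1 ⌊z⌋₊, ∑ d2 ∈ Icc 1 ⌊z⌋₊, lam d1 * lam d2 / (Nat.lcm d1 d2 : ℝ) : ℝ) : ℂ)‖
      ≤ C * z ^ 4 * R ^ (1 - ρ) := by
  have hRpos : 0 < R := by linarith
  have hz0 : 0 ≤ z := by linarith
  set N := ⌊z⌋₊ with hN
  have hNz : (N : ℝ) ≤ z := Nat.floor_le hz0
  have h1 : KerT lam N R y - EE (1 + y * Complex.I) R * cy y *
      ((∑ d1 ∈ Icc 1 N, ∑ d2 ∈ Icc 1 N, lam d1 * lam d2 / (Nat.lcm d1 d2 : ℝ) : ℝ) : ℂ)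
      = ∑ d1 ∈ Icc 1 N, ∑ d2 ∈ Icc 1 N, ((lam d1 * lam d2 : ℝ) : ℂ) *
        (e (y * Real.log (Nat.lcm d1 d2) / (2 * Real.pi)) *
          (Ker (R / (Nat.lcm d1 d2 : ℕ)) y
            - EE (1 + y * Complex.I) (R / (Nat.lcm d1 d2 : ℕ)) * cy y)) := by
    rw [kerT_eq lam N R y hRpos]
    push_cast
    rw [mul_sum, ← sum_sub_distrib]
    apply sum_congr rfl; intro d1 hd1
    rw [mul_sum, ← sum_sub_distrib]
    apply sum_congr rfl; intro d2 hd2
    rw [mem_Icc] at hd1 hd2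
    have h2 := EE_div y R hRpos (Nat.lcm d1 d2) (Nat.lcm_pos (by omega) (by omega))
    have h3 : EE (1 + y * Complex.I) R * cy y * ((lam d1 : ℂ) * (lam d2 : ℂ) / ((Nat.lcm d1 d2 : ℕ) : ℂ))
        = (lam d1 : ℂ) * (lam d2 : ℂ) * cy y * (EE (1 + y * Complex.I) R / ((Nat.lcm d1 d2 : ℕ) : ℂ)) := by
      ring
    rw [h3, ← h2]
    ring
  rw [h1]
  have hterm : ∀ d1 ∈ Icc 1 N, ∀ d2 ∈ Icc 1 N, ‖((lam d1 * lam d2 : ℝ) : ℂ) *
        (e (y * Real.log (Nat.lcm d1 d2) / (2 * Real.pi)) *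
          (Ker (R / (Nat.lcm d1 d2 : ℕ)) y
            - EE (1 + y * Complex.I) (R / (Nat.lcm d1 d2 : ℕ)) * cy y))‖
        ≤ z ^ 2 * (C * R ^ (1 - ρ)) := by
    intro d1 hd1 d2 hd2
    rw [mem_Icc] at hd1 hd2
    have hlcm1 : 1 ≤ Nat.lcm d1 d2 := Nat.lcm_pos (by omega) (by omega)
    have hl0 : (0 : ℝ) < (Nat.lcm d1 d2 : ℕ) := by exact_mod_cast hlcm1
    have hl1 : (1 : ℝ) ≤ (Nat.lcm d1 d2 : ℕ) := by exact_mod_cast hlcm1
    have hlz : ((Nat.lcm d1 d2 : ℕ) : ℝ) ≤ z ^ 2 := by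
      have a1 : Nat.lcm d1 d2 ≤ d1 * d2 := Nat.le_of_dvd (Nat.mul_pos (by omega) (by omega))
        (Nat.lcm_dvd_mul d1 d2)
      have a2 : (d1 : ℝ) ≤ z := le_trans (by exact_mod_cast hd1.2) hNz
      have a3 : (d2 : ℝ) ≤ z := le_trans (by exact_mod_cast hd2.2) hNz
      calc ((Nat.lcm d1 d2 : ℕ) : ℝ) ≤ (d1 : ℝ) * d2 := by exact_mod_cast a1
        _ ≤ z * z := mul_le_mul a2 a3 (by positivity) hz0
        _ = z ^ 2 := by ring
    have hRD : 1 ≤ R / (Nat.lcm d1 d2 : ℕ) := by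
      rw [le_div_iff₀ hl0]; linarith
    have hz2 : R / z ^ 2 ≤ R / (Nat.lcm d1 d2 : ℕ) := div_le_div_of_nonneg_left hRpos.le hl0 hlz
    have hyy : |y| ≤ (R / (Nat.lcm d1 d2 : ℕ)) ^ k :=
      hy.trans (pow_le_pow_left₀ (by positivity) hz2 k)
    have hk := h _ hRD y hyy
    rw [norm_mul, norm_mul, norm_e, one_mul, Complex.norm_real, Real.norm_eq_abs, abs_mul]
    apply mul_le_mul
    · calc |lam d1| * |lam d2| ≤ z * z := mul_le_mul (hlam _) (hlam _) (abs_nonneg _) hz0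
        _ = z ^ 2 := by ring
    · refine hk.trans ?_
      apply mul_le_mul_of_nonneg_left _ hC.le
      apply Real.rpow_le_rpow (by positivity) _ (by linarith)
      exact div_le_self hRpos.le hl1
    · exact norm_nonneg _
    · positivity
  calc _ ≤ ∑ d1 ∈ Icc 1 N, ‖∑ d2 ∈ Icc 1 N, ((lam d1 * lam d2 : ℝ) : ℂ) *
        (e (y * Real.log (Nat.lcm d1 d2) / (2 * Real.pi)) *
          (Ker (R / (Nat.lcm d1 d2 : ℕ)) y
            - EE (1 + y * Complex.I) (R / (Nat.lcm d1 d2 : ℕ)) * cy y))‖ := norm_sum_le _ _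
    _ ≤ ∑ d1 ∈ Icc 1 N, ∑ _d2 ∈ Icc 1 N, z ^ 2 * (C * R ^ (1 - ρ)) := by
        apply sum_le_sum; intro d1 hd1
        exact (norm_sum_le _ _).trans (sum_le_sum fun d2 hd2 => hterm d1 hd1 d2 hd2)
    _ = (N : ℝ) * (N * (z ^ 2 * (C * R ^ (1 - ρ)))) := by
        simp [sum_const]
    _ ≤ z * (z * (z ^ 2 * (C * R ^ (1 - ρ)))) := by
        apply mul_le_mul hNz _ (by positivity) hz0
        exact mul_le_mul_of_nonneg_right hNz (by positivity)
    _ = C * z ^ 4 * R ^ (1 - ρ) := by ring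

theorem thet_prime (lam : ℕ → ℝ) (h1 : lam 1 = 1) (N p : ℕ) (hN : 1 ≤ N) (hp : p.Prime) (hNp : N < p) :
    thet lam N p = 1 := by
  unfold thet
  have : (Icc 1 N).filter (fun d => d ∣ p) = {1} := by
    ext d
    rw [mem_filter, mem_Icc, mem_singleton]
    constructor
    · rintro ⟨⟨_, h2⟩, h3⟩
      rcases (Nat.dvd_prime hp).1 h3 with h | h
      · exact h
      · omega
    · rintro rfl
      exact ⟨⟨le_rfl, hN⟩, one_dvd _⟩
  rw [this, sum_singleton, h1]; norm_num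

theorem stL2 : StL2 := by
  intro k
  obtain ⟨ρ, h1, h2, C, hC, h⟩ := ker_approx (2 * (k + 1))
  refine ⟨3840 / ρ + 8 * C, ρ / 2, by positivity, by positivity, ?_⟩
  intro M 𝒯 a hM hTM hsep
  have hMpos : 0 < M := by linarith
  have hM1 : 1 ≤ M := by linarith
  have hlogM : 0 < Real.log M := Real.log_pos (by linarith)
  set R := 2 * M with hR
  have hR4 : 4 ≤ R := by rw [hR]; linarith
  have hR1 : 1 ≤ R := by linarith
  have hRpos : 0 < R := by linarith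
  have hlogR : 0 < Real.log R := Real.log_pos (by linarith)
  have hlogMR : Real.log M ≤ Real.log R := Real.log_le_log hMpos (by rw [hR]; linarith)
  set z := R ^ (ρ / 8) with hz
  have hz1 : 1 < z := Real.one_lt_rpow (by linarith) (by positivity)
  have hzpos : 0 < z := by linarith
  obtain ⟨lam, hl1, hl2, hl3, hq0, hq1⟩ := selberg z hz1
  set Q := ∑ d1 ∈ Icc 1 ⌊z⌋₊, ∑ d2 ∈ Icc 1 ⌊z⌋₊, lam d1 * lam d2 / (Nat.lcm d1 d2 : ℝ) with hQ
  have hlogz : Real.log z = ρ / 8 * Real.log R := by rw [hz, Real.log_rpow hRpos]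
  have hQle : Q ≤ 16 / (ρ * Real.log R) := by
    refine hq1.trans (le_of_eq ?_)
    rw [hlogz]; field_simp; norm_num
  have hz2 : z ^ 2 ≤ R ^ (1 / 2 : ℝ) := by
    rw [hz, ← Real.rpow_natCast, ← Real.rpow_mul hRpos.le]
    apply Real.rpow_le_rpow_of_exponent_le hR1
    push_cast; linarith
  have hz4 : z ^ 4 * R ^ (1 - ρ) = R ^ (1 - ρ / 2) := by
    rw [hz, ← Real.rpow_natCast, ← Real.rpow_mul hRpos.le, ← Real.rpow_add hRpos]
    congr 1; push_cast; ring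
  have hRhalf : R ^ (1 / 2 : ℝ) ≤ R := by
    calc R ^ (1 / 2 : ℝ) ≤ R ^ (1 : ℝ) := Real.rpow_le_rpow_of_exponent_le hR1 (by norm_num)
      _ = R := Real.rpow_one _
  have hzR : z ^ 2 ≤ R := hz2.trans hRhalf
  have hRz : R ^ (1 / 2 : ℝ) ≤ R / z ^ 2 := by
    rw [le_div_iff₀ (by positivity)]
    calc R ^ (1 / 2 : ℝ) * z ^ 2 ≤ R ^ (1 / 2 : ℝ) * R ^ (1 / 2 : ℝ) :=
          mul_le_mul_of_nonneg_left hz2 (by positivity)
      _ = R := by rw [← Real.rpow_add hRpos]; norm_num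
  have hzM : z ≤ M := by
    have e1 : z ≤ R ^ (1 / 2 : ℝ) := by
      rw [hz]; apply Real.rpow_le_rpow_of_exponent_le hR1; linarith
    refine e1.trans ?_
    rw [← Real.sqrt_eq_rpow]
    apply Real.sqrt_le_iff.2
    refine ⟨hMpos.le, ?_⟩
    rw [hR]; nlinarith
  have hN1 : 1 ≤ ⌊z⌋₊ := Nat.le_floor (by push_cast; exact hz1.le)
  apply duality 𝒯 ((blk M).filter Nat.Prime) (Icc 1 ⌊3 * R⌋₊)
    ((filter_subset _ _).trans (blk_subset M hM1))
    (fun n => 4 * (tent (Real.log n - Real.log R) * thet lam ⌊z⌋₊ n)) (fun n _ => by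
      have := tent_nonneg (Real.log n - Real.log R)
      have h3 : 0 ≤ thet lam ⌊z⌋₊ n := by unfold thet; positivity
      positivity) (fun n hn => by
      rw [mem_filter] at hn
      have hnM : z < n := by
        have hn1 := hn.1
        unfold blk at hn1
        rw [mem_Ioc] at hn1
        have : M < n := (Nat.floor_lt hMpos.le).1 hn1.1
        linarith
      have hNn : ⌊z⌋₊ < n := (Nat.floor_lt hzpos.le).2 hnM
      rw [thet_prime lam hl1 _ n hN1 hn.2 hNn, mul_one]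
      exact tent_quarter M hM1 n hn.1)
    (fun t n => ch t n)
    ((3840 / ρ + 8 * C) * (M / Real.log M + 𝒯.card * M ^ (1 - ρ / 2))) (by positivity)
  intro t ht
  have hkk : ∀ t' ∈ 𝒯, ‖∑ n ∈ Icc 1 ⌊3 * R⌋₊,
      ((4 * (tent (Real.log n - Real.log R) * thet lam ⌊z⌋₊ n) : ℝ) : ℂ)
      * (ch t n * (starRingEnd ℂ) (ch t' n))‖ = ‖(fun y : ℝ => 4 * KerT lam ⌊z⌋₊ R (-y)) (t - t')‖ := by
    intro t' _
    congr 1
    simp only
    unfold KerT
    rw [mul_sum]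
    apply sum_congr rfl; intro n _
    rw [ch_mul_conj, ch_eq_e]
    push_cast; ring
  rw [sum_congr rfl hkk]
  have hY : ∀ t ∈ 𝒯, ∀ t' ∈ 𝒯, |t - t'| ≤ 2 * M ^ k := by
    intro t ht t' ht'
    have := abs_sub t t'
    linarith [hTM t ht, hTM t' ht']
  have hsum := sum_kernel_le 𝒯 hsep (fun y : ℝ => 4 * KerT lam ⌊z⌋₊ R (-y)) (24 * R * Q)
    (4 * (C * R ^ (1 - ρ / 2)))
    (2 * M ^ k) (by positivity) (by positivity) hY (by
      intro y hy
      have hyR : |-y| ≤ (R / z ^ 2) ^ (2 * (k + 1)) := by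
        rw [abs_neg]
        refine hy.trans ?_
        have e3 : R ^ (k + 1) ≤ (R / z ^ 2) ^ (2 * (k + 1)) := by
          calc R ^ (k + 1) = ((R ^ (1 / 2 : ℝ)) ^ 2) ^ (k + 1) := by
                congr 1; rw [← Real.rpow_natCast, ← Real.rpow_mul hRpos.le]; norm_num
            _ = (R ^ (1 / 2 : ℝ)) ^ (2 * (k + 1)) := by rw [pow_mul]
            _ ≤ _ := pow_le_pow_left₀ (by positivity) hRz _
        refine le_trans ?_ e3
        rw [hR, mul_pow, pow_succ, pow_succ]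
        have e1 : (1 : ℝ) ≤ 2 ^ k := one_le_pow₀ (by norm_num)
        have e2 : (0 : ℝ) < M ^ k := by positivity
        calc 2 * M ^ k = 1 * 2 * (M ^ k * 1) := by ring
          _ ≤ 2 ^ k * 2 * (M ^ k * M) := by
              apply mul_le_mul _ _ (by positivity) (by positivity)
              · linarith
              · exact mul_le_mul_of_nonneg_left hM1 e2.le
      have hk := kerT_approx (2 * (k + 1)) ρ C h2 hC h lam z hz1.le hl2 R (-y) hR1 hzR hyR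
      rw [mul_assoc C, hz4] at hk
      have hm : ‖EE (1 + ((-y : ℝ) : ℂ) * Complex.I) R * cy (-y) * ((Q : ℝ) : ℂ)‖
          ≤ R * (6 / (1 + y ^ 2)) * Q := by
        rw [norm_mul, norm_mul, norm_EE (-y) R hRpos, Complex.norm_real, Real.norm_of_nonneg hq0]
        have := norm_cy (-y)
        rw [neg_sq] at this
        apply mul_le_mul_of_nonneg_right _ hq0
        exact mul_le_mul_of_nonneg_left this hRpos.le
      have h3 : ‖KerT lam ⌊z⌋₊ R (-y)‖ ≤ R * (6 / (1 + y ^ 2)) * Q + C * R ^ (1 - ρ / 2) := by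
        have := norm_sub_norm_le (KerT lam ⌊z⌋₊ R (-y))
          (EE (1 + ((-y : ℝ) : ℂ) * Complex.I) R * cy (-y) * ((Q : ℝ) : ℂ))
        linarith
      simp only [norm_mul]
      have h4 : ‖(4 : ℂ)‖ = 4 := by simp
      rw [h4]
      have h5 : 24 * R * Q / (1 + y ^ 2) = 4 * (R * (6 / (1 + y ^ 2)) * Q) := by ring
      rw [h5]; linarith) t ht
  refine hsum.trans ?_
  have q1 : R ^ (1 - ρ / 2) ≤ 2 * M ^ (1 - ρ / 2) := by
    rw [hR, Real.mul_rpow (by norm_num) hMpos.le]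
    apply mul_le_mul_of_nonneg_right _ (by positivity)
    calc (2 : ℝ) ^ (1 - ρ / 2) ≤ 2 ^ (1 : ℝ) :=
          Real.rpow_le_rpow_of_exponent_le (by norm_num) (by linarith)
      _ = 2 := Real.rpow_one _
  have q2 : (𝒯.card : ℝ) * (4 * (C * R ^ (1 - ρ / 2))) ≤ 8 * C * (𝒯.card * M ^ (1 - ρ / 2)) := by
    have : 4 * (C * R ^ (1 - ρ / 2)) ≤ 8 * C * M ^ (1 - ρ / 2) := by
      have := mul_le_mul_of_nonneg_left q1 hC.le
      linarith
    calc (𝒯.card : ℝ) * (4 * (C * R ^ (1 - ρ / 2))) ≤ 𝒯.card * (8 * C * M ^ (1 - ρ / 2)) :=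
          mul_le_mul_of_nonneg_left this (by positivity)
      _ = _ := by ring
  have q3 : 5 * (24 * R * Q) ≤ 3840 / ρ * (M / Real.log M) := by
    have e1 : 5 * (24 * R * Q) ≤ 5 * (24 * R * (16 / (ρ * Real.log R))) := by
      have := mul_le_mul_of_nonneg_left hQle (show 0 ≤ 120 * R by positivity)
      linarith
    have e2 : 5 * (24 * R * (16 / (ρ * Real.log R))) = 3840 / ρ * (M / Real.log R) := by
      rw [hR]; field_simp; norm_num
    have e3 : M / Real.log R ≤ M / Real.log M := div_le_div_of_nonneg_left hMpos.le hlogM hlogMR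
    have e4 := mul_le_mul_of_nonneg_left e3 (show 0 ≤ 3840 / ρ by positivity)
    linarith
  have q4 : 0 ≤ (𝒯.card : ℝ) * M ^ (1 - ρ / 2) := by positivity
  have q5 : 0 ≤ C * (M / Real.log M) := by positivity
  have q6 : 0 ≤ 3840 / ρ * ((𝒯.card : ℝ) * M ^ (1 - ρ / 2)) := by positivity
  nlinarith

end Pool.MR
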