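import Pool.Agent.Helper58.MR.SS

/-! Duality with a majorant; sums over separated points; the inequality (L1prime). -/

namespace Pool.MR

open Finset Pool.Agent.Helper2.MR

theorem duality {ι : Type*} (T : Finset ι) (S S' : Finset ℕ) (hS : S ⊆ S') (w : ℕ → ℝ)
    (hw0 : ∀ n ∈ S', 0 ≤ w n) (hw1 : ∀ n ∈ S, 1 ≤ w n) (c : ι → ℕ → ℂ) (B : ℝ)
    (hB0 : 0 ≤ B) (hB : ∀ t ∈ T, ∑ t' ∈ T, ‖∑ n ∈ S', (w n : ℂ) * (c t n * (starRingEnd ℂ) (c t' n))‖ ≤ B)
    (a : ℕ → ℂ) :
    ∑ t ∈ T, ‖∑ n ∈ S, a n * c t n‖ ^ 2 ≤ B * ∑ n ∈ S, ‖a n‖ ^ 2 := by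
  set A : ι → ℂ := fun t => ∑ n ∈ S, a n * c t n with hA
  set X : ℝ := ∑ t ∈ T, ‖A t‖ ^ 2 with hX
  have hX0 : 0 ≤ X := sum_nonneg fun _ _ => by positivity
  set b : ℕ → ℂ := fun n => ∑ t ∈ T, (starRingEnd ℂ) (A t) * c t n with hb
  set Y : ℝ := ∑ n ∈ S, ‖b n‖ ^ 2 with hY
  set Z : ℝ := ∑ n ∈ S, ‖a n‖ ^ 2 with hZ
  have hZ0 : 0 ≤ Z := sum_nonneg fun _ _ => by positivity
  have hY0 : 0 ≤ Y := sum_nonneg fun _ _ => by positivity
  have h1 : (X : ℂ) = ∑ n ∈ S, a n * b n := by
    rw [hX]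
    push_cast
    have e1 : ∀ t ∈ T, (‖A t‖ : ℂ) ^ 2 = ∑ n ∈ S, (starRingEnd ℂ) (A t) * (a n * c t n) := by
      intro t _
      rw [← Complex.conj_mul', ← mul_sum]
    rw [sum_congr rfl e1, sum_comm]
    apply sum_congr rfl; intro n _
    rw [hb, mul_sum]
    apply sum_congr rfl; intro t _; ring
  have h2 : X ≤ Real.sqrt Z * Real.sqrt Y := by
    have : X = ‖∑ n ∈ S, a n * b n‖ := by
      rw [← h1, Complex.norm_real, Real.norm_of_nonneg hX0]
    rw [this]
    calc ‖∑ n ∈ S, a n * b n‖ ≤ ∑ n ∈ S, ‖a n‖ * ‖b n‖ := by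
          refine (norm_sum_le _ _).trans (le_of_eq ?_)
          apply sum_congr rfl; intro n _; rw [norm_mul]
      _ ≤ Real.sqrt Z * Real.sqrt Y := by
          exact Real.sum_mul_le_sqrt_mul_sqrt S (fun n => ‖a n‖) (fun n => ‖b n‖)
  have h3 : Y ≤ B * X := by
    have e1 : Y ≤ ∑ n ∈ S', w n * ‖b n‖ ^ 2 := by
      calc Y ≤ ∑ n ∈ S, w n * ‖b n‖ ^ 2 := by
            apply sum_le_sum; intro n hn
            have := hw1 n hn
            nlinarith [sq_nonneg ‖b n‖]
        _ ≤ ∑ n ∈ S', w n * ‖b n‖ ^ 2 := by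
            apply sum_le_sum_of_subset_of_nonneg hS
            intro n hn _
            have := hw0 n hn
            positivity
    have e2 : ((∑ n ∈ S', w n * ‖b n‖ ^ 2 : ℝ) : ℂ)
        = ∑ t ∈ T, ∑ t' ∈ T, ((starRingEnd ℂ) (A t) * A t') *
          ∑ n ∈ S', (w n : ℂ) * (c t n * (starRingEnd ℂ) (c t' n)) := by
      push_cast
      have e3 : ∀ n ∈ S', (w n : ℂ) * (‖b n‖ : ℂ) ^ 2
          = ∑ t ∈ T, ∑ t' ∈ T, ((starRingEnd ℂ) (A t) * A t') *
            ((w n : ℂ) * (c t n * (starRingEnd ℂ) (c t' n))) := by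
        intro n _
        rw [← Complex.mul_conj', hb, map_sum, sum_mul_sum, mul_sum]
        apply sum_congr rfl; intro t _
        rw [mul_sum]
        apply sum_congr rfl; intro t' _
        rw [map_mul, Complex.conj_conj]; ring
      rw [sum_congr rfl e3, sum_comm]
      apply sum_congr rfl; intro t _
      rw [sum_comm]
      apply sum_congr rfl; intro t' _
      exact (mul_sum _ _ _).symm
    have e4 : (∑ n ∈ S', w n * ‖b n‖ ^ 2 : ℝ)
        ≤ ∑ t ∈ T, ∑ t' ∈ T, (‖A t‖ * ‖A t'‖) *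
          ‖∑ n ∈ S', (w n : ℂ) * (c t n * (starRingEnd ℂ) (c t' n))‖ := by
      have hnn : 0 ≤ (∑ n ∈ S', w n * ‖b n‖ ^ 2 : ℝ) :=
        sum_nonneg fun n hn => mul_nonneg (hw0 n hn) (by positivity)
      calc (∑ n ∈ S', w n * ‖b n‖ ^ 2 : ℝ) = ‖((∑ n ∈ S', w n * ‖b n‖ ^ 2 : ℝ) : ℂ)‖ := by
            rw [Complex.norm_real, Real.norm_of_nonneg hnn]
        _ ≤ _ := by
            rw [e2]
            refine (norm_sum_le _ _).trans (sum_le_sum fun t _ => ?_)
            refine (norm_sum_le _ _).trans (sum_le_sum fun t' _ => ?_)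
            rw [norm_mul, norm_mul, Complex.norm_conj]
    set K : ι → ι → ℝ := fun t t' => ‖∑ n ∈ S', (w n : ℂ) * (c t n * (starRingEnd ℂ) (c t' n))‖
      with hK
    have hKsymm : ∀ t t', K t t' = K t' t := by
      intro t t'
      simp only [hK]
      rw [← Complex.norm_conj, map_sum]
      congr 1
      apply sum_congr rfl; intro n _
      rw [map_mul, map_mul, Complex.conj_conj, Complex.conj_ofReal]; ring
    have e5 : ∑ t ∈ T, ∑ t' ∈ T, (‖A t‖ * ‖A t'‖) * K t t'
        ≤ ∑ t ∈ T, ∑ t' ∈ T, (1 / 2 * (‖A t‖ ^ 2 * K t t') + 1 / 2 * (‖A t'‖ ^ 2 * K t t')) := by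
      apply sum_le_sum; intro t _
      apply sum_le_sum; intro t' _
      have hk : 0 ≤ K t t' := norm_nonneg _
      nlinarith [mul_nonneg (sq_nonneg (‖A t‖ - ‖A t'‖)) hk]
    have e6 : ∑ t ∈ T, ∑ t' ∈ T, (1 / 2 * (‖A t‖ ^ 2 * K t t') + 1 / 2 * (‖A t'‖ ^ 2 * K t t'))
        = ∑ t ∈ T, ‖A t‖ ^ 2 * ∑ t' ∈ T, K t t' := by
      have l1 : ∑ t ∈ T, ∑ t' ∈ T, (1 / 2 * (‖A t‖ ^ 2 * K t t'))
          = 1 / 2 * ∑ t ∈ T, ‖A t‖ ^ 2 * ∑ t' ∈ T, K t t' := by
        rw [mul_sum]
        apply sum_congr rfl; intro t _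
        rw [mul_sum, mul_sum]
      have l2 : ∑ t ∈ T, ∑ t' ∈ T, (1 / 2 * (‖A t'‖ ^ 2 * K t t'))
          = 1 / 2 * ∑ t ∈ T, ‖A t‖ ^ 2 * ∑ t' ∈ T, K t t' := by
        rw [sum_comm, mul_sum]
        apply sum_congr rfl; intro t _
        rw [mul_sum, mul_sum]
        apply sum_congr rfl; intro t' _
        rw [hKsymm t' t]
      simp only [sum_add_distrib]
      rw [l1, l2]; ring
    have e7 : ∑ t ∈ T, ‖A t‖ ^ 2 * ∑ t' ∈ T, K t t' ≤ B * X := by
      rw [hX, mul_sum]
      apply sum_le_sum; intro t ht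
      rw [mul_comm B]
      exact mul_le_mul_of_nonneg_left (hB t ht) (by positivity)
    linarith
  -- X ≤ sqrt Z sqrt (B X)
  have h4 : X ^ 2 ≤ Z * (B * X) := by
    calc X ^ 2 ≤ (Real.sqrt Z * Real.sqrt Y) ^ 2 := pow_le_pow_left₀ hX0 h2 2
      _ = Z * Y := by rw [mul_pow, Real.sq_sqrt hZ0, Real.sq_sqrt hY0]
      _ ≤ Z * (B * X) := mul_le_mul_of_nonneg_left h3 hZ0
  rcases eq_or_lt_of_le hX0 with h | h
  · rw [← h]; positivity
  · have : X * X ≤ (B * Z) * X := by nlinarith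
    exact le_of_mul_le_mul_right this h

/-- sums over separated points -/
theorem sep_sum_le (T : Finset ℝ) (hT : Sep T) (t : ℝ) (ht : t ∈ T) (F : ℝ → ℝ) (f : ℕ → ℝ)
    (hf : ∀ n, 0 ≤ f n) (J : ℕ) (hF : ∀ t' ∈ T, t' ≠ t → F (t - t') ≤ f ⌊|t - t'|⌋₊)
    (hJ : ∀ t' ∈ T, ⌊|t - t'|⌋₊ ≤ J) :
    ∑ t' ∈ T.erase t, F (t - t') ≤ 2 * ∑ j ∈ Icc 1 J, f j := by
  have hside : ∀ U : Finset ℝ, U ⊆ T.erase t →
      (∀ x ∈ U, ∀ y ∈ U, x ≠ y → 1 ≤ |(|t - x| - |t - y|)|) →
      ∑ t' ∈ U, F (t - t') ≤ ∑ j ∈ Icc 1 J, f j := by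
    intro U hU hsep
    calc ∑ t' ∈ U, F (t - t') ≤ ∑ t' ∈ U, f ⌊|t - t'|⌋₊ := by
          apply sum_le_sum; intro x hx
          have := mem_erase.1 (hU hx)
          exact hF x this.2 this.1
      _ = ∑ j ∈ U.image (fun x => ⌊|t - x|⌋₊), f j := by
          rw [sum_image]
          intro x hx y hy hxy
          by_contra hne
          have h1 := hsep x hx y hy hne
          simp only at hxy
          have a1 := Nat.floor_le (abs_nonneg (t - x))
          have a2 := Nat.lt_floor_add_one (|t - x|)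
          have a3 := Nat.floor_le (abs_nonneg (t - y))
          have a4 := Nat.lt_floor_add_one (|t - y|)
          rw [hxy] at a1 a2
          have : |(|t - x| - |t - y|)| < 1 := by
            rw [abs_lt]; constructor <;> linarith
          linarith
      _ ≤ ∑ j ∈ Icc 1 J, f j := by
          apply sum_le_sum_of_subset_of_nonneg
          · intro j hj
            rw [mem_image] at hj
            obtain ⟨x, hx, rfl⟩ := hj
            have h1 := mem_erase.1 (hU hx)
            rw [mem_Icc]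
            refine ⟨?_, hJ x h1.2⟩
            apply Nat.le_floor
            push_cast
            exact hT t ht x h1.2 (Ne.symm h1.1)
          · intro j _ _; exact hf j
  have hsplit := Finset.sum_filter_add_sum_filter_not (T.erase t) (fun x => x < t)
    (fun x => F (t - x))
  rw [← hsplit, two_mul]
  apply add_le_add
  · apply hside _ (filter_subset _ _)
    intro x hx y hy hne
    rw [mem_filter] at hx hy
    have h1 := hT x (mem_erase.1 hx.1).2 y (mem_erase.1 hy.1).2 hne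
    rw [abs_of_pos (by linarith [hx.2] : 0 < t - x), abs_of_pos (by linarith [hy.2] : 0 < t - y)]
    rw [show t - x - (t - y) = -(x - y) by ring, abs_neg]
    exact h1
  · apply hside _ (filter_subset _ _)
    intro x hx y hy hne
    rw [mem_filter] at hx hy
    have h1 := hT x (mem_erase.1 hx.1).2 y (mem_erase.1 hy.1).2 hne
    have hx2 := hx.2
    have hy2 := hy.2
    push Not at hx2 hy2
    rw [abs_of_nonpos (by linarith : t - x ≤ 0), abs_of_nonpos (by linarith : t - y ≤ 0)]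
    rw [show -(t - x) - -(t - y) = x - y by ring]
    exact h1

theorem ch_mul_conj (t t' : ℝ) (n : ℕ) : ch t n * (starRingEnd ℂ) (ch t' n) = ch (t - t') n := by
  rw [ch_eq_e, ch_eq_e, ch_eq_e, conj_e, ← e_add]
  congr 1; ring

theorem stL1p : StL1p := by
  obtain ⟨C, hC, h⟩ := sum_e_log_lossy
  refine ⟨10 + 8 * C, by positivity, ?_⟩
  intro T M 𝒯 a hT hM hTM hsep
  have hMpos : 0 < M := by linarith
  have hlog : 0 ≤ Real.log M := Real.log_nonneg hM
  have hT12 : 0 ≤ T ^ (1 / 2 : ℝ) := by positivity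
  have hsub : blk M ⊆ blk M := Subset.refl _
  have hblk : blk M = Ico (⌊M⌋₊ + 1) (⌊4 * M⌋₊ + 1) := by
    unfold blk; ext x; rw [mem_Ioc, mem_Ico]; omega
  have hm0 : M ≤ ((⌊M⌋₊ + 1 : ℕ) : ℝ) := by push_cast; exact (Nat.lt_floor_add_one M).le
  have hm1 : ((⌊4 * M⌋₊ + 1 : ℕ) : ℝ) ≤ 10 * M := by
    push_cast
    have := Nat.floor_le (show 0 ≤ 4 * M by positivity)
    linarith
  apply duality 𝒯 (blk M) (blk M) hsub (fun _ => 1) (fun _ _ => zero_le_one) (fun _ _ => le_rfl)
    (fun t n => ch t n) ((10 + 8 * C) * (M * (1 + Real.log M) + 𝒯.card * T ^ (1 / 2 : ℝ)))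
    (by positivity)
  intro t ht
  have hker : ∀ t' ∈ 𝒯, t' ≠ t →
      ‖∑ n ∈ blk M, ((1 : ℝ) : ℂ) * (ch t n * (starRingEnd ℂ) (ch t' n))‖
        ≤ (if |t - t'| < M then C * (M / |t - t'|) else 0) + 4 * C * T ^ (1 / 2 : ℝ) := by
    intro t' ht' hne
    have hy1 : 1 ≤ |t - t'| := hsep t ht t' ht' (Ne.symm hne)
    have hyT : |t - t'| ≤ 2 * T := by
      have := abs_sub t t'
      linarith [hTM t ht, hTM t' ht']
    have e1 : ∀ n ∈ blk M, ((1 : ℝ) : ℂ) * (ch t n * (starRingEnd ℂ) (ch t' n))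
        = e (-(t - t') * Real.log n / (2 * Real.pi)) := by
      intro n _
      rw [ch_mul_conj, ch_eq_e, Complex.ofReal_one, one_mul]
    rw [sum_congr rfl e1, hblk]
    have hb := h M hM (-(t - t')) (by
      intro h0
      rw [neg_eq_zero] at h0
      rw [h0] at hy1; norm_num at hy1) _ _ hm0 hm1
    rw [abs_neg] at hb
    refine hb.trans ?_
    have hs : Real.sqrt |t - t'| ≤ 2 * T ^ (1 / 2 : ℝ) := by
      rw [← Real.sqrt_eq_rpow]
      apply Real.sqrt_le_iff.2
      refine ⟨by positivity, ?_⟩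
      rw [mul_pow, Real.sq_sqrt (by linarith)]
      linarith
    have hT1 : 1 ≤ T ^ (1 / 2 : ℝ) := Real.one_le_rpow hT (by norm_num)
    split_ifs with hc
    · nlinarith
    · push Not at hc
      have : M / |t - t'| ≤ 1 := by
        rw [div_le_one (by linarith)]; exact hc
      nlinarith
  have hdiag : ‖∑ n ∈ blk M, ((1 : ℝ) : ℂ) * (ch t n * (starRingEnd ℂ) (ch t n))‖ ≤ 10 * M := by
    refine (norm_sum_le _ _).trans ?_
    have e1 : ∀ n ∈ blk M, ‖((1 : ℝ) : ℂ) * (ch t n * (starRingEnd ℂ) (ch t n))‖ = 1 := by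
      intro n _
      rw [ch_mul_conj, ch_eq_e, norm_mul, norm_e]; simp
    rw [sum_congr rfl e1, hblk, sum_const, nsmul_eq_mul, mul_one, Nat.card_Ico]
    refine le_trans ?_ hm1
    exact_mod_cast Nat.sub_le _ _
  rw [← Finset.add_sum_erase _ _ ht]
  have hrest : ∑ t' ∈ 𝒯.erase t, ‖∑ n ∈ blk M, ((1 : ℝ) : ℂ) * (ch t n * (starRingEnd ℂ) (ch t' n))‖
      ≤ 2 * (C * M * (1 + Real.log M)) + 𝒯.card * (4 * C * T ^ (1 / 2 : ℝ)) := by
    calc _ ≤ ∑ t' ∈ 𝒯.erase t, ((fun y : ℝ => if |y| < M then C * (M / |y|) else 0) (t - t')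
          + 4 * C * T ^ (1 / 2 : ℝ)) := by
          apply sum_le_sum; intro t' ht'
          have := mem_erase.1 ht'
          exact hker t' this.2 this.1
      _ = ∑ t' ∈ 𝒯.erase t, (fun y : ℝ => if |y| < M then C * (M / |y|) else 0) (t - t')
          + (𝒯.erase t).card * (4 * C * T ^ (1 / 2 : ℝ)) := by
          rw [sum_add_distrib, sum_const, nsmul_eq_mul]
      _ ≤ _ := by
          apply add_le_add
          · refine (sep_sum_le 𝒯 hsep t ht (fun y : ℝ => if |y| < M then C * (M / |y|) else 0)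
              (fun j : ℕ => if (j : ℝ) ≤ M then C * (M / j) else 0) (by
                intro n; split_ifs <;> positivity) ⌊2 * T⌋₊ (by
                intro t' ht' hne
                have hy1 : 1 ≤ |t - t'| := hsep t ht t' ht' (Ne.symm hne)
                have hfl : 1 ≤ ⌊|t - t'|⌋₊ := Nat.le_floor (by push_cast; exact hy1)
                have hfl2 : (⌊|t - t'|⌋₊ : ℝ) ≤ |t - t'| := Nat.floor_le (abs_nonneg _)
                have hflpos : (0 : ℝ) < (⌊|t - t'|⌋₊ : ℝ) := by exact_mod_cast hfl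
                split_ifs with c1 c2 c2
                · apply mul_le_mul_of_nonneg_left _ hC.le
                  exact div_le_div_of_nonneg_left hMpos.le hflpos hfl2
                · exact absurd (hfl2.trans c1.le) c2
                · positivity
                · exact le_rfl) (by
                intro t' ht'
                apply Nat.floor_le_floor
                have := abs_sub t t'
                linarith [hTM t ht, hTM t' ht'])).trans ?_
            apply mul_le_mul_of_nonneg_left _ (by norm_num)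
            calc ∑ j ∈ Icc 1 ⌊2 * T⌋₊, (if (j : ℝ) ≤ M then C * (M / j) else 0)
                = ∑ j ∈ (Icc 1 ⌊2 * T⌋₊).filter (fun j : ℕ => (j : ℝ) ≤ M), C * (M / j) := by
                  rw [sum_filter]
              _ ≤ ∑ j ∈ Icc 1 ⌊M⌋₊, C * (M / j) := by
                  apply sum_le_sum_of_subset_of_nonneg
                  · intro j hj
                    rw [mem_filter, mem_Icc] at hj
                    rw [mem_Icc]
                    exact ⟨hj.1.1, Nat.le_floor hj.2⟩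
                  · intro j _ _; positivity
              _ = C * M * ∑ j ∈ Icc 1 ⌊M⌋₊, (1 : ℝ) / j := by
                  rw [mul_sum]; apply sum_congr rfl; intro j _; ring
              _ ≤ C * M * (1 + Real.log M) := by
                  apply mul_le_mul_of_nonneg_left _ (by positivity)
                  have h1 := harmonic_floor_le_one_add_log M hM
                  rw [harmonic_eq_sum_Icc] at h1
                  push_cast at h1
                  refine le_trans (le_of_eq ?_) h1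
                  apply sum_congr rfl; intro j _; rw [one_div]
          · apply mul_le_mul_of_nonneg_right _ (by positivity)
            exact_mod_cast card_erase_le
  have hMlog : 0 ≤ M * Real.log M := by positivity
  have hcT : 0 ≤ (𝒯.card : ℝ) * T ^ (1 / 2 : ℝ) := by positivity
  have f1 : 0 ≤ C * (M * Real.log M) := by positivity
  have f2 : 0 ≤ C * M := by positivity
  have f3 : 0 ≤ C * ((𝒯.card : ℝ) * T ^ (1 / 2 : ℝ)) := by positivity
  nlinarith

end Pool.MR
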