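import Pool.Agent.Helper58.MR.Dual

/-! The smooth kernel `∑ tent(log n - log R) n^(iy)`. -/

namespace Pool.MR

open Finset Pool.Agent.Helper2.MR MeasureTheory

noncomputable def tent (s : ℝ) : ℝ := max 0 (1 - |s|)

theorem tent_nonneg (s : ℝ) : 0 ≤ tent s := le_max_left _ _

theorem tent_le_one (s : ℝ) : tent s ≤ 1 := max_le zero_le_one (by linarith [abs_nonneg s])

theorem tent_lip (s t : ℝ) : |tent s - tent t| ≤ |s - t| := by
  unfold tent
  have h1 := abs_max_sub_max_le_abs (1 - |s|) (1 - |t|) 0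
  rw [max_comm, max_comm 0 (1 - |t|)]
  refine h1.trans ?_
  have : 1 - |s| - (1 - |t|) = -(|s| - |t|) := by ring
  rw [this, abs_neg]
  exact abs_abs_sub_abs_le s t

theorem tent_zero_of_le {s : ℝ} (h : 1 ≤ |s|) : tent s = 0 := max_eq_left (by linarith)

theorem continuous_tent : Continuous tent := by unfold tent; fun_prop

theorem tent_of_nonpos {s : ℝ} (h0 : s ≤ 0) (h1 : -1 ≤ s) : tent s = 1 + s := by
  unfold tent; rw [abs_of_nonpos h0, max_eq_right (by linarith)]; ring

theorem tent_of_nonneg {s : ℝ} (h0 : 0 ≤ s) (h1 : s ≤ 1) : tent s = 1 - s := by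
  unfold tent; rw [abs_of_nonneg h0, max_eq_right (by linarith)]

/-- the kernel -/
noncomputable def Ker (R y : ℝ) : ℂ :=
  ∑ n ∈ Icc 1 ⌊3 * R⌋₊, ((tent (Real.log n - Real.log R) : ℝ) : ℂ) * e (y * Real.log n / (2 * Real.pi))

/-- `x ^ z` -/
noncomputable def EE (z : ℂ) (x : ℝ) : ℂ := Complex.exp (z * ((Real.log x : ℝ) : ℂ))

/-- Mellin transform of the tent -/
noncomputable def cy (y : ℝ) : ℂ :=
  (Complex.exp (1 + y * Complex.I) + Complex.exp (-(1 + y * Complex.I)) - 2) / (1 + y * Complex.I) ^ 2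

theorem normSq_z (y : ℝ) : ‖(1 + y * Complex.I : ℂ)‖ ^ 2 = 1 + y ^ 2 := by
  rw [← Complex.normSq_eq_norm_sq, Complex.normSq_apply]
  simp; ring

theorem z_ne (y : ℝ) : (1 + y * Complex.I : ℂ) ≠ 0 := by
  intro h
  have := normSq_z y
  rw [h] at this
  simp at this
  nlinarith [sq_nonneg y]

theorem norm_cy (y : ℝ) : ‖cy y‖ ≤ 6 / (1 + y ^ 2) := by
  unfold cy
  rw [norm_div, norm_pow, normSq_z]
  apply div_le_div_of_nonneg_right _ (by positivity)
  have h1 : ‖Complex.exp (1 + y * Complex.I)‖ = Real.exp 1 := by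
    rw [Complex.norm_exp]; simp
  have h2 : ‖Complex.exp (-(1 + y * Complex.I))‖ = Real.exp (-1) := by
    rw [Complex.norm_exp]; simp
  have h3 : ‖(2 : ℂ)‖ = 2 := by simp
  refine (norm_sub_le _ _).trans ?_
  have h4 := norm_add_le (Complex.exp (1 + y * Complex.I)) (Complex.exp (-(1 + y * Complex.I)))
  rw [h1, h2] at h4
  rw [h3]
  have h5 := Real.exp_one_lt_d9
  have h6 : Real.exp (-1) ≤ 1 := Real.exp_le_one_iff.2 (by norm_num)
  linarith

theorem norm_EE (y x : ℝ) (hx : 0 < x) : ‖EE (1 + y * Complex.I) x‖ = x := by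
  unfold EE
  rw [Complex.norm_exp]
  simp [Real.exp_log hx]

theorem EE_eq (y x : ℝ) (hx : 0 < x) :
    EE (1 + y * Complex.I) x = x * e (y * Real.log x / (2 * Real.pi)) := by
  unfold EE e
  have hpi : (Real.pi : ℂ) ≠ 0 := by exact_mod_cast Real.pi_ne_zero
  have h1 : (x : ℂ) = Complex.exp ((Real.log x : ℝ) : ℂ) := by
    rw [← Complex.ofReal_exp, Real.exp_log hx]
  nth_rewrite 1 [h1]
  rw [← Complex.exp_add]
  congr 1
  push_cast
  field_simp

theorem hasDerivAt_EE (z : ℂ) (x : ℝ) (hx : 0 < x) :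
    HasDerivAt (fun t => EE z t) (EE z x * (z / x)) x := by
  unfold EE
  have h1 := (Real.hasDerivAt_log hx.ne').ofReal_comp
  have h2 := (h1.const_mul z).cexp
  refine h2.congr_deriv ?_
  push_cast
  rw [div_eq_mul_inv]

theorem int1 (y R : ℝ) (hR : 0 < R) :
    ∫ x in (R * Real.exp (-1))..R, ((tent (Real.log x - Real.log R) : ℝ) : ℂ)
        * e (y * Real.log x / (2 * Real.pi))
      = EE (1 + y * Complex.I) R * (1 / (1 + y * Complex.I) - 1 / (1 + y * Complex.I) ^ 2
          + Complex.exp (-(1 + y * Complex.I)) / (1 + y * Complex.I) ^ 2) := by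
  set z : ℂ := 1 + y * Complex.I with hz
  have hz0 : z ≠ 0 := z_ne y
  have he : 0 < Real.exp (-1) := Real.exp_pos _
  have he1 : Real.exp (-1) ≤ 1 := Real.exp_le_one_iff.2 (by norm_num)
  have hle : R * Real.exp (-1) ≤ R := by nlinarith
  set G : ℝ → ℂ := fun x => ((1 + (Real.log x - Real.log R) : ℝ) : ℂ) * EE z x / z - EE z x / z ^ 2
    with hG
  have hpos : ∀ x ∈ Set.uIcc (R * Real.exp (-1)) R, 0 < x := by
    intro x hx
    rw [Set.uIcc_of_le hle] at hx
    exact lt_of_lt_of_le (by positivity) hx.1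
  have hderiv : ∀ x ∈ Set.uIcc (R * Real.exp (-1)) R,
      HasDerivAt G (((tent (Real.log x - Real.log R) : ℝ) : ℂ) * e (y * Real.log x / (2 * Real.pi))) x := by
    intro x hx
    have hx0 := hpos x hx
    have hxC : (x : ℂ) ≠ 0 := by exact_mod_cast hx0.ne'
    rw [Set.uIcc_of_le hle] at hx
    have hl1 : Real.log x - Real.log R ≤ 0 := by
      have := Real.log_le_log hx0 hx.2; linarith
    have hl2 : -1 ≤ Real.log x - Real.log R := by
      have := Real.log_le_log (by positivity) hx.1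
      rw [Real.log_mul hR.ne' he.ne', Real.log_exp] at this; linarith
    rw [tent_of_nonpos hl1 hl2]
    have h1 : HasDerivAt (fun x : ℝ => ((1 + (Real.log x - Real.log R) : ℝ) : ℂ)) ((x⁻¹ : ℝ) : ℂ) x := by
      exact (((Real.hasDerivAt_log hx0.ne').sub_const (Real.log R)).const_add 1).ofReal_comp
    have h2 := hasDerivAt_EE z x hx0
    have h3 := ((h1.mul h2).div_const z).sub (h2.div_const (z ^ 2))
    refine h3.congr_deriv ?_
    have h4 := EE_eq y x hx0
    rw [← hz] at h4
    rw [h4]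
    push_cast
    field_simp
    ring
  rw [intervalIntegral.integral_eq_sub_of_hasDerivAt hderiv]
  · simp only [hG]
    have h5 : EE z (R * Real.exp (-1)) = EE z R * Complex.exp (-z) := by
      unfold EE
      rw [Real.log_mul hR.ne' he.ne', Real.log_exp, ← Complex.exp_add]
      congr 1; push_cast; ring
    rw [h5, Real.log_mul hR.ne' he.ne', Real.log_exp]
    push_cast
    field_simp
    ring
  · apply ContinuousOn.intervalIntegrable
    intro x hx
    have hx0 := hpos x hx
    apply ContinuousAt.continuousWithinAt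
    unfold e
    have := Real.continuousAt_log hx0.ne'
    have ht := continuous_tent.continuousAt (x := Real.log x - Real.log R)
    fun_prop (disch := exact hx0.ne')

theorem int2 (y R : ℝ) (hR : 0 < R) :
    ∫ x in R..(R * Real.exp 1), ((tent (Real.log x - Real.log R) : ℝ) : ℂ)
        * e (y * Real.log x / (2 * Real.pi))
      = EE (1 + y * Complex.I) R * (Complex.exp (1 + y * Complex.I) / (1 + y * Complex.I) ^ 2
          - 1 / (1 + y * Complex.I) - 1 / (1 + y * Complex.I) ^ 2) := by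
  set z : ℂ := 1 + y * Complex.I with hz
  have hz0 : z ≠ 0 := z_ne y
  have he : 0 < Real.exp 1 := Real.exp_pos _
  have he1 : 1 ≤ Real.exp 1 := Real.one_le_exp (by norm_num)
  have hle : R ≤ R * Real.exp 1 := by nlinarith
  set G : ℝ → ℂ := fun x => ((1 - (Real.log x - Real.log R) : ℝ) : ℂ) * EE z x / z + EE z x / z ^ 2
    with hG
  have hpos : ∀ x ∈ Set.uIcc R (R * Real.exp 1), 0 < x := by
    intro x hx
    rw [Set.uIcc_of_le hle] at hx
    exact lt_of_lt_of_le (by positivity) hx.1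
  have hderiv : ∀ x ∈ Set.uIcc R (R * Real.exp 1),
      HasDerivAt G (((tent (Real.log x - Real.log R) : ℝ) : ℂ) * e (y * Real.log x / (2 * Real.pi))) x := by
    intro x hx
    have hx0 := hpos x hx
    have hxC : (x : ℂ) ≠ 0 := by exact_mod_cast hx0.ne'
    rw [Set.uIcc_of_le hle] at hx
    have hl1 : 0 ≤ Real.log x - Real.log R := by
      have := Real.log_le_log hR hx.1; linarith
    have hl2 : Real.log x - Real.log R ≤ 1 := by
      have := Real.log_le_log hx0 hx.2
      rw [Real.log_mul hR.ne' he.ne', Real.log_exp] at this; linarith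
    rw [tent_of_nonneg hl1 hl2]
    have h1 : HasDerivAt (fun x : ℝ => ((1 - (Real.log x - Real.log R) : ℝ) : ℂ))
        ((-x⁻¹ : ℝ) : ℂ) x := by
      exact (((Real.hasDerivAt_log hx0.ne').sub_const (Real.log R)).const_sub 1).ofReal_comp
    have h2 := hasDerivAt_EE z x hx0
    have h3 := ((h1.mul h2).div_const z).add (h2.div_const (z ^ 2))
    refine h3.congr_deriv ?_
    have h4 := EE_eq y x hx0
    rw [← hz] at h4
    rw [h4]
    push_cast
    field_simp
    ring
  rw [intervalIntegral.integral_eq_sub_of_hasDerivAt hderiv]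
  · simp only [hG]
    have h5 : EE z (R * Real.exp 1) = EE z R * Complex.exp z := by
      unfold EE
      rw [Real.log_mul hR.ne' he.ne', Real.log_exp, ← Complex.exp_add]
      congr 1; push_cast; ring
    rw [h5, Real.log_mul hR.ne' he.ne', Real.log_exp]
    push_cast
    field_simp
    ring
  · apply ContinuousOn.intervalIntegrable
    intro x hx
    have hx0 := hpos x hx
    apply ContinuousAt.continuousWithinAt
    unfold e
    have := Real.continuousAt_log hx0.ne'
    have ht := continuous_tent.continuousAt (x := Real.log x - Real.log R)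
    fun_prop (disch := exact hx0.ne')

theorem e_lip (s t : ℝ) : ‖e s - e t‖ ≤ 2 * Real.pi * |s - t| := by
  have h1 : e s = e t * e (s - t) := by rw [← e_add]; congr 1; ring
  rw [h1]
  have h2 : e t * e (s - t) - e t = e t * (e (s - t) - 1) := by ring
  rw [h2, norm_mul, norm_e, one_mul]
  unfold e
  have h3 := Real.norm_exp_I_mul_ofReal_sub_one_le (x := 2 * Real.pi * (s - t))
  rw [mul_comm] at h3
  refine h3.trans (le_of_eq ?_)
  rw [Real.norm_eq_abs, abs_mul, abs_of_pos (by positivity)]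

noncomputable def ff (R y x : ℝ) : ℂ :=
  ((tent (Real.log x - Real.log R) : ℝ) : ℂ) * e (y * Real.log x / (2 * Real.pi))

theorem ff_cont (R y x : ℝ) (hx : 0 < x) : ContinuousAt (ff R y) x := by
  unfold ff e
  have := Real.continuousAt_log hx.ne'
  have ht := continuous_tent.continuousAt (x := Real.log x - Real.log R)
  fun_prop (disch := exact hx.ne')

theorem ff_int (R y a b : ℝ) (ha : 0 < a) (hab : a ≤ b) :
    IntervalIntegrable (ff R y) volume a b := by
  apply ContinuousOn.intervalIntegrable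
  intro x hx
  rw [Set.uIcc_of_le hab] at hx
  exact (ff_cont R y x (by linarith [hx.1])).continuousWithinAt

theorem ff_lip (R y : ℝ) (n x : ℝ) (hn : 1 ≤ n) (h1 : n ≤ x) (h2 : x ≤ n + 1) :
    ‖ff R y n - ff R y x‖ ≤ (1 + |y|) / n := by
  have hnpos : 0 < n := by linarith
  have hxpos : 0 < x := by linarith
  have hlog : |Real.log n - Real.log x| ≤ 1 / n := by
    rw [abs_sub_comm, abs_of_nonneg (by
      have := Real.log_le_log hnpos h1; linarith)]
    rw [← Real.log_div hxpos.ne' hnpos.ne']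
    have := Real.log_le_sub_one_of_pos (show 0 < x / n by positivity)
    refine this.trans ?_
    rw [div_sub_one hnpos.ne']
    apply div_le_div_of_nonneg_right _ hnpos.le
    linarith
  unfold ff
  set a := tent (Real.log n - Real.log R)
  set b := tent (Real.log x - Real.log R)
  set u := e (y * Real.log n / (2 * Real.pi))
  set v := e (y * Real.log x / (2 * Real.pi))
  have e1 : (a : ℂ) * u - (b : ℂ) * v = ((a - b : ℝ) : ℂ) * u + (b : ℂ) * (u - v) := by
    push_cast; ring
  rw [e1]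
  refine (norm_add_le _ _).trans ?_
  rw [norm_mul, norm_mul, Complex.norm_real, Complex.norm_real, Real.norm_eq_abs, Real.norm_eq_abs]
  have hu : ‖u‖ = 1 := norm_e _
  have hab : |a - b| ≤ 1 / n := by
    refine (tent_lip _ _).trans ?_
    rw [show Real.log n - Real.log R - (Real.log x - Real.log R) = Real.log n - Real.log x by ring]
    exact hlog
  have hb : |b| ≤ 1 := by rw [abs_of_nonneg (tent_nonneg _)]; exact tent_le_one _
  have huv : ‖u - v‖ ≤ |y| * (1 / n) := by
    refine (e_lip _ _).trans ?_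
    have : y * Real.log n / (2 * Real.pi) - y * Real.log x / (2 * Real.pi)
        = y * (Real.log n - Real.log x) / (2 * Real.pi) := by ring
    rw [this, abs_div, abs_mul, abs_of_pos (show 0 < 2 * Real.pi by positivity)]
    have h3 : 2 * Real.pi * (|y| * |Real.log n - Real.log x| / (2 * Real.pi))
        = |y| * |Real.log n - Real.log x| := by field_simp
    rw [h3]
    exact mul_le_mul_of_nonneg_left hlog (abs_nonneg _)
  rw [hu, mul_one]
  have h4 : |b| * ‖u - v‖ ≤ 1 * (|y| * (1 / n)) :=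
    mul_le_mul hb huv (norm_nonneg _) zero_le_one
  calc |a - b| + |b| * ‖u - v‖ ≤ 1 / n + 1 * (|y| * (1 / n)) := add_le_add hab h4
    _ = (1 + |y|) / n := by ring

/-- comparison of sum and integral -/
theorem sum_sub_int (R y : ℝ) (a b : ℕ) (ha : 1 ≤ a) (hab : a ≤ b) :
    ‖∑ n ∈ Ico a b, ff R y n - ∫ x in (a : ℝ)..b, ff R y x‖ ≤ (b - a) * ((1 + |y|) / a) := by
  have hint : ∀ k ∈ Set.Ico a b, IntervalIntegrable (ff R y) volume ((fun n : ℕ => (n : ℝ)) k)
      ((fun n : ℕ => (n : ℝ)) (k + 1)) := by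
    intro k hk
    have : (1 : ℝ) ≤ k := by exact_mod_cast ha.trans hk.1
    apply ff_int
    · simp only; linarith
    · push_cast; linarith
  have h1 := intervalIntegral.sum_integral_adjacent_intervals_Ico hab hint
  rw [← h1, ← sum_sub_distrib]
  refine (norm_sum_le _ _).trans ?_
  have h2 : ∀ n ∈ Ico a b, ‖ff R y n - ∫ x in (n : ℝ)..((n + 1 : ℕ) : ℝ), ff R y x‖
      ≤ (1 + |y|) / a := by
    intro n hn
    rw [mem_Ico] at hn
    have hn1 : (1 : ℝ) ≤ n := by exact_mod_cast ha.trans hn.1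
    have han : (a : ℝ) ≤ n := by exact_mod_cast hn.1
    have hapos : (0 : ℝ) < a := by exact_mod_cast ha
    have e1 : ff R y n = ∫ _x in (n : ℝ)..((n + 1 : ℕ) : ℝ), ff R y n := by
      rw [intervalIntegral.integral_const]; push_cast; simp
    rw [e1, ← intervalIntegral.integral_sub intervalIntegrable_const
      (ff_int R y _ _ (by linarith) (by push_cast; linarith))]
    have h3 := intervalIntegral.norm_integral_le_of_norm_le_const (a := (n : ℝ))
      (b := ((n + 1 : ℕ) : ℝ)) (f := fun x => ff R y n - ff R y x) (C := (1 + |y|) / a) (by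
        intro x hx
        rw [Set.uIoc_of_le (by push_cast; linarith)] at hx
        have hx2 := hx.2
        push_cast at hx2
        refine (ff_lip R y n x hn1 hx.1.le hx2).trans ?_
        exact div_le_div_of_nonneg_left (by positivity) hapos han)
    refine h3.trans (le_of_eq ?_)
    push_cast
    rw [add_sub_cancel_left, abs_one, mul_one]
  refine (sum_le_sum h2).trans (le_of_eq ?_)
  rw [sum_const, nsmul_eq_mul, Nat.card_Ico, Nat.cast_sub hab]

theorem exp_neg_one_ge : (0.3678 : ℝ) ≤ Real.exp (-1) := by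
  rw [Real.exp_neg, ← one_div, le_div_iff₀ (Real.exp_pos _)]
  have := Real.exp_one_lt_d9
  linarith

theorem one_lt_log3 : 1 < Real.log 3 := by
  rw [Real.lt_log_iff_exp_lt (by norm_num)]
  have := Real.exp_one_lt_d9
  linarith

theorem ker_eq (R y : ℝ) (hR : 30 ≤ R) :
    Ker R y = ∑ n ∈ Ico ⌈R / 3⌉₊ (⌊3 * R⌋₊ + 1), ff R y n := by
  have hRpos : 0 < R := by linarith
  unfold Ker
  have h1 : Icc 1 ⌊3 * R⌋₊ = Ico 1 (⌊3 * R⌋₊ + 1) := by ext x; rw [mem_Icc, mem_Ico]; omega
  have ha : 1 ≤ ⌈R / 3⌉₊ := Nat.one_le_ceil_iff.2 (by positivity)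
  have hab : ⌈R / 3⌉₊ ≤ ⌊3 * R⌋₊ + 1 := by
    have h2 : ⌈R / 3⌉₊ ≤ ⌊3 * R⌋₊ := by
      apply Nat.le_floor
      have := Nat.ceil_lt_add_one (show 0 ≤ R / 3 by positivity)
      linarith
    omega
  rw [h1, ← Finset.sum_Ico_consecutive _ ha hab]
  have h0 : ∑ i ∈ Ico 1 ⌈R / 3⌉₊, ((tent (Real.log i - Real.log R) : ℝ) : ℂ)
      * e (y * Real.log i / (2 * Real.pi)) = 0 := by
    apply sum_eq_zero
    intro n hn
    rw [mem_Ico] at hn
    have hn1 : (0 : ℝ) < n := by exact_mod_cast hn.1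
    have hn2 : (n : ℝ) < R / 3 := Nat.lt_ceil.1 hn.2
    have hl : Real.log n < Real.log R - Real.log 3 := by
      rw [← Real.log_div hRpos.ne' (by norm_num)]
      exact Real.log_lt_log hn1 hn2
    have := one_lt_log3
    rw [tent_zero_of_le (by rw [abs_of_neg (by linarith)]; linarith)]
    simp
  rw [h0, zero_add]
  rfl

theorem int_full (R y : ℝ) (hR : 30 ≤ R) :
    ∫ x in (⌈R / 3⌉₊ : ℝ)..((⌊3 * R⌋₊ + 1 : ℕ) : ℝ), ff R y x
      = EE (1 + y * Complex.I) R * cy y := by
  have hRpos : 0 < R := by linarith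
  have he := exp_neg_one_ge
  have he1 : Real.exp (-1) ≤ 1 := Real.exp_le_one_iff.2 (by norm_num)
  have hE1 : 1 ≤ Real.exp 1 := Real.one_le_exp (by norm_num)
  have hE2 := Real.exp_one_lt_d9
  have ha0 : (0 : ℝ) < (⌈R / 3⌉₊ : ℝ) := by
    have : R / 3 ≤ (⌈R / 3⌉₊ : ℝ) := Nat.le_ceil _
    linarith
  have ha1 : (⌈R / 3⌉₊ : ℝ) ≤ R * Real.exp (-1) := by
    have := Nat.ceil_lt_add_one (show 0 ≤ R / 3 by positivity)
    nlinarith
  have hb1 : R * Real.exp 1 ≤ ((⌊3 * R⌋₊ + 1 : ℕ) : ℝ) := by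
    push_cast
    have := Nat.lt_floor_add_one (3 * R)
    nlinarith
  have h12 : R * Real.exp (-1) ≤ R := by nlinarith
  have h23 : R ≤ R * Real.exp 1 := by nlinarith
  have hp1 : 0 < R * Real.exp (-1) := by positivity
  have hi1 := ff_int R y _ _ ha0 ha1
  have hi2 := ff_int R y _ _ hp1 h12
  have hi3 := ff_int R y _ _ hRpos h23
  have hi4 := ff_int R y _ _ (by linarith) hb1
  rw [← intervalIntegral.integral_add_adjacent_intervals hi1
      ((hi2.trans hi3).trans hi4),
    ← intervalIntegral.integral_add_adjacent_intervals (hi2) (hi3.trans hi4),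
    ← intervalIntegral.integral_add_adjacent_intervals hi3 hi4]
  have z1 : ∫ x in (⌈R / 3⌉₊ : ℝ)..(R * Real.exp (-1)), ff R y x = 0 := by
    apply intervalIntegral.integral_zero_ae
    apply Filter.Eventually.of_forall
    intro x hx
    rw [Set.uIoc_of_le ha1] at hx
    have hx0 : 0 < x := by linarith [hx.1]
    have hl : Real.log x ≤ Real.log R - 1 := by
      have := Real.log_le_log hx0 hx.2
      rw [Real.log_mul hRpos.ne' (Real.exp_pos _).ne', Real.log_exp] at this
      linarith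
    unfold ff
    rw [tent_zero_of_le (by rw [abs_of_neg (by linarith)]; linarith)]
    simp
  have z2 : ∫ x in (R * Real.exp 1)..((⌊3 * R⌋₊ + 1 : ℕ) : ℝ), ff R y x = 0 := by
    apply intervalIntegral.integral_zero_ae
    apply Filter.Eventually.of_forall
    intro x hx
    rw [Set.uIoc_of_le hb1] at hx
    have hx0 : 0 < R * Real.exp 1 := by positivity
    have hl : Real.log R + 1 ≤ Real.log x := by
      have := Real.log_le_log hx0 hx.1.le
      rw [Real.log_mul hRpos.ne' (Real.exp_pos _).ne', Real.log_exp] at this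
      linarith
    unfold ff
    rw [tent_zero_of_le (by rw [abs_of_pos (by linarith)]; linarith)]
    simp
  have i1 := int1 y R hRpos
  have i2 := int2 y R hRpos
  rw [z1, z2]
  unfold ff
  rw [i1, i2]
  unfold cy
  have hz := z_ne y
  field_simp
  ring

theorem ker_small (R y : ℝ) (hR : 30 ≤ R) :
    ‖Ker R y - EE (1 + y * Complex.I) R * cy y‖ ≤ 12 * (1 + |y|) := by
  have hRpos : 0 < R := by linarith
  rw [ker_eq R y hR, ← int_full R y hR]
  have ha : 1 ≤ ⌈R / 3⌉₊ := Nat.one_le_ceil_iff.2 (by positivity)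
  have hab : ⌈R / 3⌉₊ ≤ ⌊3 * R⌋₊ + 1 := by
    have h2 : ⌈R / 3⌉₊ ≤ ⌊3 * R⌋₊ := by
      apply Nat.le_floor
      have := Nat.ceil_lt_add_one (show 0 ≤ R / 3 by positivity)
      linarith
    omega
  refine (sum_sub_int R y _ _ ha hab).trans ?_
  have h1 : R / 3 ≤ (⌈R / 3⌉₊ : ℝ) := Nat.le_ceil _
  have h2 : ((⌊3 * R⌋₊ + 1 : ℕ) : ℝ) ≤ 3 * R + 1 := by
    push_cast; have := Nat.floor_le (show 0 ≤ 3 * R by positivity); linarith
  have ha0 : (0 : ℝ) < (⌈R / 3⌉₊ : ℝ) := by linarith
  rw [mul_div_assoc', div_le_iff₀ ha0]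
  have h3 : 0 ≤ 1 + |y| := by positivity
  have h4 : ((⌊3 * R⌋₊ + 1 : ℕ) : ℝ) - (⌈R / 3⌉₊ : ℝ) ≤ 12 * (⌈R / 3⌉₊ : ℝ) := by linarith
  nlinarith [mul_le_mul_of_nonneg_right h4 h3]

theorem ker_large (k : ℕ) : ∃ ρ : ℝ, 0 < ρ ∧ ρ ≤ 1 / 2 ∧ ∃ C : ℝ, 0 < C ∧ ∀ R : ℝ, 30 ≤ R →
    ∀ y : ℝ, R ^ (1 / 2 : ℝ) ≤ |y| → |y| ≤ R ^ k → ‖Ker R y‖ ≤ C * R ^ (1 - ρ) := by
  obtain ⟨ρ, h1, h2, C, hC, h⟩ := sum_e_log (2 * k + 1) (by
    have : (0 : ℝ) ≤ k := by positivity
    linarith)
  refine ⟨min ρ (1 / 2), by positivity, min_le_right _ _, 2 * C, by positivity, ?_⟩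
  intro R hR y hy1 hy2
  have hRpos : 0 < R := by linarith
  rw [ker_eq R y hR]
  set M := R / 3 with hM
  have hM10 : 10 ≤ M := by rw [hM]; linarith
  have hMpos : 0 < M := by linarith
  have hyM1 : M ^ (1 / 4 : ℝ) ≤ |y| := by
    refine le_trans ?_ hy1
    calc M ^ (1 / 4 : ℝ) ≤ R ^ (1 / 4 : ℝ) :=
          Real.rpow_le_rpow hMpos.le (by rw [hM]; linarith) (by norm_num)
      _ ≤ R ^ (1 / 2 : ℝ) := Real.rpow_le_rpow_of_exponent_le (by linarith) (by norm_num)
  have hyM2 : |y| ≤ M ^ (2 * (k : ℝ) + 1) := by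
    refine hy2.trans ?_
    have e1 : R ≤ M ^ 2 := by
      have : R = 3 * M := by rw [hM]; ring
      rw [this]; nlinarith
    calc R ^ k ≤ (M ^ 2) ^ k := pow_le_pow_left₀ hRpos.le e1 k
      _ = M ^ ((2 * k : ℕ) : ℝ) := by rw [Real.rpow_natCast, ← pow_mul]
      _ ≤ M ^ (2 * (k : ℝ) + 1) := by
          apply Real.rpow_le_rpow_of_exponent_le (by linarith)
          push_cast; linarith
  set a := ⌈R / 3⌉₊ with ha
  set c := ⌈R⌉₊ with hc
  set b := ⌊3 * R⌋₊ + 1 with hb
  have haM : M ≤ (a : ℝ) := Nat.le_ceil _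
  have hbM : (b : ℝ) ≤ 10 * M := by
    rw [hb]; push_cast
    have := Nat.floor_le (show 0 ≤ 3 * R by positivity)
    rw [hM]; linarith
  have hac : a ≤ c := Nat.ceil_le_ceil (by rw [← hM]; linarith)
  have hcb : c ≤ b := by
    have : c ≤ ⌊3 * R⌋₊ := by
      apply Nat.le_floor
      have := Nat.ceil_lt_add_one (show 0 ≤ R by positivity)
      linarith
    omega
  have hD : ∀ u v, a ≤ u → v ≤ b →
      ‖∑ n ∈ Ico u v, e (y * Real.log n / (2 * Real.pi))‖ ≤ C * M ^ (1 - ρ) := by
    intro u v hu hv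
    apply h M (by linarith) y hyM1 hyM2
    · exact haM.trans (by exact_mod_cast hu)
    · exact le_trans (by exact_mod_cast hv) hbM
  rw [← Finset.sum_Ico_consecutive _ hac hcb]
  have hD0 : 0 ≤ C * M ^ (1 - ρ) := by positivity
  have p1 : ‖∑ n ∈ Ico a c, ff R y n‖ ≤ 1 * (C * M ^ (1 - ρ)) := by
    unfold ff
    apply norm_sum_monotone_Ico_le (fun n => tent (Real.log n - Real.log R))
      (fun n => e (y * Real.log n / (2 * Real.pi))) _ a c hac hD0
    · intro i _; exact tent_nonneg _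
    · intro i hi1 hi2
      have hi0 : (0 : ℝ) < i := lt_of_lt_of_le hMpos (haM.trans (by exact_mod_cast hi1))
      have hiR : ((i + 1 : ℕ) : ℝ) < R := Nat.lt_ceil.1 hi2
      have l1 : Real.log i ≤ Real.log ((i + 1 : ℕ) : ℝ) := Real.log_le_log hi0 (by push_cast; linarith)
      have l2 : Real.log ((i + 1 : ℕ) : ℝ) ≤ Real.log R :=
        Real.log_le_log (by positivity) hiR.le
      unfold tent
      rw [abs_of_nonpos (by linarith), abs_of_nonpos (by linarith)]
      exact max_le_max le_rfl (by linarith)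
    · intro u v hu hv; exact hD u v hu (hv.trans hcb)
    · exact zero_le_one
    · intro i _; exact tent_le_one _
  have p2 : ‖∑ n ∈ Ico c b, ff R y n‖ ≤ 1 * (C * M ^ (1 - ρ)) := by
    unfold ff
    apply norm_sum_antitone_Ico_le (fun n => tent (Real.log n - Real.log R))
      (fun n => e (y * Real.log n / (2 * Real.pi))) _ c b hcb hD0
    · intro i _; exact tent_nonneg _
    · intro i hi1 hi2
      have hiR : R ≤ (i : ℝ) := (Nat.le_ceil R).trans (by exact_mod_cast hi1)
      have hi0 : (0 : ℝ) < i := by linarith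
      have l1 : Real.log i ≤ Real.log ((i + 1 : ℕ) : ℝ) := Real.log_le_log hi0 (by push_cast; linarith)
      have l2 : Real.log R ≤ Real.log i := Real.log_le_log hRpos hiR
      unfold tent
      rw [abs_of_nonneg (by linarith), abs_of_nonneg (by linarith)]
      exact max_le_max le_rfl (by linarith)
    · intro u v hu hv; exact hD u v (hac.trans hu) hv
    · exact zero_le_one
    · intro i _; exact tent_le_one _
  refine (norm_add_le _ _).trans ?_
  have q1 : M ^ (1 - ρ) ≤ R ^ (1 - min ρ (1 / 2)) := by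
    calc M ^ (1 - ρ) ≤ M ^ (1 - min ρ (1 / 2)) := by
          apply Real.rpow_le_rpow_of_exponent_le (by linarith)
          linarith [min_le_left ρ (1 / 2)]
      _ ≤ R ^ (1 - min ρ (1 / 2)) := by
          apply Real.rpow_le_rpow hMpos.le (by rw [hM]; linarith)
          linarith [min_le_right ρ (1 / 2)]
  have q2 := mul_le_mul_of_nonneg_left q1 hC.le
  linarith

/-- the kernel, uniformly in `|y| ≤ R^k` -/
theorem ker_approx (k : ℕ) : ∃ ρ : ℝ, 0 < ρ ∧ ρ ≤ 1 / 2 ∧ ∃ C : ℝ, 0 < C ∧ ∀ R : ℝ, 1 ≤ R →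
    ∀ y : ℝ, |y| ≤ R ^ k → ‖Ker R y - EE (1 + y * Complex.I) R * cy y‖ ≤ C * R ^ (1 - ρ) := by
  obtain ⟨ρ, h1, h2, C, hC, h⟩ := ker_large k
  refine ⟨ρ, h1, h2, C + 300, by positivity, ?_⟩
  intro R hR y hy
  have hRpos : 0 < R := by linarith
  have hR1 : 1 ≤ R ^ (1 - ρ) := Real.one_le_rpow hR (by linarith)
  have hmain : ‖EE (1 + y * Complex.I) R * cy y‖ ≤ R * (6 / (1 + y ^ 2)) := by
    rw [norm_mul, norm_EE y R hRpos]
    exact mul_le_mul_of_nonneg_left (norm_cy y) hRpos.le
  rcases lt_or_ge R 30 with hlt | hge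
  · have t1 : ‖Ker R y‖ ≤ 90 := by
      unfold Ker
      refine (norm_sum_le _ _).trans ?_
      calc ∑ n ∈ Icc 1 ⌊3 * R⌋₊, ‖((tent (Real.log n - Real.log R) : ℝ) : ℂ)
            * e (y * Real.log n / (2 * Real.pi))‖ ≤ ∑ _n ∈ Icc 1 ⌊3 * R⌋₊, (1 : ℝ) := by
            apply sum_le_sum; intro n _
            rw [norm_mul, norm_e, mul_one, Complex.norm_real, Real.norm_of_nonneg (tent_nonneg _)]
            exact tent_le_one _
        _ = ⌊3 * R⌋₊ := by simp
        _ ≤ 90 := by
            have := Nat.floor_le (show 0 ≤ 3 * R by positivity); linarith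
    have t2 : R * (6 / (1 + y ^ 2)) ≤ 180 := by
      have : 6 / (1 + y ^ 2) ≤ 6 := by
        rw [div_le_iff₀ (by positivity)]; nlinarith [sq_nonneg y]
      have : 0 ≤ 6 / (1 + y ^ 2) := by positivity
      nlinarith
    refine (norm_sub_le _ _).trans ?_
    nlinarith
  · rcases le_total (R ^ (1 / 2 : ℝ)) |y| with hc | hc
    · have t1 := h R hge y hc hy
      have t2 : R * (6 / (1 + y ^ 2)) ≤ 6 := by
        rw [mul_div_assoc', div_le_iff₀ (by positivity)]
        have : R ≤ y ^ 2 := by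
          have e1 : R = (R ^ (1 / 2 : ℝ)) ^ 2 := by
            rw [← Real.rpow_natCast, ← Real.rpow_mul hRpos.le]; norm_num
          rw [e1, ← sq_abs y]
          exact pow_le_pow_left₀ (by positivity) hc 2
        linarith
      refine (norm_sub_le _ _).trans ?_
      nlinarith
    · refine (ker_small R y hge).trans ?_
      have t1 : R ^ (1 / 2 : ℝ) ≤ R ^ (1 - ρ) :=
        Real.rpow_le_rpow_of_exponent_le hR (by linarith)
      nlinarith

end Pool.MR
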