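import Pool.Agent.Helper58.MR.Kern
import Pool.Agent.Helper58.MR.Sel

/-! The lossless inequality (L1). -/

namespace Pool.MR

open Finset Pool.Agent.Helper2.MR

/-- sum of a kernel over separated points -/
theorem sum_kernel_le (T : Finset ℝ) (hT : Sep T) (K : ℝ → ℂ) (A E Y : ℝ) (hA : 0 ≤ A) (hE : 0 ≤ E)
    (hY : ∀ t ∈ T, ∀ t' ∈ T, |t - t'| ≤ Y)
    (hK : ∀ y, |y| ≤ Y → ‖K y‖ ≤ A / (1 + y ^ 2) + E) (t : ℝ) (ht : t ∈ T) :
    ∑ t' ∈ T, ‖K (t - t')‖ ≤ 5 * A + T.card * E := by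
  have hY0 : 0 ≤ Y := (abs_nonneg _).trans (hY t ht t ht)
  calc ∑ t' ∈ T, ‖K (t - t')‖ ≤ ∑ t' ∈ T, ((fun y : ℝ => A / (1 + y ^ 2)) (t - t') + E) := by
        apply sum_le_sum; intro t' ht'
        exact hK _ (hY t ht t' ht')
    _ = ∑ t' ∈ T, (fun y : ℝ => A / (1 + y ^ 2)) (t - t') + T.card * E := by
        rw [sum_add_distrib, sum_const, nsmul_eq_mul]
    _ ≤ 5 * A + T.card * E := by
        apply add_le_add _ le_rfl
        rw [← Finset.add_sum_erase _ _ ht]
        have h1 := sep_sum_le T hT t ht (fun y : ℝ => A / (1 + y ^ 2))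
          (fun j : ℕ => if j = 0 then 0 else A / (j : ℝ) ^ 2) (by
            intro n; split_ifs <;> positivity) ⌊Y⌋₊ (by
            intro t' ht' hne
            have hy1 : 1 ≤ |t - t'| := hT t ht t' ht' (Ne.symm hne)
            have hfl : 1 ≤ ⌊|t - t'|⌋₊ := Nat.le_floor (by push_cast; exact hy1)
            have hfl2 : (⌊|t - t'|⌋₊ : ℝ) ≤ |t - t'| := Nat.floor_le (abs_nonneg _)
            have hflpos : (0 : ℝ) < (⌊|t - t'|⌋₊ : ℝ) := by exact_mod_cast hfl
            rw [if_neg (by omega)]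
            apply div_le_div_of_nonneg_left hA (by positivity)
            rw [← sq_abs (t - t')]
            have := pow_le_pow_left₀ hflpos.le hfl2 2
            linarith) (by
            intro t' ht'
            exact Nat.floor_le_floor (hY t ht t' ht'))
        have h2 : ∑ j ∈ Icc 1 ⌊Y⌋₊, (if j = 0 then 0 else A / (j : ℝ) ^ 2) ≤ 2 * A := by
          have e1 : ∑ j ∈ Icc 1 ⌊Y⌋₊, (if j = 0 then 0 else A / (j : ℝ) ^ 2)
              = A * ∑ j ∈ Icc 1 ⌊Y⌋₊, (1 : ℝ) / (j : ℝ) ^ 2 := by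
            rw [mul_sum]; apply sum_congr rfl; intro j hj
            rw [mem_Icc] at hj
            rw [if_neg (by omega)]; ring
          rw [e1]
          have := sum_inv_sq_le ⌊Y⌋₊
          nlinarith
        have h3 : A / (1 + (t - t) ^ 2) = A := by simp
        simp only at h1 ⊢
        rw [h3]
        linarith

theorem tent_quarter (M : ℝ) (hM : 1 ≤ M) (n : ℕ) (hn : n ∈ blk M) :
    1 ≤ 4 * tent (Real.log n - Real.log (2 * M)) := by
  unfold blk at hn
  rw [mem_Ioc] at hn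
  have hMpos : 0 < M := by linarith
  have h1 : M < n := (Nat.floor_lt hMpos.le).1 hn.1
  have h2 : (n : ℝ) ≤ 4 * M := (Nat.le_floor_iff (by positivity)).1 hn.2
  have hn0 : (0 : ℝ) < n := by linarith
  have h3 : Real.log (2 * M) - Real.log 2 ≤ Real.log n := by
    rw [← Real.log_div (by positivity) (by norm_num)]
    apply Real.log_le_log (by positivity)
    rw [show 2 * M / 2 = M by ring]; exact h1.le
  have h4 : Real.log n ≤ Real.log (2 * M) + Real.log 2 := by
    rw [← Real.log_mul (by positivity) (by norm_num)]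
    apply Real.log_le_log hn0
    linarith
  have h5 : Real.log 2 < 0.7 := by
    have := Real.log_two_lt_d9; linarith
  unfold tent
  have h6 : |Real.log n - Real.log (2 * M)| ≤ 0.7 := by
    rw [abs_le]; constructor <;> linarith
  have h7 : 1 - |Real.log n - Real.log (2 * M)| ≤ max 0 (1 - |Real.log n - Real.log (2 * M)|) :=
    le_max_right _ _
  linarith

theorem blk_subset (M : ℝ) (hM : 1 ≤ M) : blk M ⊆ Icc 1 ⌊3 * (2 * M)⌋₊ := by
  intro n hn
  unfold blk at hn
  rw [mem_Ioc] at hn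
  rw [mem_Icc]
  refine ⟨by omega, hn.2.trans (Nat.floor_le_floor (by linarith))⟩

theorem stL1 : StL1 := by
  intro k
  obtain ⟨ρ, h1, h2, C, hC, h⟩ := ker_approx (k + 1)
  refine ⟨300 + 8 * C, ρ, by positivity, h1, ?_⟩
  intro M 𝒯 a hM hTM hsep
  have hMpos : 0 < M := by linarith
  set R := 2 * M with hR
  have hR1 : 1 ≤ R := by rw [hR]; linarith
  have hRpos : 0 < R := by linarith
  apply duality 𝒯 (blk M) (Icc 1 ⌊3 * R⌋₊) (blk_subset M hM)
    (fun n => 4 * tent (Real.log n - Real.log R)) (fun n _ => by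
      have := tent_nonneg (Real.log n - Real.log R)
      positivity) (fun n hn => tent_quarter M hM n hn)
    (fun t n => ch t n) ((300 + 8 * C) * (M + 𝒯.card * M ^ (1 - ρ))) (by positivity)
  intro t ht
  have hkk : ∀ t' ∈ 𝒯, ‖∑ n ∈ Icc 1 ⌊3 * R⌋₊, ((4 * tent (Real.log n - Real.log R) : ℝ) : ℂ)
      * (ch t n * (starRingEnd ℂ) (ch t' n))‖ = ‖(fun y : ℝ => 4 * Ker R (-y)) (t - t')‖ := by
    intro t' _
    congr 1
    simp only
    unfold Ker
    rw [mul_sum]
    apply sum_congr rfl; intro n _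
    rw [ch_mul_conj, ch_eq_e]
    push_cast; ring
  rw [sum_congr rfl hkk]
  have hY : ∀ t ∈ 𝒯, ∀ t' ∈ 𝒯, |t - t'| ≤ 2 * M ^ k := by
    intro t ht t' ht'
    have := abs_sub t t'
    linarith [hTM t ht, hTM t' ht']
  have hsum := sum_kernel_le 𝒯 hsep (fun y : ℝ => 4 * Ker R (-y)) (24 * R) (4 * (C * R ^ (1 - ρ)))
    (2 * M ^ k) (by positivity) (by positivity) hY (by
      intro y hy
      have hyR : |-y| ≤ R ^ (k + 1) := by
        rw [abs_neg]
        refine hy.trans ?_
        rw [hR, mul_pow, pow_succ, pow_succ]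
        have e1 : (1 : ℝ) ≤ 2 ^ k := one_le_pow₀ (by norm_num)
        have e2 : (0 : ℝ) < M ^ k := by positivity
        calc 2 * M ^ k = 1 * 2 * (M ^ k * 1) := by ring
          _ ≤ 2 ^ k * 2 * (M ^ k * M) := by
              apply mul_le_mul _ _ (by positivity) (by positivity)
              · linarith
              · exact mul_le_mul_of_nonneg_left hM e2.le
      have hk := h R hR1 (-y) hyR
      have hm : ‖EE (1 + ((-y : ℝ) : ℂ) * Complex.I) R * cy (-y)‖ ≤ R * (6 / (1 + y ^ 2)) := by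
        rw [norm_mul, norm_EE (-y) R hRpos]
        have := norm_cy (-y)
        rw [neg_sq] at this
        exact mul_le_mul_of_nonneg_left this hRpos.le
      have h3 : ‖Ker R (-y)‖ ≤ R * (6 / (1 + y ^ 2)) + C * R ^ (1 - ρ) := by
        have := norm_sub_norm_le (Ker R (-y)) (EE (1 + ((-y : ℝ) : ℂ) * Complex.I) R * cy (-y))
        linarith
      simp only [norm_mul]
      have h4 : ‖(4 : ℂ)‖ = 4 := by simp
      rw [h4]
      have h5 : 24 * R / (1 + y ^ 2) = 4 * (R * (6 / (1 + y ^ 2))) := by ring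
      rw [h5]; linarith) t ht
  refine hsum.trans ?_
  have q1 : R ^ (1 - ρ) ≤ 2 * M ^ (1 - ρ) := by
    rw [hR, Real.mul_rpow (by norm_num) hMpos.le]
    apply mul_le_mul_of_nonneg_right _ (by positivity)
    calc (2 : ℝ) ^ (1 - ρ) ≤ 2 ^ (1 : ℝ) :=
          Real.rpow_le_rpow_of_exponent_le (by norm_num) (by linarith)
      _ = 2 := Real.rpow_one _
  have q2 : (𝒯.card : ℝ) * (4 * (C * R ^ (1 - ρ))) ≤ 8 * C * (𝒯.card * M ^ (1 - ρ)) := by
    have : 4 * (C * R ^ (1 - ρ)) ≤ 8 * C * M ^ (1 - ρ) := by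
      have := mul_le_mul_of_nonneg_left q1 hC.le
      linarith
    calc (𝒯.card : ℝ) * (4 * (C * R ^ (1 - ρ))) ≤ 𝒯.card * (8 * C * M ^ (1 - ρ)) :=
          mul_le_mul_of_nonneg_left this (by positivity)
      _ = _ := by ring
  have q3 : 5 * (24 * R) = 240 * M := by rw [hR]; ring
  rw [q3]
  have q4 : 0 ≤ (𝒯.card : ℝ) * M ^ (1 - ρ) := by positivity
  have q5 : 0 ≤ C * M := by positivity
  nlinarith

end Pool.MR
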