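import Mathlib

/-! Exponential sums, I: Kusmin-Landau inequality (discrete form). -/

namespace Pool.MR

open Finset

/-- `e x = exp (2 π i x)` -/
noncomputable def e (x : ℝ) : ℂ := Complex.exp (((2 * Real.pi * x : ℝ) : ℂ) * Complex.I)

theorem norm_e (x : ℝ) : ‖e x‖ = 1 := by
  unfold e; exact Complex.norm_exp_ofReal_mul_I _

theorem e_add (x y : ℝ) : e (x + y) = e x * e y := by
  unfold e
  rw [← Complex.exp_add]
  congr 1
  push_cast; ring

theorem e_zero : e 0 = 1 := by simp [e]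

theorem e_intCast (m : ℤ) : e m = 1 := by
  unfold e
  rw [Complex.exp_eq_one_iff]
  exact ⟨m, by push_cast; ring⟩

theorem e_sub_int (x : ℝ) (m : ℤ) : e (x - m) = e x := by
  have h := e_add (x - m) m
  rw [e_intCast, mul_one] at h
  rw [← h]; congr 1; ring

theorem conj_e (x : ℝ) : (starRingEnd ℂ) (e x) = e (-x) := by
  unfold e
  rw [← Complex.exp_conj]
  congr 1
  rw [map_mul, Complex.conj_I, Complex.conj_ofReal]
  push_cast; ring

theorem e_neg_mul (x : ℝ) : e (-x) * e x = 1 := by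
  rw [← e_add]; simp [e_zero]

/-- the coefficient `1 / (1 - e x)` -/
noncomputable def kc (x : ℝ) : ℂ :=
  1 / 2 + Complex.I / 2 * ((Real.cos (Real.pi * x) / Real.sin (Real.pi * x) : ℝ) : ℂ)

theorem one_sub_e_mul_kc {x : ℝ} (hx : Real.sin (Real.pi * x) ≠ 0) : (1 - e x) * kc x = 1 := by
  have h1 : e x = ((Real.cos (2 * (Real.pi * x)) : ℝ) : ℂ)
      + ((Real.sin (2 * (Real.pi * x)) : ℝ) : ℂ) * Complex.I := by
    unfold e
    rw [Complex.exp_mul_I]
    push_cast
    ring_nf
  rw [h1, Real.cos_two_mul, Real.sin_two_mul]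
  unfold kc
  have hs : ((Real.sin (Real.pi * x) : ℝ) : ℂ) ≠ 0 := by exact_mod_cast hx
  have hsc : ((Real.cos (Real.pi * x) : ℝ) : ℂ) ^ 2 = 1 - ((Real.sin (Real.pi * x) : ℝ) : ℂ) ^ 2 := by
    have := Real.cos_sq' (Real.pi * x)
    exact_mod_cast this
  push_cast at hs hsc ⊢
  field_simp
  ring_nf
  rw [show Complex.I ^ 2 = -1 from Complex.I_sq]
  ring_nf at hsc ⊢
  have h3 : Complex.cos (↑Real.pi * ↑x) ^ 3
      = Complex.cos (↑Real.pi * ↑x) * (1 - Complex.sin (↑Real.pi * ↑x) ^ 2) := by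
    rw [← hsc]; ring
  rw [h3]
  ring

/-- Kusmin-Landau, with the boundary term kept. -/
theorem kl_aux (a : ℕ → ℝ) (u : ℕ) (k : ℕ) (θ : ℝ) (hθ : 0 < θ)
    (hd : ∀ n, u ≤ n → n < u + (k + 1) → θ ≤ a (n + 1) - a n ∧ a (n + 1) - a n ≤ 1 - θ)
    (hm : ∀ n, u ≤ n → n + 1 < u + (k + 1) → a (n + 1) - a n ≤ a (n + 2) - a (n + 1)) :
    ‖(∑ n ∈ Ico u (u + (k + 1)), e (a n)) + e (a (u + (k + 1))) * kc (a (u + (k + 1)) - a (u + k))‖
      ≤ ‖kc (a (u + 1) - a u)‖ +
        (Real.cos (Real.pi * (a (u + 1) - a u)) / Real.sin (Real.pi * (a (u + 1) - a u))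
          - Real.cos (Real.pi * (a (u + (k + 1)) - a (u + k)))
            / Real.sin (Real.pi * (a (u + (k + 1)) - a (u + k)))) / 2 := by
  have hsin : ∀ x : ℝ, θ ≤ x → x ≤ 1 - θ → 0 < Real.sin (Real.pi * x) := by
    intro x h1 h2
    apply Real.sin_pos_of_pos_of_lt_pi
    · have := Real.pi_pos; have : 0 < x := by linarith
      positivity
    · have := Real.pi_pos
      have hx : x < 1 := by linarith
      nlinarith
  have key : ∀ n, u ≤ n → n < u + (k + 1) →
      e (a n) + e (a (n + 1)) * kc (a (n + 1) - a n) = e (a n) * kc (a (n + 1) - a n) := by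
    intro n h1 h2
    have h3 := hd n h1 h2
    have h4 := one_sub_e_mul_kc (hsin _ h3.1 h3.2).ne'
    have h5 : e (a (n + 1)) = e (a n) * e (a (n + 1) - a n) := by
      rw [← e_add]; congr 1; ring
    rw [h5]
    have : e (a n) * ((1 - e (a (n + 1) - a n)) * kc (a (n + 1) - a n)) = e (a n) := by
      rw [h4, mul_one]
    linear_combination -this
  induction k with
  | zero =>
    have h0 := key u le_rfl (by omega)
    simp only [zero_add, add_zero] at *
    rw [Nat.Ico_succ_singleton, sum_singleton, h0]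
    simp [norm_e]
  | succ k ih =>
    have ih' := ih (fun n h1 h2 => hd n h1 (by omega)) (fun n h1 h2 => hm n h1 (by omega))
      (fun n h1 h2 => key n h1 (by omega))
    have hk := key (u + (k + 1)) (by omega) (by omega)
    rw [show u + (k + 1 + 1) = (u + (k + 1)) + 1 from rfl]
    rw [Finset.sum_Ico_succ_top (by omega)]
    have hA : (∑ n ∈ Ico u (u + (k + 1)), e (a n)) + e (a (u + (k + 1)))
        + e (a (u + (k + 1) + 1)) * kc (a (u + (k + 1) + 1) - a (u + (k + 1)))
        = ((∑ n ∈ Ico u (u + (k + 1)), e (a n))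
            + e (a (u + (k + 1))) * kc (a (u + (k + 1)) - a (u + k)))
          + e (a (u + (k + 1))) * (kc (a (u + (k + 1) + 1) - a (u + (k + 1)))
            - kc (a (u + (k + 1)) - a (u + k))) := by
      linear_combination hk
    rw [hA]
    refine (norm_add_le _ _).trans ?_
    have hdiff : ‖e (a (u + (k + 1))) * (kc (a (u + (k + 1) + 1) - a (u + (k + 1)))
            - kc (a (u + (k + 1)) - a (u + k)))‖
        = (Real.cos (Real.pi * (a (u + (k + 1)) - a (u + k)))
            / Real.sin (Real.pi * (a (u + (k + 1)) - a (u + k)))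
          - Real.cos (Real.pi * (a (u + (k + 1) + 1) - a (u + (k + 1))))
            / Real.sin (Real.pi * (a (u + (k + 1) + 1) - a (u + (k + 1))))) / 2 := by
      rw [norm_mul, norm_e, one_mul]
      set x := a (u + (k + 1)) - a (u + k) with hx
      set y := a (u + (k + 1) + 1) - a (u + (k + 1)) with hy
      have hxy : x ≤ y := hm (u + k) (by omega) (by omega)
      have hx1 := hd (u + k) (by omega) (by omega)
      have hy1 := hd (u + (k + 1)) (by omega) (by omega)
      have hsx := hsin x hx1.1 hx1.2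
      have hsy := hsin y hy1.1 hy1.2
      have e1 : kc y - kc x = Complex.I / 2 *
          ((Real.cos (Real.pi * y) / Real.sin (Real.pi * y)
            - Real.cos (Real.pi * x) / Real.sin (Real.pi * x) : ℝ) : ℂ) := by
        unfold kc; push_cast; ring
      rw [e1, norm_mul, Complex.norm_real]
      have e2 : Real.cos (Real.pi * y) / Real.sin (Real.pi * y)
            - Real.cos (Real.pi * x) / Real.sin (Real.pi * x) ≤ 0 := by
        rw [div_sub_div _ _ hsy.ne' hsx.ne']
        apply div_nonpos_of_nonpos_of_nonneg _ (by positivity)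
        have : Real.cos (Real.pi * y) * Real.sin (Real.pi * x)
            - Real.sin (Real.pi * y) * Real.cos (Real.pi * x)
            = - Real.sin (Real.pi * y - Real.pi * x) := by
          rw [Real.sin_sub]; ring
        rw [this, neg_nonpos]
        apply Real.sin_nonneg_of_nonneg_of_le_pi
        · have := Real.pi_pos; nlinarith
        · have := Real.pi_pos
          have : y - x ≤ 1 := by
            rw [show u + k + 1 = u + (k + 1) from rfl] at hx1
            linarith [hx1.1, hy1.2]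
          nlinarith
      rw [Real.norm_of_nonpos e2]
      simp
      ring
    rw [hdiff]
    linarith [ih']

theorem sin_pi_ge {θ x : ℝ} (hθ : 0 < θ) (h1 : θ ≤ x) (h2 : x ≤ 1 - θ) :
    2 * θ ≤ Real.sin (Real.pi * x) := by
  have hpi := Real.pi_pos
  rcases le_total x (1 / 2) with h | h
  · have := Real.mul_le_sin (x := Real.pi * x) (by nlinarith) (by nlinarith)
    have h3 : 2 / Real.pi * (Real.pi * x) = 2 * x := by field_simp
    linarith
  · have := Real.mul_le_sin (x := Real.pi * (1 - x)) (by nlinarith) (by nlinarith)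
    have h3 : 2 / Real.pi * (Real.pi * (1 - x)) = 2 * (1 - x) := by field_simp
    have h4 : Real.sin (Real.pi * (1 - x)) = Real.sin (Real.pi * x) := by
      rw [show Real.pi * (1 - x) = Real.pi - Real.pi * x by ring, Real.sin_pi_sub]
    rw [h4] at this
    linarith

theorem abs_cot_le {θ x : ℝ} (hθ : 0 < θ) (h1 : θ ≤ x) (h2 : x ≤ 1 - θ) :
    |Real.cos (Real.pi * x) / Real.sin (Real.pi * x)| ≤ 1 / (2 * θ) := by
  have h := sin_pi_ge hθ h1 h2
  rw [abs_div, abs_of_pos (show 0 < Real.sin (Real.pi * x) by linarith)]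
  apply div_le_div₀ zero_le_one (Real.abs_cos_le_one _) (by positivity) h

theorem norm_kc_le {θ x : ℝ} (hθ : 0 < θ) (h1 : θ ≤ x) (h2 : x ≤ 1 - θ) :
    ‖kc x‖ ≤ 1 / 2 + 1 / (4 * θ) := by
  unfold kc
  refine (norm_add_le _ _).trans ?_
  rw [norm_mul, Complex.norm_real, Real.norm_eq_abs]
  have := abs_cot_le hθ h1 h2
  have e1 : ‖(1 / 2 : ℂ)‖ = 1 / 2 := by simp
  have e2 : ‖Complex.I / 2‖ = 1 / 2 := by simp
  rw [e1, e2]
  have : 1 / (4 * θ) = 1 / 2 * (1 / (2 * θ)) := by field_simp; norm_num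
  nlinarith

/-- Kusmin-Landau inequality. -/
theorem kusmin_landau (a : ℕ → ℝ) (u v : ℕ) (θ : ℝ) (hθ : 0 < θ)
    (hd : ∀ n, u ≤ n → n < v → θ ≤ a (n + 1) - a n ∧ a (n + 1) - a n ≤ 1 - θ)
    (hm : ∀ n, u ≤ n → n + 1 < v → a (n + 1) - a n ≤ a (n + 2) - a (n + 1)) :
    ‖∑ n ∈ Ico u v, e (a n)‖ ≤ 2 / θ := by
  rcases Nat.lt_or_ge u v with huv | huv
  · obtain ⟨k, rfl⟩ : ∃ k, v = u + (k + 1) := ⟨v - u - 1, by omega⟩
    have h := kl_aux a u k θ hθ hd hm
    have h1 := hd u le_rfl (by omega)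
    have h2 := hd (u + k) (by omega) (by omega)
    have hθ2 : θ ≤ 1 / 2 := by linarith [h1.1, h1.2]
    rw [show u + k + 1 = u + (k + 1) from rfl] at h2
    have n1 := norm_kc_le hθ h1.1 h1.2
    have n2 := norm_kc_le hθ h2.1 h2.2
    have c1 := abs_le.1 (abs_cot_le hθ h1.1 h1.2)
    have c2 := abs_le.1 (abs_cot_le hθ h2.1 h2.2)
    have t : ‖∑ n ∈ Ico u (u + (k + 1)), e (a n)‖ ≤
        ‖(∑ n ∈ Ico u (u + (k + 1)), e (a n))
          + e (a (u + (k + 1))) * kc (a (u + (k + 1)) - a (u + k))‖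
        + ‖e (a (u + (k + 1))) * kc (a (u + (k + 1)) - a (u + k))‖ := by
      have := norm_sub_le ((∑ n ∈ Ico u (u + (k + 1)), e (a n))
          + e (a (u + (k + 1))) * kc (a (u + (k + 1)) - a (u + k)))
          (e (a (u + (k + 1))) * kc (a (u + (k + 1)) - a (u + k)))
      simpa using this
    rw [norm_mul, norm_e, one_mul] at t
    have e1 : 2 / θ = 2 * (1 / θ) := by ring
    have e2 : 1 / (2 * θ) = 1 / 2 * (1 / θ) := by field_simp
    have e3 : 1 / (4 * θ) = 1 / 4 * (1 / θ) := by field_simp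
    have e4 : 1 ≤ 1 / 2 * (1 / θ) := by
      rw [← e2, le_div_iff₀ (by positivity)]; linarith
    rw [e2] at c1 c2
    rw [e3] at n1 n2
    rw [e1]
    linarith [c1.2, c2.1]
  · rw [Ico_eq_empty (by omega)]; simp; positivity

end Pool.MR
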