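import Pool.Agent.Helper58.MR.VC1

/-! Exponential sums, II: second difference test. -/

namespace Pool.MR

open Finset

theorem exists_Ico_of_ordConnected (S : Finset ℕ)
    (h : ∀ x ∈ S, ∀ y ∈ S, ∀ z, x ≤ z → z ≤ y → z ∈ S) : ∃ u v, S = Ico u v := by
  rcases S.eq_empty_or_nonempty with rfl | hS
  · exact ⟨0, 0, by simp⟩
  · refine ⟨S.min' hS, S.max' hS + 1, ?_⟩
    ext z
    rw [mem_Ico]
    constructor
    · intro hz
      exact ⟨S.min'_le z hz, Nat.lt_succ_of_le (S.le_max' z hz)⟩
    · rintro ⟨h1, h2⟩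
      exact h _ (S.min'_mem hS) _ (S.max'_mem hS) z h1 (Nat.le_of_lt_succ h2)

theorem card_le_of_spread (S : Finset ℕ) (d : ℕ → ℝ) (M : ℕ) (lam w : ℝ) (hl : 0 < lam) (hw : 0 ≤ w)
    (hd : ∀ i j, i ≤ j → j ≤ M → lam * ((j : ℝ) - i) ≤ d j - d i)
    (hS : ∀ n ∈ S, n ≤ M) (hS2 : ∀ x ∈ S, ∀ y ∈ S, d y - d x ≤ w) :
    (S.card : ℝ) ≤ w / lam + 1 := by
  rcases S.eq_empty_or_nonempty with rfl | hne
  · simp; positivity
  · have h1 : S ⊆ Icc (S.min' hne) (S.max' hne) := by
      intro x hx
      rw [mem_Icc]
      exact ⟨S.min'_le x hx, S.le_max' x hx⟩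
    have h2 := card_le_card h1
    rw [Nat.card_Icc] at h2
    have hmm : S.min' hne ≤ S.max' hne := S.min'_le _ (S.max'_mem hne)
    have h3 := hd _ _ hmm (hS _ (S.max'_mem hne))
    have h4 := hS2 _ (S.min'_mem hne) _ (S.max'_mem hne)
    have h5 : ((S.max' hne : ℝ) - S.min' hne) ≤ w / lam := by
      rw [le_div_iff₀ hl]; linarith
    have h6 : (S.card : ℝ) ≤ ((S.max' hne + 1 - S.min' hne : ℕ) : ℝ) := by exact_mod_cast h2
    rw [Nat.cast_sub (by omega)] at h6
    push_cast at h6
    linarith

/-- Second difference test. -/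
theorem second_diff (a : ℕ → ℝ) (M : ℕ) (lam A : ℝ) (hl : 0 < lam)
    (h : ∀ n < M, lam ≤ a (n + 2) - a (n + 1) - (a (n + 1) - a n) ∧
      a (n + 2) - a (n + 1) - (a (n + 1) - a n) ≤ A * lam) :
    ‖∑ n ∈ range M, e (a n)‖ ≤ (A * lam * M + 2) * (5 / Real.sqrt lam + 1) := by
  set d : ℕ → ℝ := fun n => a (n + 1) - a n with hd
  have hd' : ∀ n < M, lam ≤ d (n + 1) - d n ∧ d (n + 1) - d n ≤ A * lam := h
  have hlow : ∀ i k, i + k ≤ M → lam * k ≤ d (i + k) - d i := by
    intro i k
    induction k with
    | zero => intro _; simp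
    | succ k ih =>
      intro hk
      have := ih (by omega)
      have h2 := (hd' (i + k) (by omega)).1
      rw [show i + (k + 1) = i + k + 1 from rfl]
      push_cast; nlinarith
  have hup : ∀ i k, i + k ≤ M → d (i + k) - d i ≤ A * lam * k := by
    intro i k
    induction k with
    | zero => intro _; simp
    | succ k ih =>
      intro hk
      have := ih (by omega)
      have h2 := (hd' (i + k) (by omega)).2
      rw [show i + (k + 1) = i + k + 1 from rfl]
      push_cast; nlinarith
  have hlow' : ∀ i j, i ≤ j → j ≤ M → lam * ((j : ℝ) - i) ≤ d j - d i := by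
    intro i j hij hj
    obtain ⟨k, rfl⟩ := Nat.exists_eq_add_of_le hij
    have := hlow i k hj
    push_cast; rw [add_sub_cancel_left]; exact this
  have hmono : ∀ i j, i ≤ j → j ≤ M → d i ≤ d j := by
    intro i j hij hj
    have := hlow' i j hij hj
    have h2 : (0 : ℝ) ≤ (j : ℝ) - i := by
      rw [sub_nonneg]; exact_mod_cast hij
    nlinarith [mul_nonneg hl.le h2]
  rcases Nat.eq_zero_or_pos M with rfl | hM
  · simp; positivity
  have hA : 0 ≤ A * lam := by
    have := h 0 hM
    linarith [this.1, this.2]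
  set s := Real.sqrt lam with hs
  have hspos : 0 < s := Real.sqrt_pos.2 hl
  rcases le_or_gt 1 lam with hbig | hsmall
  · have : ‖∑ n ∈ range M, e (a n)‖ ≤ M := by
      refine (norm_sum_le _ _).trans ?_
      simp [norm_e]
    refine this.trans ?_
    have h1 : (M : ℝ) ≤ A * lam * M := by
      have hh := h 0 hM
      have : 1 ≤ A * lam := by linarith [hh.1, hh.2]
      have hM' : (0 : ℝ) ≤ M := by positivity
      nlinarith
    have h2 : 0 ≤ 5 / s := by positivity
    have h3 : 0 ≤ A * lam * M := by positivity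
    nlinarith [mul_nonneg h3 h2]
  · -- main case
    set θ := s / 2 with hθ
    have hθpos : 0 < θ := by positivity
    have hs1 : s < 1 := by
      rw [hs, Real.sqrt_lt' one_pos]; simpa using hsmall
    have hss : s * s = lam := Real.mul_self_sqrt hl.le
    set f : ℕ → ℤ := fun n => ⌊d n + θ⌋ with hf
    set I := (range M).image f with hI
    have hfib : ∀ m ∈ I, ‖∑ n ∈ (range M).filter (fun n => f n = m), e (a n)‖ ≤ 5 / s + 1 := by
      intro m _
      -- split into near and far
      have hsplit := Finset.sum_filter_add_sum_filter_not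
        ((range M).filter (fun n => f n = m)) (fun n => d n - m < θ) (fun n => e (a n))
      rw [← hsplit]
      refine (norm_add_le _ _).trans ?_
      have hmem : ∀ n, n ∈ (range M).filter (fun n => f n = m) →
          n < M ∧ (m : ℝ) ≤ d n + θ ∧ d n + θ < m + 1 := by
        intro n hn
        rw [mem_filter, mem_range] at hn
        have := hn.2
        simp only [hf] at this
        rw [Int.floor_eq_iff] at this
        exact ⟨hn.1, this.1, this.2⟩
      -- near part
      have hnear : ‖∑ n ∈ ((range M).filter (fun n => f n = m)).filter (fun n => d n - m < θ),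
          e (a n)‖ ≤ 1 / s + 1 := by
        refine (norm_sum_le _ _).trans ?_
        simp only [norm_e, sum_const, nsmul_eq_mul, mul_one]
        have := card_le_of_spread
          (((range M).filter (fun n => f n = m)).filter (fun n => d n - m < θ)) d M lam (2 * θ) hl
          (by positivity) hlow' (by
            intro n hn
            rw [mem_filter] at hn
            exact (hmem n hn.1).1.le) (by
            intro x hx y hy
            rw [mem_filter] at hx hy
            have h1 := hmem x hx.1
            have h2 := hmem y hy.1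
            linarith [h1.2.1, hy.2])
        refine this.trans (le_of_eq ?_)
        rw [← hss, hθ]; field_simp
      have hfar : ‖∑ n ∈ ((range M).filter (fun n => f n = m)).filter (fun n => ¬ (d n - m < θ)),
          e (a n)‖ ≤ 4 / s := by
        obtain ⟨u, v, huv⟩ := exists_Ico_of_ordConnected
          (((range M).filter (fun n => f n = m)).filter (fun n => ¬ (d n - m < θ))) (by
            intro x hx y hy z hxz hzy
            rw [mem_filter] at hx hy ⊢
            have h1 := hmem x hx.1
            have h2 := hmem y hy.1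
            have h3 := hmono x z hxz (by omega)
            have h4 := hmono z y hzy (by omega)
            have h5 := hx.2
            push Not at h5
            refine ⟨?_, ?_⟩
            · rw [mem_filter, mem_range]
              refine ⟨by omega, ?_⟩
              simp only [hf]
              rw [Int.floor_eq_iff]
              exact ⟨by linarith, by linarith⟩
            · push Not; linarith)
        rw [huv]
        have hin : ∀ n, u ≤ n → n < v → n < M ∧ θ ≤ d n - m ∧ d n - m ≤ 1 - θ := by
          intro n h1 h2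
          have : n ∈ Ico u v := by rw [mem_Ico]; exact ⟨h1, h2⟩
          rw [← huv, mem_filter] at this
          have h3 := hmem n this.1
          have h4 := this.2
          push Not at h4
          exact ⟨h3.1, h4, by linarith [h3.2.2]⟩
        have hk := kusmin_landau (fun n => a n - m * n) u v θ hθpos (by
            intro n h1 h2
            have h3 := hin n h1 h2
            simp only [hd] at h3
            push_cast
            constructor
            · linarith [h3.2.1]
            · linarith [h3.2.2]) (by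
            intro n h1 h2
            have h3 := hin n h1 (by omega)
            have h4 := (hd' n h3.1).1
            simp only [hd] at h4
            push_cast
            linarith)
        have he : ∀ n ∈ Ico u v, e (a n) = e ((fun n : ℕ => a n - m * n) n) := by
          intro n _
          have := e_sub_int (a n) (m * n)
          push_cast at this
          exact this.symm
        rw [sum_congr rfl he]
        refine hk.trans (le_of_eq ?_)
        rw [hθ]; field_simp; norm_num
      calc _ ≤ (1 / s + 1) + 4 / s := add_le_add hnear hfar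
        _ = 5 / s + 1 := by ring
    have hcard : (I.card : ℝ) ≤ A * lam * M + 2 := by
      have hsub : I ⊆ Icc (f 0) (f (M - 1)) := by
        intro m hm
        rw [hI, mem_image] at hm
        obtain ⟨n, hn, rfl⟩ := hm
        rw [mem_range] at hn
        rw [mem_Icc]
        constructor
        · exact Int.floor_le_floor (by linarith [hmono 0 n (by omega) (by omega)])
        · exact Int.floor_le_floor (by linarith [hmono n (M - 1) (by omega) (by omega)])
      have h1 := card_le_card hsub
      rw [Int.card_Icc] at h1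
      have h2 : ((f (M - 1) + 1 - f 0).toNat : ℝ) ≤ A * lam * M + 2 := by
        have hle : f 0 ≤ f (M - 1) :=
          Int.floor_le_floor (by linarith [hmono 0 (M - 1) (by omega) (by omega)])
        have h3 : (((f (M - 1) + 1 - f 0).toNat : ℤ) : ℝ) = ((f (M - 1) + 1 - f 0 : ℤ) : ℝ) := by
          rw [Int.toNat_of_nonneg (by omega)]
        have h4 : ((f (M - 1) + 1 - f 0).toNat : ℝ) = ((f (M - 1) + 1 - f 0 : ℤ) : ℝ) := by
          rw [← h3, Int.cast_natCast]
        rw [h4]
        push_cast
        have h5 : (f (M - 1) : ℝ) ≤ d (M - 1) + θ := Int.floor_le _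
        have h6 : d 0 + θ - 1 < (f 0 : ℝ) := Int.sub_one_lt_floor _
        have h7 := hup 0 (M - 1) (by omega)
        rw [zero_add] at h7
        have h8 : ((M - 1 : ℕ) : ℝ) ≤ M := by exact_mod_cast Nat.sub_le _ _
        have h9 : A * lam * ((M - 1 : ℕ) : ℝ) ≤ A * lam * M := by
          exact mul_le_mul_of_nonneg_left h8 hA
        linarith
      exact le_trans (by exact_mod_cast h1) h2
    have hsum : ∑ n ∈ range M, e (a n)
        = ∑ m ∈ I, ∑ n ∈ (range M).filter (fun n => f n = m), e (a n) := by
      rw [hI]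
      rw [← Finset.sum_fiberwise_of_maps_to (g := f) (t := (range M).image f)]
      intro x hx
      exact mem_image_of_mem _ hx
    rw [hsum]
    calc ‖∑ m ∈ I, ∑ n ∈ (range M).filter (fun n => f n = m), e (a n)‖
        ≤ ∑ m ∈ I, ‖∑ n ∈ (range M).filter (fun n => f n = m), e (a n)‖ := norm_sum_le _ _
      _ ≤ ∑ _m ∈ I, (5 / s + 1) := sum_le_sum hfib
      _ = I.card * (5 / s + 1) := by rw [sum_const, nsmul_eq_mul]
      _ ≤ (A * lam * M + 2) * (5 / s + 1) :=
          mul_le_mul_of_nonneg_right hcard (by positivity)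

theorem sum_dist_le (G : ℕ → ℝ) (hG : ∀ h, 0 ≤ G h) (H j : ℕ) (hj : j < H) :
    ∑ i ∈ range H, G ((j - i) + (i - j)) ≤ G 0 + 2 * ∑ h ∈ Ico 1 H, G h := by
  have h1 : ∑ i ∈ range H, G ((j - i) + (i - j))
      = ∑ i ∈ range (j + 1), G ((j - i) + (i - j)) + ∑ i ∈ Ico (j + 1) H, G ((j - i) + (i - j)) := by
    rw [Finset.sum_range_add_sum_Ico _ (by omega)]
  have h2 : ∑ i ∈ range (j + 1), G ((j - i) + (i - j)) = ∑ h ∈ range (j + 1), G h := by
    rw [← Finset.sum_range_reflect (fun h => G h) (j + 1)]
    apply sum_congr rfl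
    intro i hi
    rw [mem_range] at hi
    congr 1; omega
  have h3 : ∑ i ∈ Ico (j + 1) H, G ((j - i) + (i - j)) ≤ ∑ h ∈ Ico 1 H, G h := by
    have : ∑ i ∈ Ico (j + 1) H, G ((j - i) + (i - j)) = ∑ h ∈ Ico 1 (H - j), G h := by
      rw [Finset.sum_Ico_eq_sum_range, Finset.sum_Ico_eq_sum_range]
      rw [show H - (j + 1) = H - j - 1 by omega]
      apply sum_congr rfl
      intro i _
      congr 1; omega
    rw [this]
    apply sum_le_sum_of_subset_of_nonneg
    · intro x hx; rw [mem_Ico] at *; omega
    · intro x _ _; exact hG x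
  have h4 : ∑ h ∈ range (j + 1), G h ≤ G 0 + ∑ h ∈ Ico 1 H, G h := by
    rw [Finset.sum_range_succ']
    have : ∑ k ∈ range j, G (k + 1) ≤ ∑ h ∈ Ico 1 H, G h := by
      have e : ∑ k ∈ range j, G (k + 1) = ∑ h ∈ Ico 1 (j + 1), G h := by
        rw [Finset.sum_Ico_eq_sum_range]
        apply sum_congr rfl
        intro i _
        congr 1; omega
      rw [e]
      apply sum_le_sum_of_subset_of_nonneg
      · intro x hx; rw [mem_Ico] at *; omega
      · intro x _ _; exact hG x
    linarith
  rw [h1, h2]; linarith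

/-- van der Corput inequality (A-process). -/
theorem vdc_ineq (z : ℕ → ℂ) (M H : ℕ) (hH : 1 ≤ H) (hHM : H ≤ M) (hz : ∀ n, ‖z n‖ ≤ 1) :
    ‖∑ n ∈ range M, z n‖ ^ 2 ≤ 2 * M / H *
      (M + 2 * ∑ h ∈ Ico 1 H, ‖∑ n ∈ range (M - h), z (n + h) * (starRingEnd ℂ) (z n)‖) := by
  set G : ℕ → ℝ := fun h => ‖∑ n ∈ range (M - h), z (n + h) * (starRingEnd ℂ) (z n)‖ with hG
  set w : ℕ → ℂ := fun n => if H ≤ n ∧ n < H + M then z (n - H) else 0 with hw
  set S := ∑ n ∈ range M, z n with hS
  have hw0 : ∀ n, ¬ (H ≤ n ∧ n < H + M) → w n = 0 := by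
    intro n hn; simp only [hw]; rw [if_neg hn]
  have hw1 : ∀ n, n < M → w (n + H) = z n := by
    intro n hn; simp only [hw]; rw [if_pos ⟨by omega, by omega⟩, Nat.add_sub_cancel]
  have hshift : ∀ j < H, ∑ n ∈ range (M + H), w (n + j) = S := by
    intro j hj
    have e1 : ∑ n ∈ range (M + H), w (n + j) = ∑ m ∈ Ico j (j + (M + H)), w m := by
      rw [Finset.sum_Ico_eq_sum_range]
      rw [show j + (M + H) - j = M + H by omega]
      apply sum_congr rfl; intro i _; congr 1; omega
    have e2 : S = ∑ m ∈ Ico H (H + M), w m := by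
      rw [Finset.sum_Ico_eq_sum_range, show H + M - H = M by omega]
      apply sum_congr rfl; intro i hi
      rw [mem_range] at hi
      rw [add_comm H i, hw1 i hi]
    rw [e1, e2]
    symm
    apply sum_subset
    · intro x hx; rw [mem_Ico] at *; omega
    · intro x _ hx
      apply hw0
      rw [mem_Ico] at hx; exact hx
  have hT : ∀ j i, i ≤ j → j < H → ∑ n ∈ range (M + H), w (n + j) * (starRingEnd ℂ) (w (n + i))
      = ∑ n ∈ range (M - (j - i)), z (n + (j - i)) * (starRingEnd ℂ) (z n) := by
    intro j i hij hj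
    have e1 : ∑ n ∈ range (M + H), w (n + j) * (starRingEnd ℂ) (w (n + i))
        = ∑ m ∈ Ico i (i + (M + H)), w (m + (j - i)) * (starRingEnd ℂ) (w m) := by
      rw [Finset.sum_Ico_eq_sum_range, show i + (M + H) - i = M + H by omega]
      apply sum_congr rfl; intro n _
      rw [show i + n + (j - i) = n + j by omega, add_comm i n]
    have e2 : ∑ n ∈ range (M - (j - i)), z (n + (j - i)) * (starRingEnd ℂ) (z n)
        = ∑ m ∈ Ico H (H + (M - (j - i))), w (m + (j - i)) * (starRingEnd ℂ) (w m) := by
      rw [Finset.sum_Ico_eq_sum_range,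
        show H + (M - (j - i)) - H = M - (j - i) by omega]
      apply sum_congr rfl; intro n hn
      rw [mem_range] at hn
      rw [show H + n + (j - i) = (n + (j - i)) + H by omega, hw1 _ (by omega),
        add_comm H n, hw1 _ (by omega)]
    rw [e1, e2]
    symm
    apply sum_subset
    · intro x hx; rw [mem_Ico] at *; omega
    · intro x _ hx
      rw [mem_Ico] at hx
      by_cases hxH : H ≤ x
      · rw [hw0 (x + (j - i)) (by omega), zero_mul]
      · rw [hw0 x (by omega), map_zero, mul_zero]
  have hTn : ∀ j i, i < H → j < H →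
      ‖∑ n ∈ range (M + H), w (n + j) * (starRingEnd ℂ) (w (n + i))‖ = G ((j - i) + (i - j)) := by
    intro j i hi hj
    rcases le_total i j with h | h
    · rw [hT j i h hj, show j - i + (i - j) = j - i by omega]
    · have hc : ∑ n ∈ range (M + H), w (n + j) * (starRingEnd ℂ) (w (n + i))
          = (starRingEnd ℂ) (∑ n ∈ range (M + H), w (n + i) * (starRingEnd ℂ) (w (n + j))) := by
        rw [map_sum]
        apply sum_congr rfl; intro n _
        rw [map_mul, Complex.conj_conj, mul_comm]
      rw [hc, Complex.norm_conj, hT i j h hi, show j - i + (i - j) = i - j by omega]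
  have hHS : (H : ℂ) * S = ∑ n ∈ range (M + H), ∑ j ∈ range H, w (n + j) := by
    rw [sum_comm, sum_congr rfl (fun j hj => hshift j (mem_range.1 hj)), sum_const, card_range,
      nsmul_eq_mul]
  have hCS : ‖(H : ℂ) * S‖ ^ 2 ≤ (M + H : ℝ) * ∑ n ∈ range (M + H), ‖∑ j ∈ range H, w (n + j)‖ ^ 2 := by
    rw [hHS]
    have h1 : ‖∑ n ∈ range (M + H), ∑ j ∈ range H, w (n + j)‖ ^ 2
        ≤ (∑ n ∈ range (M + H), ‖∑ j ∈ range H, w (n + j)‖) ^ 2 := by
      apply pow_le_pow_left₀ (norm_nonneg _) (norm_sum_le _ _)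
    refine h1.trans ?_
    have := sq_sum_le_card_mul_sum_sq (s := range (M + H)) (f := fun n => ‖∑ j ∈ range H, w (n + j)‖)
    rw [card_range] at this
    push_cast at this
    exact this
  have hexp : (∑ n ∈ range (M + H), ‖∑ j ∈ range H, w (n + j)‖ ^ 2 : ℝ)
      ≤ ∑ j ∈ range H, ∑ i ∈ range H, G ((j - i) + (i - j)) := by
    have h1 : ((∑ n ∈ range (M + H), ‖∑ j ∈ range H, w (n + j)‖ ^ 2 : ℝ) : ℂ)
        = ∑ j ∈ range H, ∑ i ∈ range H,
          ∑ n ∈ range (M + H), w (n + j) * (starRingEnd ℂ) (w (n + i)) := by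
      push_cast
      have h2 : ∀ n ∈ range (M + H), ((‖∑ j ∈ range H, w (n + j)‖ : ℂ)) ^ 2
          = ∑ j ∈ range H, ∑ i ∈ range H, w (n + j) * (starRingEnd ℂ) (w (n + i)) := by
        intro n _
        rw [← Complex.mul_conj', map_sum, sum_mul_sum]
      rw [sum_congr rfl h2, sum_comm]
      apply sum_congr rfl; intro j _
      rw [sum_comm]
    have h3 : (∑ n ∈ range (M + H), ‖∑ j ∈ range H, w (n + j)‖ ^ 2 : ℝ)
        = ‖((∑ n ∈ range (M + H), ‖∑ j ∈ range H, w (n + j)‖ ^ 2 : ℝ) : ℂ)‖ := by
      rw [Complex.norm_real, Real.norm_of_nonneg]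
      exact sum_nonneg fun _ _ => by positivity
    rw [h3, h1]
    refine (norm_sum_le _ _).trans (sum_le_sum fun j hj => ?_)
    refine (norm_sum_le _ _).trans (sum_le_sum fun i hi => ?_)
    exact (hTn j i (mem_range.1 hi) (mem_range.1 hj)).le
  have hG0 : G 0 ≤ M := by
    simp only [hG]
    refine (norm_sum_le _ _).trans ?_
    calc ∑ n ∈ range (M - 0), ‖z (n + 0) * (starRingEnd ℂ) (z n)‖ ≤ ∑ n ∈ range (M - 0), (1 : ℝ) := by
          apply sum_le_sum; intro n _
          rw [norm_mul, Complex.norm_conj]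
          exact mul_le_one₀ (hz _) (norm_nonneg _) (hz _)
      _ = M := by simp
  have hsum : ∑ j ∈ range H, ∑ i ∈ range H, G ((j - i) + (i - j))
      ≤ H * (M + 2 * ∑ h ∈ Ico 1 H, G h) := by
    calc ∑ j ∈ range H, ∑ i ∈ range H, G ((j - i) + (i - j))
        ≤ ∑ _j ∈ range H, (M + 2 * ∑ h ∈ Ico 1 H, G h) := by
          apply sum_le_sum; intro j hj
          have := sum_dist_le G (fun h => norm_nonneg _) H j (mem_range.1 hj)
          linarith
      _ = H * (M + 2 * ∑ h ∈ Ico 1 H, G h) := by
          rw [sum_const, card_range, nsmul_eq_mul]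
  have hHpos : (0 : ℝ) < H := by exact_mod_cast hH
  have hHM' : (H : ℝ) ≤ M := by exact_mod_cast hHM
  have hnn : 0 ≤ (M : ℝ) + 2 * ∑ h ∈ Ico 1 H, G h := by
    have : 0 ≤ ∑ h ∈ Ico 1 H, G h := sum_nonneg fun h _ => norm_nonneg _
    positivity
  rw [norm_mul, mul_pow] at hCS
  have hn : ‖(H : ℂ)‖ = H := by simp
  rw [hn] at hCS
  have hfin : (H : ℝ) ^ 2 * ‖S‖ ^ 2 ≤ (2 * M) * (H * (M + 2 * ∑ h ∈ Ico 1 H, G h)) := by
    refine hCS.trans ?_
    apply mul_le_mul (by linarith) (hexp.trans hsum) (sum_nonneg fun _ _ => by positivity)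
      (by positivity)
  rw [show 2 * (M : ℝ) / H * (M + 2 * ∑ h ∈ Ico 1 H, G h)
      = (2 * M) * (H * (M + 2 * ∑ h ∈ Ico 1 H, G h)) / H ^ 2 by field_simp]
  rw [le_div_iff₀ (by positivity)]
  linarith

end Pool.MR
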