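import Pool.Agent.Helper58.MR.VC2

/-! Exponential sums, III: k-th difference test (qualitative form). -/

namespace Pool.MR

open Finset

theorem fwdDiff_iter_shift (k : ℕ) : ∀ (a : ℕ → ℝ) (h n : ℕ),
    (fwdDiff 1)^[k] (fun n => a (n + h) - a n) n
      = ∑ j ∈ range h, (fwdDiff 1)^[k + 1] a (n + j) := by
  induction k with
  | zero =>
    intro a h n
    simp only [Function.iterate_zero, id_eq, zero_add, Function.iterate_one]
    induction h with
    | zero => simp
    | succ h ih =>
      rw [sum_range_succ, ← ih]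
      simp only [fwdDiff]
      rw [show n + (h + 1) = n + h + 1 from rfl]; ring
  | succ k ih =>
    intro a h n
    rw [Function.iterate_succ_apply]
    have e1 : fwdDiff 1 (fun n => a (n + h) - a n)
        = fun n => (fwdDiff 1 a) (n + h) - (fwdDiff 1 a) n := by
      funext n
      simp only [fwdDiff]
      rw [show n + 1 + h = n + h + 1 by omega]; ring
    rw [e1, ih]
    apply sum_congr rfl
    intro j _
    rw [Function.iterate_succ_apply (n := k + 1)]

/-- k-th difference test, k ≥ 2 -/
theorem kth_diff (k : ℕ) (hk : 2 ≤ k) : ∀ (A δ : ℝ), 1 ≤ A → 0 < δ → δ ≤ 1 →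
    ∃ ρ : ℝ, 0 < ρ ∧ ∃ C : ℝ, 0 < C ∧ ∀ N : ℝ, 1 ≤ N → ∀ lam : ℝ, N ^ (-(k : ℝ) + δ) ≤ lam → lam ≤ N ^ (-δ) →
      ∀ M : ℕ, (M : ℝ) ≤ N → ∀ a : ℕ → ℝ,
        (∀ n < M, lam ≤ (fwdDiff 1)^[k] a n ∧ (fwdDiff 1)^[k] a n ≤ A * lam) →
        ‖∑ n ∈ range M, e (a n)‖ ≤ C * N ^ (1 - ρ) := by
  induction k, hk using Nat.le_induction with
  | base =>
    intro A δ hA hδ hδ1
    refine ⟨δ / 2, by positivity, 6 * A + 12, by positivity, ?_⟩
    intro N hN lam h1 h2 M hM a ha
    have hNpos : 0 < N := by linarith
    have hlpos : 0 < lam := lt_of_lt_of_le (Real.rpow_pos_of_pos hNpos _) h1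
    have hs := second_diff a M lam A hlpos (by
      intro n hn
      have := ha n hn
      simp only [Function.iterate_succ, Function.iterate_zero, Function.comp, id_eq, fwdDiff] at this
      exact this)
    refine hs.trans ?_
    have hl1 : lam ≤ 1 := h2.trans (Real.rpow_le_one_of_one_le_of_nonpos hN (by linarith))
    set s := Real.sqrt lam with hsdef
    have hspos : 0 < s := Real.sqrt_pos.2 hlpos
    have hs1 : s ≤ 1 := by rw [hsdef]; exact Real.sqrt_le_one.2 hl1
    have hss : s * s = lam := Real.mul_self_sqrt hlpos.le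
    have h3 : s ≤ N ^ (-δ / 2) := by
      rw [hsdef]
      apply Real.sqrt_le_iff.2
      constructor
      · positivity
      · rw [← Real.rpow_natCast, ← Real.rpow_mul hNpos.le]
        norm_num; exact h2
    have h4 : 1 / s ≤ N ^ (1 - δ / 2) := by
      have : N ^ (-1 + δ / 2) ≤ s := by
        apply Real.le_sqrt_of_sq_le
        rw [← Real.rpow_natCast, ← Real.rpow_mul hNpos.le]
        refine le_trans (le_of_eq ?_) h1
        congr 1; push_cast; ring
      have h5 : N ^ (1 - δ / 2) = 1 / N ^ (-1 + δ / 2) := by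
        rw [one_div, ← Real.rpow_neg hNpos.le]; congr 1; ring
      rw [h5]
      exact one_div_le_one_div_of_le (Real.rpow_pos_of_pos hNpos _) this
    have h6 : 5 / s + 1 ≤ 6 / s := by
      rw [div_add_one hspos.ne', div_le_div_iff_of_pos_right hspos]; linarith
    have h7 : 0 ≤ A * lam * M + 2 := by positivity
    calc (A * lam * M + 2) * (5 / s + 1) ≤ (A * lam * N + 2) * (6 / s) := by
          apply mul_le_mul _ h6 (by positivity) (by positivity)
          have : A * lam * M ≤ A * lam * N := mul_le_mul_of_nonneg_left hM (by positivity)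
          linarith
      _ = 6 * A * (N * s) + 12 * (1 / s) := by
          rw [← hss]; field_simp; ring
      _ ≤ 6 * A * (N ^ (1 - δ / 2)) + 12 * N ^ (1 - δ / 2) := by
          have h8 : N * s ≤ N ^ (1 - δ / 2) := by
            calc N * s ≤ N * N ^ (-δ / 2) := mul_le_mul_of_nonneg_left h3 hNpos.le
              _ = N ^ (1 - δ / 2) := by
                nth_rewrite 1 [← Real.rpow_one N]
                rw [← Real.rpow_add hNpos]; congr 1; ring
          have : 6 * A * (N * s) ≤ 6 * A * N ^ (1 - δ / 2) :=
            mul_le_mul_of_nonneg_left h8 (by positivity)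
          linarith
      _ = (6 * A + 12) * N ^ (1 - δ / 2) := by ring
  | succ k hk ih =>
    intro A δ hA hδ hδ1
    obtain ⟨ρ', hρ', C', hC', hI⟩ := ih A (δ / 4) hA (by positivity) (by linarith)
    refine ⟨min (δ / 8) (ρ' / 2), by positivity, 6 + 4 * C', by positivity, ?_⟩
    set ρ := min (δ / 8) (ρ' / 2) with hρ
    have hρ1 : ρ ≤ δ / 8 := min_le_left _ _
    have hρ2 : ρ ≤ ρ' / 2 := min_le_right _ _
    intro N hN lam h1 h2 M hM a ha
    have hNpos : 0 < N := by linarith
    have hlpos : 0 < lam := lt_of_lt_of_le (Real.rpow_pos_of_pos hNpos _) h1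
    have hmono : ∀ x y : ℝ, x ≤ y → N ^ x ≤ N ^ y := fun x y hxy =>
      Real.rpow_le_rpow_of_exponent_le hN hxy
    -- the thresholds
    set K : ℝ := max 1 (N ^ (-(k : ℝ) + δ / 4) / lam) with hK
    have hK1 : 1 ≤ K := le_max_left _ _
    have hK2 : N ^ (-(k : ℝ) + δ / 4) ≤ K * lam := by
      have : N ^ (-(k : ℝ) + δ / 4) / lam ≤ K := le_max_right _ _
      rwa [div_le_iff₀ hlpos] at this
    have hKle : K ≤ N ^ (1 - 3 * δ / 4) := by
      apply max_le
      · exact Real.one_le_rpow hN (by linarith)
      · rw [div_le_iff₀ hlpos]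
        calc N ^ (-(k : ℝ) + δ / 4) = N ^ (1 - 3 * δ / 4) * N ^ (-((k + 1 : ℕ) : ℝ) + δ) := by
              rw [← Real.rpow_add hNpos]; congr 1; push_cast; ring
          _ ≤ N ^ (1 - 3 * δ / 4) * lam := mul_le_mul_of_nonneg_left h1 (by positivity)
    have hKlam : K * lam ≤ N ^ (-δ / 2) := by
      rw [hK, max_mul_of_nonneg _ _ hlpos.le]
      apply max_le
      · rw [one_mul]; exact h2.trans (hmono _ _ (by linarith))
      · rw [div_mul_cancel₀ _ hlpos.ne']
        apply hmono
        have : (2 : ℝ) ≤ k := by exact_mod_cast hk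
        linarith
    set R : ℝ := K * N ^ (δ / 4) with hR
    have hRpos : 1 ≤ R := by
      have : 1 ≤ N ^ (δ / 4) := Real.one_le_rpow hN (by linarith)
      nlinarith
    set H : ℕ := ⌈R⌉₊ with hH
    have hH1 : 1 ≤ H := by
      rw [hH]; exact Nat.one_le_ceil_iff.2 (by linarith)
    have hRH : R ≤ H := Nat.le_ceil _
    have hRle : R ≤ N ^ (1 - δ / 2) := by
      calc R ≤ N ^ (1 - 3 * δ / 4) * N ^ (δ / 4) :=
            mul_le_mul_of_nonneg_right hKle (by positivity)
        _ = N ^ (1 - δ / 2) := by rw [← Real.rpow_add hNpos]; congr 1; ring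
    have hSM : ‖∑ n ∈ range M, e (a n)‖ ≤ M := by
      refine (norm_sum_le _ _).trans ?_
      simp [norm_e]
    rcases Nat.lt_or_ge M H with hMH | hMH
    · -- trivial
      have : (M : ℝ) < R := Nat.lt_ceil.1 hMH
      calc ‖∑ n ∈ range M, e (a n)‖ ≤ M := hSM
        _ ≤ R := this.le
        _ ≤ N ^ (1 - δ / 2) := hRle
        _ ≤ N ^ (1 - ρ) := hmono _ _ (by linarith)
        _ ≤ (6 + 4 * C') * N ^ (1 - ρ) := by
          have : 0 ≤ N ^ (1 - ρ) := by positivity
          nlinarith
    · have hv := vdc_ineq (fun n => e (a n)) M H hH1 hMH (fun n => (norm_e _).le)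
      have hcorr : ∀ h ∈ Ico 1 H, ‖∑ n ∈ range (M - h), e (a (n + h)) * (starRingEnd ℂ) (e (a n))‖
          ≤ (if (h : ℝ) < K then (M : ℝ) else 0) + C' * N ^ (1 - ρ') := by
        intro h hh
        rw [mem_Ico] at hh
        have heq : ∑ n ∈ range (M - h), e (a (n + h)) * (starRingEnd ℂ) (e (a n))
            = ∑ n ∈ range (M - h), e (a (n + h) - a n) := by
          apply sum_congr rfl; intro n _
          rw [conj_e, ← e_add, sub_eq_add_neg]
        rw [heq]
        have hCn : 0 ≤ C' * N ^ (1 - ρ') := by positivity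
        split_ifs with hcase
        · have : ‖∑ n ∈ range (M - h), e (a (n + h) - a n)‖ ≤ ((M - h : ℕ) : ℝ) := by
            refine (norm_sum_le _ _).trans ?_
            simp [norm_e]
          have h3 : ((M - h : ℕ) : ℝ) ≤ M := by exact_mod_cast Nat.sub_le _ _
          linarith
        · rw [zero_add]
          push Not at hcase
          have hhpos : (0 : ℝ) < h := by exact_mod_cast hh.1
          apply hI N hN (h * lam)
          · refine hK2.trans ?_
            exact mul_le_mul_of_nonneg_right hcase hlpos.le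
          · have h4 : (h : ℝ) < R := Nat.lt_ceil.1 hh.2
            calc (h : ℝ) * lam ≤ R * lam := mul_le_mul_of_nonneg_right h4.le hlpos.le
              _ = K * lam * N ^ (δ / 4) := by rw [hR]; ring
              _ ≤ N ^ (-δ / 2) * N ^ (δ / 4) := mul_le_mul_of_nonneg_right hKlam (by positivity)
              _ = N ^ (-(δ / 4)) := by rw [← Real.rpow_add hNpos]; congr 1; ring
          · have : ((M - h : ℕ) : ℝ) ≤ M := by exact_mod_cast Nat.sub_le _ _
            linarith
          · intro n hn
            have hs := fwdDiff_iter_shift k a h n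
            rw [hs]
            constructor
            · calc (h : ℝ) * lam = ∑ _j ∈ range h, lam := by simp
                _ ≤ _ := by
                  apply sum_le_sum; intro j hj
                  rw [mem_range] at hj
                  exact (ha (n + j) (by omega)).1
            · calc _ ≤ ∑ _j ∈ range h, A * lam := by
                    apply sum_le_sum; intro j hj
                    rw [mem_range] at hj
                    exact (ha (n + j) (by omega)).2
                _ = A * (h * lam) := by simp; ring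
      have hsum : ∑ h ∈ Ico 1 H, ‖∑ n ∈ range (M - h), e (a (n + h)) * (starRingEnd ℂ) (e (a n))‖
          ≤ K * M + H * (C' * N ^ (1 - ρ')) := by
        refine (sum_le_sum hcorr).trans ?_
        rw [sum_add_distrib]
        apply add_le_add
        · rw [← sum_filter, sum_const, nsmul_eq_mul]
          apply mul_le_mul_of_nonneg_right _ (by positivity)
          have : (Ico 1 H).filter (fun h : ℕ => (h : ℝ) < K) ⊆ Ico 1 ⌈K⌉₊ := by
            intro x hx
            rw [mem_filter, mem_Ico] at hx
            rw [mem_Ico]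
            exact ⟨hx.1.1, Nat.lt_ceil.2 hx.2⟩
          have h5 := card_le_card this
          rw [Nat.card_Ico] at h5
          have h6 : (((Ico 1 H).filter (fun h : ℕ => (h : ℝ) < K)).card : ℝ) ≤ ((⌈K⌉₊ - 1 : ℕ) : ℝ) := by
            exact_mod_cast h5
          have h7 : ((⌈K⌉₊ - 1 : ℕ) : ℝ) ≤ K := by
            have hc := Nat.ceil_lt_add_one (show 0 ≤ K by linarith)
            have hc2 : 1 ≤ ⌈K⌉₊ := Nat.one_le_ceil_iff.2 (by linarith)
            rw [Nat.cast_sub hc2]; push_cast; linarith
          linarith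
        · rw [sum_const, nsmul_eq_mul, Nat.card_Ico]
          apply mul_le_mul_of_nonneg_right _ (by positivity)
          exact_mod_cast Nat.sub_le _ _
      have hM0 : (0 : ℝ) ≤ M := by positivity
      have hHpos : (0 : ℝ) < H := by exact_mod_cast hH1
      have hNN : ‖∑ n ∈ range M, e (a n)‖ ^ 2 ≤ 6 * N ^ (2 - δ / 4) + 4 * C' * N ^ (2 - ρ') := by
        calc ‖∑ n ∈ range M, e (a n)‖ ^ 2
            ≤ 2 * M / H * (M + 2 * (K * M + H * (C' * N ^ (1 - ρ')))) := by
              refine hv.trans ?_
              apply mul_le_mul_of_nonneg_left _ (by positivity)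
              linarith
          _ = 2 * M ^ 2 * ((1 + 2 * K) / H) + 4 * M * (C' * N ^ (1 - ρ')) := by
              field_simp; ring
          _ ≤ 2 * N ^ 2 * (3 * N ^ (-δ / 4)) + 4 * N * (C' * N ^ (1 - ρ')) := by
              have t1 : (1 + 2 * K) / H ≤ 3 * N ^ (-δ / 4) := by
                rw [div_le_iff₀ hHpos]
                have : 3 * N ^ (-δ / 4) * R = 3 * K := by
                  rw [hR]
                  have : N ^ (-δ / 4) * N ^ (δ / 4) = 1 := by
                    rw [← Real.rpow_add hNpos, show -δ / 4 + δ / 4 = 0 by ring, Real.rpow_zero]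
                  linear_combination (3 * K) * this
                have t2 : 3 * N ^ (-δ / 4) * R ≤ 3 * N ^ (-δ / 4) * H :=
                  mul_le_mul_of_nonneg_left hRH (by positivity)
                linarith
              have t3 : 2 * (M : ℝ) ^ 2 ≤ 2 * N ^ 2 := by
                have := pow_le_pow_left₀ hM0 hM 2
                linarith
              have t4 : 0 ≤ (1 + 2 * K) / H := by positivity
              have t5 : 2 * (M : ℝ) ^ 2 * ((1 + 2 * K) / H) ≤ 2 * N ^ 2 * (3 * N ^ (-δ / 4)) :=
                mul_le_mul t3 t1 t4 (by positivity)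
              have t6 : 4 * (M : ℝ) * (C' * N ^ (1 - ρ')) ≤ 4 * N * (C' * N ^ (1 - ρ')) := by
                apply mul_le_mul_of_nonneg_right (by linarith) (by positivity)
              linarith
          _ = 6 * N ^ (2 - δ / 4) + 4 * C' * N ^ (2 - ρ') := by
              have r1 : N ^ (2 - δ / 4) = N ^ 2 * N ^ (-δ / 4) := by
                rw [← Real.rpow_natCast N 2, ← Real.rpow_add hNpos]; congr 1; push_cast; ring
              have r2 : N ^ (2 - ρ') = N * N ^ (1 - ρ') := by
                nth_rewrite 2 [← Real.rpow_one N]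
                rw [← Real.rpow_add hNpos]; congr 1; ring
              rw [r1, r2]; ring
      have hfin : ‖∑ n ∈ range M, e (a n)‖ ^ 2 ≤ ((6 + 4 * C') * N ^ (1 - ρ)) ^ 2 := by
        refine hNN.trans ?_
        have q1 : N ^ (2 - δ / 4) ≤ N ^ (2 * (1 - ρ)) := hmono _ _ (by linarith)
        have q2 : N ^ (2 - ρ') ≤ N ^ (2 * (1 - ρ)) := hmono _ _ (by linarith)
        have q3 : (N ^ (1 - ρ)) ^ 2 = N ^ (2 * (1 - ρ)) := by
          rw [← Real.rpow_natCast, ← Real.rpow_mul hNpos.le]; congr 1; push_cast; ring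
        rw [mul_pow, q3]
        have q4 : 0 ≤ N ^ (2 * (1 - ρ)) := by positivity
        have q5 : 6 + 4 * C' ≤ (6 + 4 * C') ^ 2 := by nlinarith
        calc 6 * N ^ (2 - δ / 4) + 4 * C' * N ^ (2 - ρ')
            ≤ 6 * N ^ (2 * (1 - ρ)) + 4 * C' * N ^ (2 * (1 - ρ)) := by
              have := mul_le_mul_of_nonneg_left q2 (show 0 ≤ 4 * C' by positivity)
              linarith
          _ = (6 + 4 * C') * N ^ (2 * (1 - ρ)) := by ring
          _ ≤ (6 + 4 * C') ^ 2 * N ^ (2 * (1 - ρ)) := mul_le_mul_of_nonneg_right q5 q4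
      exact le_of_sq_le_sq hfin (by positivity)

end Pool.MR
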