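import Pool.Agent.Helper58.MR.VC3

/-! Exponential sums, IV: finite differences of the logarithm and sums of `n ^ (-i y)`. -/

namespace Pool.MR

open Finset

theorem hasDerivAt_fwdDiff_iter (k : ℕ) : ∀ (f f' : ℝ → ℝ),
    (∀ x, 0 < x → HasDerivAt f (f' x) x) → ∀ x, 0 < x →
      HasDerivAt ((fwdDiff (1 : ℝ))^[k] f) ((fwdDiff (1 : ℝ))^[k] f' x) x := by
  induction k with
  | zero => intro f f' h x hx; simpa using h x hx
  | succ k ih =>
    intro f f' h x hx
    rw [Function.iterate_succ_apply, Function.iterate_succ_apply]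
    apply ih (fwdDiff 1 f) (fwdDiff 1 f') _ x hx
    intro x hx
    have h1 := (h (x + 1) (by linarith))
    have h2 := h x hx
    have h3 : HasDerivAt (fun t => f (t + 1)) (f' (x + 1)) x := h1.comp_add_const x 1
    exact h3.sub h2

theorem exists_fwdDiff_eq (k : ℕ) (f f' : ℝ → ℝ)
    (h : ∀ x, 0 < x → HasDerivAt f (f' x) x) (x : ℝ) (hx : 0 < x) :
    ∃ ξ, x < ξ ∧ ξ < x + 1 ∧
      (fwdDiff (1 : ℝ))^[k + 1] f x = (fwdDiff (1 : ℝ))^[k] f' ξ := by
  have h1 := hasDerivAt_fwdDiff_iter k f f' h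
  obtain ⟨ξ, hξ, he⟩ := exists_hasDerivAt_eq_slope ((fwdDiff (1 : ℝ))^[k] f)
    ((fwdDiff (1 : ℝ))^[k] f') (show x < x + 1 by linarith)
    (by
      intro t ht
      exact (h1 t (by linarith [ht.1])).continuousAt.continuousWithinAt)
    (by
      intro t ht
      exact h1 t (by linarith [ht.1]))
  refine ⟨ξ, hξ.1, hξ.2, ?_⟩
  rw [Function.iterate_succ_apply']
  rw [he]
  simp [fwdDiff]

theorem fwdDiff_iter_const_mul (k : ℕ) (c : ℝ) : ∀ (f : ℝ → ℝ) (x : ℝ),
    (fwdDiff (1 : ℝ))^[k] (fun t => c * f t) x = c * (fwdDiff (1 : ℝ))^[k] f x := by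
  induction k with
  | zero => intro f x; simp
  | succ k ih =>
    intro f x
    rw [Function.iterate_succ_apply, Function.iterate_succ_apply]
    have : fwdDiff (1 : ℝ) (fun t => c * f t) = fun t => c * fwdDiff (1 : ℝ) f t := by
      funext t; simp only [fwdDiff]; ring
    rw [this, ih]

/-- differences of negative powers -/
theorem fwdDiff_zpow (k : ℕ) : ∀ (j : ℕ) (_ : 1 ≤ j) (x : ℝ) (_ : 0 < x),
    (j.ascFactorial k : ℝ) * (1 / (x + k) ^ (j + k))
      ≤ (-1) ^ k * (fwdDiff (1 : ℝ))^[k] (fun t => 1 / t ^ j) x ∧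
    (-1) ^ k * (fwdDiff (1 : ℝ))^[k] (fun t => 1 / t ^ j) x
      ≤ (j.ascFactorial k : ℝ) * (1 / x ^ (j + k)) := by
  induction k with
  | zero => intro j _ x _; simp
  | succ k ih =>
    intro j hj x hx
    obtain ⟨ξ, h1, h2, h3⟩ := exists_fwdDiff_eq k (fun t => 1 / t ^ j)
      (fun t => -(j : ℝ) * (1 / t ^ (j + 1))) (by
        intro t ht
        have h := (hasDerivAt_pow j t).fun_inv (pow_ne_zero j ht.ne')
        have e1 : (fun t : ℝ => 1 / t ^ j) = fun t => (t ^ j)⁻¹ := by funext t; rw [one_div]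
        rw [e1]
        refine h.congr_deriv ?_
        obtain ⟨i, rfl⟩ : ∃ i, j = i + 1 := ⟨j - 1, by omega⟩
        rw [Nat.add_sub_cancel]
        have ht' : t ≠ 0 := ht.ne'
        field_simp
        ring) x hx
    rw [h3, fwdDiff_iter_const_mul]
    have hI := ih (j + 1) (by omega) ξ (by linarith)
    have hξ : 0 < ξ := by linarith
    have easc : (j.ascFactorial (k + 1) : ℝ) = j * ((j + 1).ascFactorial k : ℝ) := by
      have h1 := Nat.ascFactorial_succ (n := j) (k := k)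
      have h2 := Nat.succ_ascFactorial j k
      have h3 : j.ascFactorial (k + 1) = j * (j + 1).ascFactorial k := by
        rw [show k + 1 = k.succ from rfl, h1, ← h2]
      exact_mod_cast h3
    have e2 : (-1 : ℝ) ^ (k + 1) * (-(j : ℝ) * (fwdDiff (1 : ℝ))^[k] (fun t => 1 / t ^ (j + 1)) ξ)
        = j * ((-1) ^ k * (fwdDiff (1 : ℝ))^[k] (fun t => 1 / t ^ (j + 1)) ξ) := by
      rw [pow_succ]; ring
    rw [e2, easc]
    have hj0 : (0 : ℝ) ≤ j := by positivity
    have ha0 : (0 : ℝ) ≤ ((j + 1).ascFactorial k : ℝ) := by positivity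
    constructor
    · have : (1 / (x + ((k + 1 : ℕ) : ℝ)) ^ (j + (k + 1))) ≤ 1 / (ξ + k) ^ (j + 1 + k) := by
        rw [show j + (k + 1) = j + 1 + k by ring]
        apply one_div_le_one_div_of_le (by positivity)
        apply pow_le_pow_left₀ (by positivity)
        push_cast; linarith
      calc (j : ℝ) * ((j + 1).ascFactorial k : ℝ) * (1 / (x + ((k + 1 : ℕ) : ℝ)) ^ (j + (k + 1)))
          ≤ (j : ℝ) * ((j + 1).ascFactorial k : ℝ) * (1 / (ξ + k) ^ (j + 1 + k)) :=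
            mul_le_mul_of_nonneg_left this (by positivity)
        _ = j * (((j + 1).ascFactorial k : ℝ) * (1 / (ξ + k) ^ (j + 1 + k))) := by ring
        _ ≤ _ := mul_le_mul_of_nonneg_left hI.1 hj0
    · have : 1 / ξ ^ (j + 1 + k) ≤ 1 / x ^ (j + (k + 1)) := by
        rw [show j + (k + 1) = j + 1 + k by ring]
        apply one_div_le_one_div_of_le (by positivity)
        exact pow_le_pow_left₀ hx.le h1.le _
      calc _ ≤ j * (((j + 1).ascFactorial k : ℝ) * (1 / ξ ^ (j + 1 + k))) :=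
            mul_le_mul_of_nonneg_left hI.2 hj0
        _ ≤ j * (((j + 1).ascFactorial k : ℝ) * (1 / x ^ (j + (k + 1)))) := by
            apply mul_le_mul_of_nonneg_left _ hj0
            exact mul_le_mul_of_nonneg_left this ha0
        _ = _ := by ring

/-- differences of the logarithm -/
theorem fwdDiff_log (k : ℕ) (x : ℝ) (hx : 0 < x) :
    (k.factorial : ℝ) * (1 / (x + (k + 1)) ^ (k + 1))
      ≤ (-1) ^ k * (fwdDiff (1 : ℝ))^[k + 1] Real.log x ∧
    (-1) ^ k * (fwdDiff (1 : ℝ))^[k + 1] Real.log x ≤ (k.factorial : ℝ) * (1 / x ^ (k + 1)) := by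
  obtain ⟨ξ, h1, h2, h3⟩ := exists_fwdDiff_eq k Real.log (fun t => 1 / t ^ 1) (by
    intro t ht
    have := Real.hasDerivAt_log ht.ne'
    simpa [one_div] using this) x hx
  have hξ : 0 < ξ := by linarith
  have hI := fwdDiff_zpow k 1 le_rfl ξ hξ
  rw [h3]
  have easc : ((1 : ℕ).ascFactorial k : ℝ) = k.factorial := by
    rw [Nat.one_ascFactorial]
  rw [easc] at hI
  constructor
  · refine le_trans ?_ hI.1
    apply mul_le_mul_of_nonneg_left _ (by positivity)
    rw [show 1 + k = k + 1 by ring]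
    apply one_div_le_one_div_of_le (by positivity)
    apply pow_le_pow_left₀ (by positivity)
    linarith
  · refine hI.2.trans ?_
    apply mul_le_mul_of_nonneg_left _ (by positivity)
    rw [show 1 + k = k + 1 by ring]
    apply one_div_le_one_div_of_le (by positivity)
    exact pow_le_pow_left₀ hx.le h1.le _

theorem fwdDiff_nat (k : ℕ) : ∀ (f : ℝ → ℝ) (m n : ℕ),
    (fwdDiff 1)^[k] (fun n : ℕ => f (((m + n : ℕ) : ℝ))) n
      = (fwdDiff (1 : ℝ))^[k] f ((m + n : ℕ) : ℝ) := by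
  induction k with
  | zero => intro f m n; simp
  | succ k ih =>
    intro f m n
    rw [Function.iterate_succ_apply, Function.iterate_succ_apply]
    rw [← ih (fwdDiff 1 f) m n]
    have : (fwdDiff 1 fun n : ℕ => f ((m + n : ℕ) : ℝ))
        = fun n : ℕ => fwdDiff (1 : ℝ) f ((m + n : ℕ) : ℝ) := by
      funext i
      simp only [fwdDiff]
      push_cast
      rw [← add_assoc]
    rw [this]

theorem natPow_eq_e (y : ℝ) (m : ℕ) (hm : m ≠ 0) :
    (m : ℂ) ^ (-(y : ℂ) * Complex.I) = e (-(y * Real.log m / (2 * Real.pi))) := by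
  unfold e
  rw [Complex.cpow_def_of_ne_zero (by exact_mod_cast hm)]
  congr 1
  rw [show (m : ℂ) = ((m : ℝ) : ℂ) by simp, ← Complex.ofReal_log (by positivity)]
  have : (Real.pi : ℂ) ≠ 0 := by exact_mod_cast Real.pi_ne_zero
  push_cast
  field_simp

theorem norm_sum_e_neg (s : Finset ℕ) (f : ℕ → ℝ) :
    ‖∑ n ∈ s, e (-f n)‖ = ‖∑ n ∈ s, e (f n)‖ := by
  rw [← Complex.norm_conj, map_sum]
  congr 1
  apply sum_congr rfl
  intro n _
  rw [conj_e, neg_neg]

theorem fwdDiff_iter_comp_add (k : ℕ) (θ : ℝ) : ∀ (f : ℝ → ℝ) (x : ℝ),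
    (fwdDiff (1 : ℝ))^[k] (fun t => f (t + θ)) x = (fwdDiff (1 : ℝ))^[k] f (x + θ) := by
  induction k with
  | zero => intro f x; simp
  | succ k ih =>
    intro f x
    rw [Function.iterate_succ_apply, Function.iterate_succ_apply]
    rw [← ih (fwdDiff 1 f) x]
    have : fwdDiff (1 : ℝ) (fun t => f (t + θ)) = fun t => fwdDiff (1 : ℝ) f (t + θ) := by
      funext t; simp only [fwdDiff]; congr 2; ring
    rw [this]

/-- the sum of `e (c log (m + θ))` over an interval in `[M, 10 M]`. -/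
theorem sum_e_log_shift (B : ℝ) (hB : 1 ≤ B) :
    ∃ ρ : ℝ, 0 < ρ ∧ ρ ≤ 1 ∧ ∃ C : ℝ, 0 < C ∧ ∀ M : ℝ, 1 ≤ M → ∀ y : ℝ, M ^ (1 / 4 : ℝ) ≤ |y| →
      |y| ≤ M ^ B → ∀ θ : ℝ, 0 ≤ θ → θ ≤ 1 → ∀ m0 m1 : ℕ, M ≤ m0 → (m1 : ℝ) ≤ 10 * M →
        ‖∑ m ∈ Ico m0 m1, e (y * Real.log (m + θ) / (2 * Real.pi))‖ ≤ C * M ^ (1 - ρ) := by
  obtain ⟨k, hk2, hkB⟩ : ∃ k : ℕ, 1 ≤ k ∧ B ≤ k := ⟨⌈B⌉₊, Nat.one_le_ceil_iff.2 (by linarith),
    Nat.le_ceil B⟩
  -- order of differences is k + 1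
  set κ0 : ℝ := 2 * Real.pi * (12 + k) ^ (k + 1) / k.factorial with hκ0
  set κ : ℝ := max 10 κ0 with hκ
  have hpi := Real.pi_pos
  have hκ0pos : 0 < κ0 := by positivity
  have hκ10 : 10 ≤ κ := le_max_left _ _
  have hκpos : 0 < κ := by linarith
  have hfac : (k.factorial : ℝ) ≤ (12 + k) ^ k := by
    have h1 : k.factorial ≤ k ^ k := Nat.factorial_le_pow k
    have h2 : (k.factorial : ℝ) ≤ (k : ℝ) ^ k := by exact_mod_cast h1
    refine h2.trans (pow_le_pow_left₀ (by positivity) (by linarith) _)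
  have hκ0big : 10 ≤ κ0 := by
    rw [hκ0, le_div_iff₀ (by positivity), pow_succ]
    have h3 : (0 : ℝ) ≤ k := by positivity
    have h4 : (0 : ℝ) < (12 + k) ^ k := by positivity
    have h5 : 3 < Real.pi := Real.pi_gt_three
    nlinarith [mul_pos h4 hpi]
  obtain ⟨ρ, hρ, C, hC, hV⟩ := kth_diff (k + 1) (by omega) ((12 + k) ^ (k + 1)) (1 / 8)
    (one_le_pow₀ (by linarith [show (0 : ℝ) ≤ k by positivity])) (by norm_num) (by norm_num)
  refine ⟨min ρ 1, by positivity, min_le_right _ _, C * κ ^ (1 : ℝ), by positivity, ?_⟩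
  intro M hM y hy1 hy2 θ hθ0 hθ1 m0 m1 hm0 hm1
  have hMpos : 0 < M := by linarith
  rcases Nat.lt_or_ge m0 m1 with hlt | hge
  swap
  · rw [Ico_eq_empty (by omega)]; simp; positivity
  have hypos : 0 < |y| := lt_of_lt_of_le (by positivity) hy1
  -- replace y by c = |y|/(2π) with the sign of (-1)^k
  have hred : ‖∑ m ∈ Ico m0 m1, e (y * Real.log (m + θ) / (2 * Real.pi))‖
      = ‖∑ n ∈ range (m1 - m0),
          e ((-1) ^ k * (|y| / (2 * Real.pi)) * Real.log (((m0 + n : ℕ) : ℝ) + θ))‖ := by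
    rw [Finset.sum_Ico_eq_sum_range]
    rcases abs_choice y with hy | hy <;> rcases neg_one_pow_eq_or ℝ k with hk | hk
    · rw [hy, hk]
      congr 1; apply sum_congr rfl; intro n _; congr 1; ring
    · rw [hy, hk, ← norm_sum_e_neg]
      congr 1; apply sum_congr rfl; intro n _; congr 1; ring
    · rw [hy, hk, ← norm_sum_e_neg]
      congr 1; apply sum_congr rfl; intro n _; congr 1; ring
    · rw [hy, hk]
      congr 1; apply sum_congr rfl; intro n _; congr 1; ring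
  rw [hred]
  set a : ℕ → ℝ := fun n =>
    (-1) ^ k * (|y| / (2 * Real.pi)) * Real.log (((m0 + n : ℕ) : ℝ) + θ) with ha
  set lam : ℝ := |y| / (κ0 * M ^ (k + 1)) with hlam
  have hx : ∀ n < m1 - m0, M ≤ ((m0 + n : ℕ) : ℝ) + θ ∧ ((m0 + n : ℕ) : ℝ) + θ ≤ 11 * M := by
    intro n hn
    constructor
    · push_cast; have : (0 : ℝ) ≤ n := by positivity
      linarith
    · have : ((m0 + n : ℕ) : ℝ) ≤ m1 := by exact_mod_cast (show m0 + n ≤ m1 by omega)
      linarith
  have hmain : ∀ n < m1 - m0, lam ≤ (fwdDiff 1)^[k + 1] a n ∧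
      (fwdDiff 1)^[k + 1] a n ≤ (12 + k) ^ (k + 1) * lam := by
    intro n hn
    obtain ⟨hx1, hx2⟩ := hx n hn
    have hxpos : (0 : ℝ) < ((m0 + n : ℕ) : ℝ) + θ := by linarith
    have hnat := fwdDiff_nat (k + 1)
      (fun t => (-1) ^ k * (|y| / (2 * Real.pi)) * Real.log (t + θ)) m0 n
    have hconst := fwdDiff_iter_const_mul (k + 1) ((-1) ^ k * (|y| / (2 * Real.pi)))
      (fun t => Real.log (t + θ)) ((m0 + n : ℕ) : ℝ)
    have hsh := fwdDiff_iter_comp_add (k + 1) θ Real.log ((m0 + n : ℕ) : ℝ)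
    have heq : (fwdDiff 1)^[k + 1] a n = (|y| / (2 * Real.pi)) *
        ((-1) ^ k * (fwdDiff (1 : ℝ))^[k + 1] Real.log (((m0 + n : ℕ) : ℝ) + θ)) := by
      rw [ha, hnat, hconst, hsh]; ring
    have hb := fwdDiff_log k (((m0 + n : ℕ) : ℝ) + θ) hxpos
    rw [heq]
    constructor
    · have h1 : lam = |y| / (2 * Real.pi) * (k.factorial * (1 / ((12 + k) * M) ^ (k + 1))) := by
        rw [hlam, hκ0, mul_pow]; field_simp
      rw [h1]
      apply mul_le_mul_of_nonneg_left _ (by positivity)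
      refine le_trans ?_ hb.1
      apply mul_le_mul_of_nonneg_left _ (by positivity)
      apply one_div_le_one_div_of_le (by positivity)
      apply pow_le_pow_left₀ (by positivity)
      have : (0 : ℝ) ≤ k := by positivity
      nlinarith
    · have h1 : (12 + (k : ℝ)) ^ (k + 1) * lam
          = |y| / (2 * Real.pi) * (k.factorial * (1 / M ^ (k + 1))) := by
        rw [hlam, hκ0]; field_simp
      rw [h1]
      apply mul_le_mul_of_nonneg_left _ (by positivity)
      refine hb.2.trans ?_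
      apply mul_le_mul_of_nonneg_left _ (by positivity)
      apply one_div_le_one_div_of_le (by positivity)
      exact pow_le_pow_left₀ (by positivity) hx1 _
  have hN1 : 1 ≤ κ * M := by nlinarith
  have hlow : (κ * M) ^ (-((k + 1 : ℕ) : ℝ) + 1 / 8) ≤ lam := by
    have h1 : (κ * M) ^ (-((k + 1 : ℕ) : ℝ) + 1 / 8)
        = κ ^ (-((k + 1 : ℕ) : ℝ) + 1 / 8) * M ^ (-((k + 1 : ℕ) : ℝ) + 1 / 8) :=
      Real.mul_rpow hκpos.le hMpos.le
    have h2 : κ ^ (-((k + 1 : ℕ) : ℝ) + 1 / 8) ≤ 1 / κ0 := by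
      have : κ ^ (-((k + 1 : ℕ) : ℝ) + 1 / 8) ≤ κ ^ (-1 : ℝ) := by
        apply Real.rpow_le_rpow_of_exponent_le (by linarith)
        have : (1 : ℝ) ≤ k := by exact_mod_cast hk2
        push_cast; linarith
      refine this.trans ?_
      rw [Real.rpow_neg_one, ← one_div]
      exact one_div_le_one_div_of_le hκ0pos (le_max_right _ _)
    have h3 : M ^ (-((k + 1 : ℕ) : ℝ) + 1 / 8) ≤ |y| / M ^ (k + 1) := by
      rw [le_div_iff₀ (by positivity), ← Real.rpow_natCast M (k + 1), ← Real.rpow_add hMpos]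
      refine le_trans ?_ hy1
      apply Real.rpow_le_rpow_of_exponent_le hM
      push_cast; linarith
    rw [h1]
    calc κ ^ (-((k + 1 : ℕ) : ℝ) + 1 / 8) * M ^ (-((k + 1 : ℕ) : ℝ) + 1 / 8)
        ≤ 1 / κ0 * (|y| / M ^ (k + 1)) := mul_le_mul h2 h3 (by positivity) (by positivity)
      _ = lam := by rw [hlam]; field_simp
  have hupp : lam ≤ (κ * M) ^ (-(1 / 8 : ℝ)) := by
    have h1 : lam ≤ 1 / (κ0 * M) := by
      rw [hlam, div_le_div_iff₀ (by positivity) (by positivity)]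
      have : |y| ≤ M ^ k := by
        refine hy2.trans ?_
        rw [← Real.rpow_natCast]
        exact Real.rpow_le_rpow_of_exponent_le hM hkB
      calc |y| * (κ0 * M) ≤ M ^ k * (κ0 * M) := mul_le_mul_of_nonneg_right this (by positivity)
        _ = 1 * (κ0 * M ^ (k + 1)) := by ring
    have h2 : 1 / (κ0 * M) ≤ (κ * M) ^ (-(1 / 8 : ℝ)) := by
      rw [Real.rpow_neg (by positivity), ← one_div]
      apply one_div_le_one_div_of_le (by positivity)
      have h3 : κ ≤ 1 * κ0 := by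
        rw [one_mul]; exact max_le hκ0big le_rfl
      have h4 : κ * M ≤ κ0 * M := by nlinarith
      calc (κ * M) ^ (1 / 8 : ℝ) ≤ (κ * M) ^ (1 : ℝ) :=
            Real.rpow_le_rpow_of_exponent_le hN1 (by norm_num)
        _ = κ * M := Real.rpow_one _
        _ ≤ κ0 * M := h4
    exact h1.trans h2
  have hfin := hV (κ * M) hN1 lam hlow hupp (m1 - m0) (by
    have h5 : ((m1 - m0 : ℕ) : ℝ) ≤ m1 := by exact_mod_cast Nat.sub_le _ _
    nlinarith) a hmain
  refine hfin.trans ?_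
  rw [mul_assoc]
  apply mul_le_mul_of_nonneg_left _ hC.le
  calc (κ * M) ^ (1 - ρ) ≤ (κ * M) ^ (1 - min ρ 1) := by
        apply Real.rpow_le_rpow_of_exponent_le hN1
        linarith [min_le_left ρ 1]
    _ = κ ^ (1 - min ρ 1) * M ^ (1 - min ρ 1) := Real.mul_rpow hκpos.le hMpos.le
    _ ≤ κ ^ (1 : ℝ) * M ^ (1 - min ρ 1) := by
        apply mul_le_mul_of_nonneg_right _ (by positivity)
        apply Real.rpow_le_rpow_of_exponent_le (by linarith)
        have : 0 < min ρ 1 := by positivity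
        linarith

/-- the sum of `e (c log m)` over an interval in `[M, 10 M]`. -/
theorem sum_e_log (B : ℝ) (hB : 1 ≤ B) :
    ∃ ρ : ℝ, 0 < ρ ∧ ρ ≤ 1 ∧ ∃ C : ℝ, 0 < C ∧ ∀ M : ℝ, 1 ≤ M → ∀ y : ℝ, M ^ (1 / 4 : ℝ) ≤ |y| →
      |y| ≤ M ^ B → ∀ m0 m1 : ℕ, M ≤ m0 → (m1 : ℝ) ≤ 10 * M →
        ‖∑ m ∈ Ico m0 m1, e (y * Real.log m / (2 * Real.pi))‖ ≤ C * M ^ (1 - ρ) := by
  obtain ⟨ρ, h1, h2, C, hC, h⟩ := sum_e_log_shift B hB
  refine ⟨ρ, h1, h2, C, hC, ?_⟩
  intro M hM y hy1 hy2 m0 m1 hm0 hm1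
  have := h M hM y hy1 hy2 0 le_rfl zero_le_one m0 m1 hm0 hm1
  simpa using this

end Pool.MR
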